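import Pool.Agent.H90.EP.Wt

/-!
The rates, written as dissipation + source + flux + second derivatives of the weight.
-/

set_option autoImplicit false

open Set Filter Topology MeasureTheory
open scoped ContDiff

namespace Pool.Agent.H90.EP

open Pool.Agent.H16 Pool.Agent.H72.CC Pool.Agent.H94.EP Pool.Agent.H87.EP
open Pool.Agent.H87.NS hiding c1
open Pool.Agent.H16.TU hiding Sl

theorem Ev_bd {F g : E3 → ℝ} (hF : Integrable F) (hFc : Continuous F) (hg : Continuous g) {C : ℝ}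
    (hC : ∀ x, |g x| ≤ C) : Integrable (fun x => F x * g x) := by
  refine (hF.norm.const_mul C).mono' (hFc.mul hg).aestronglyMeasurable (Eventually.of_forall fun x => ?_)
  rw [Real.norm_eq_abs, Real.norm_eq_abs, abs_mul, mul_comm]
  exact mul_le_mul_of_nonneg_right (hC x) (abs_nonneg _)

theorem Ev_sqf (s : ℝ) : sqf s = s ^ 2 ∧ deriv sqf s = 2 * s ∧ deriv (deriv sqf) s = 2 := by
  have h1 : ∀ s, HasDerivAt sqf (2 * s) s := by
    intro s
    have h : HasDerivAt (fun s : ℝ => s ^ 2) (2 * s) s := by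
      simpa using hasDerivAt_pow 2 s
    exact h
  have h2 : deriv sqf = fun s => 2 * s := funext fun s => (h1 s).deriv
  refine ⟨rfl, (h1 s).deriv, ?_⟩
  rw [h2]
  have h3 : HasDerivAt (fun s : ℝ => 2 * s) (2 * 1) s := (hasDerivAt_id s).const_mul 2
  rw [h3.deriv, mul_one]

theorem Ev_A1c {L : ℝ} (hL : 1 ≤ L) (a : ℝ) : Continuous (A1 L a) := (A1_ri hL a).sm.continuous

theorem Ev_A1b (L a : ℝ) (x : E3) : |A1 L a x| ≤ 1 := by
  obtain ⟨h1, h2⟩ := A1_nn L a x
  rw [abs_of_nonneg h1]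
  exact h2.trans (ph_le L a (x 2))

theorem Ev_adv {L : ℝ} (hL : 1 ≤ L) (a : ℝ) {v : E3 → E3} (hv : Vs v) :
    Continuous (fun x => adv (v x) (A1 L a) x) ∧ ∃ C : ℝ, ∀ x, |adv (v x) (A1 L a) x| ≤ C := by
  have hA := A1_ri hL a
  obtain ⟨B, hB⟩ := hv.db 0
  obtain ⟨B', hB'⟩ := hA.db 1
  constructor
  · unfold adv
    apply continuous_finsetSum
    intro i _
    have h1 : Continuous (fun x : E3 => v x i) :=
      (EuclideanSpace.proj (𝕜 := ℝ) i : E3 →L[ℝ] ℝ).continuous.comp hv.ax.smooth.continuous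
    exact h1.mul (pd_smooth hA.sm i).continuous
  · refine ⟨∑ _i : Fin 3, B * B', fun x => ?_⟩
    unfold adv
    refine (Finset.abs_sum_le_sum_abs _ _).trans (Finset.sum_le_sum fun i _ => ?_)
    rw [abs_mul]
    have h1 : |v x i| ≤ B := (hB i).1 x
    have h2 : |pd i (A1 L a) x| ≤ B' := (hB'.2 i).1 x
    exact mul_le_mul h1 h2 (abs_nonneg _) ((abs_nonneg _).trans h1)

theorem ev_eq {L : ℝ} (hL : 1 ≤ L) (a : ℝ) {v : E3 → E3} (hv : Vs v) {f G : E3 → ℝ} (hf : Ri f)
    (hG : Integrable (fun x => A1 L a x * (f x * G x))) :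
    (∫ x, evJ sqf v f G (A1 L a) x) / 2 = - Dn L a f + (∫ x, A1 L a x * (f x * G x)) + flx L a v f + lpx L a f := by
  obtain ⟨i1, i2, -, -, c1', c2', -, -, -⟩ := ri_int hf
  obtain ⟨hac, Ca, hCa⟩ := Ev_adv hL a hv
  obtain ⟨Cl, hCl1, hCl⟩ := A1_lap
  have hlc := A1_lap_cont hL a
  have hL0 : 0 < L := by linarith
  have hlb : ∀ x, |lap (A1 L a) x - 2 / rsq x * rdr (A1 L a) x| ≤ Cl + 8 := by
    intro x
    have h1 := hCl L a hL x
    have h2 : Ou.indicator (fun x => Cl * ph L a (x 2)) x ≤ Cl := by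
      by_cases hx : x ∈ Ou
      · rw [indicator_of_mem hx]
        calc Cl * ph L a (x 2) ≤ Cl * 1 := mul_le_mul_of_nonneg_left (ph_le L a _) (by linarith)
          _ = Cl := mul_one _
      · rw [indicator_of_notMem hx]
        linarith
    have h3 : 8 / L ^ 2 * A1 L a x ≤ 8 := by
      have h4 : 8 / L ^ 2 ≤ 8 := by
        rw [div_le_iff₀ (by positivity)]
        nlinarith
      have h5 : A1 L a x ≤ 1 := (le_abs_self _).trans (Ev_A1b L a x)
      calc 8 / L ^ 2 * A1 L a x ≤ 8 * 1 := mul_le_mul h4 h5 (A1_nn L a x).1 (by norm_num)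
        _ = 8 := mul_one _
    linarith
  have j1 : Integrable (fun x => gsq f x * A1 L a x) := Ev_bd i2 c2' (Ev_A1c hL a) (Ev_A1b L a)
  have hf2 : Continuous (fun x => f x ^ 2) := c1'.pow 2
  have j3 : Integrable (fun x => f x ^ 2 * adv (v x) (A1 L a) x) := Ev_bd i1 hf2 hac hCa
  have j4 : Integrable (fun x => f x ^ 2 * (lap (A1 L a) x - 2 / rsq x * rdr (A1 L a) x)) := Ev_bd i1 hf2 hlc hlb
  have e1 : (fun x => evJ sqf v f G (A1 L a) x) = fun x =>
      (-2 * (gsq f x * A1 L a x) + 2 * (A1 L a x * (f x * G x))) + (f x ^ 2 * adv (v x) (A1 L a) x +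
        f x ^ 2 * (lap (A1 L a) x - 2 / rsq x * rdr (A1 L a) x)) := by
    funext x
    obtain ⟨s1, s2, s3⟩ := Ev_sqf (f x)
    unfold evJ
    rw [s1, s2, s3]
    ring
  have j12 : Integrable (fun x => -2 * (gsq f x * A1 L a x) + 2 * (A1 L a x * (f x * G x))) :=
    (j1.const_mul _).add (hG.const_mul _)
  have j34 : Integrable (fun x => f x ^ 2 * adv (v x) (A1 L a) x +
      f x ^ 2 * (lap (A1 L a) x - 2 / rsq x * rdr (A1 L a) x)) := j3.add j4
  rw [e1, integral_add j12 j34, integral_add (j1.const_mul _) (hG.const_mul _), integral_add j3 j4,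
    integral_const_mul, integral_const_mul]
  unfold Dn flx lpx
  have e2 : ∫ x, A1 L a x * gsq f x = ∫ x, gsq f x * A1 L a x := by
    congr 1
    funext x
    ring
  rw [e2]
  ring

theorem lpx_le : ∃ C : ℝ, 1 ≤ C ∧ ∀ (L a : ℝ) (f : E3 → ℝ), 1 ≤ L → Ri f → lpx L a f ≤ 4 / L ^ 2 * Dn L a f + C * Gn L a f := by
  obtain ⟨C1, hC11, hC1⟩ := A1_lap
  obtain ⟨C2, hC21, hC2⟩ := nn_le
  refine ⟨C1 + 4 * C2, by linarith, fun L a f hL hf => ?_⟩
  have hL0 : 0 < L := by linarith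
  obtain ⟨i1, -, -, -, cf, -, -, -, -⟩ := ri_int hf
  have hf2 : Continuous (fun x => f x ^ 2) := cf.pow 2
  have hphc : Continuous (fun x : E3 => ph L a (x 2)) :=
    (ph_smooth L a).continuous.comp (EuclideanSpace.proj (𝕜 := ℝ) (2 : Fin 3) : E3 →L[ℝ] ℝ).continuous
  have k1 : Integrable (fun x => f x ^ 2 * ph L a (x 2)) :=
    Ev_bd i1 hf2 hphc (C := 1) fun x => by
      rw [abs_of_pos (ph_pos L a _)]
      exact ph_le L a _
  have k2 : Integrable (fun x => f x ^ 2 * A1 L a x) := Ev_bd i1 hf2 (Ev_A1c hL a) (Ev_A1b L a)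
  have k3 : Integrable (Ou.indicator (fun x => f x ^ 2 * ph L a (x 2))) := k1.indicator meas_Ou
  have hGn : Gn L a f = ∫ x, Ou.indicator (fun x => f x ^ 2 * ph L a (x 2)) x := by
    unfold Gn
    rw [integral_indicator meas_Ou]
    congr 1
    funext x
    ring
  have hNn : Nn L a f = ∫ x, f x ^ 2 * A1 L a x := by
    unfold Nn
    congr 1
    funext x
    ring
  have hGn0 : 0 ≤ Gn L a f := by
    rw [hGn]
    apply integral_nonneg
    intro x
    apply indicator_nonneg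
    intro y _
    exact mul_nonneg (sq_nonneg _) (ph_pos L a _).le
  have hle : ∀ x, f x ^ 2 * (lap (A1 L a) x - 2 / rsq x * rdr (A1 L a) x) ≤
      C1 * Ou.indicator (fun x => f x ^ 2 * ph L a (x 2)) x + 8 / L ^ 2 * (f x ^ 2 * A1 L a x) := by
    intro x
    have h1 := (le_abs_self _).trans (hC1 L a hL x)
    have h2 := mul_le_mul_of_nonneg_left h1 (sq_nonneg (f x))
    refine h2.trans (le_of_eq ?_)
    by_cases hx : x ∈ Ou
    · rw [indicator_of_mem hx, indicator_of_mem hx]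
      ring
    · rw [indicator_of_notMem hx, indicator_of_notMem hx]
      ring
  have hint : ∫ x, f x ^ 2 * (lap (A1 L a) x - 2 / rsq x * rdr (A1 L a) x) ≤ C1 * Gn L a f + 8 / L ^ 2 * Nn L a f := by
    rw [hGn, hNn, ← integral_const_mul, ← integral_const_mul, ← integral_add (k3.const_mul _) (k2.const_mul _)]
    by_cases hi : Integrable (fun x => f x ^ 2 * (lap (A1 L a) x - 2 / rsq x * rdr (A1 L a) x))
    · exact integral_mono hi ((k3.const_mul _).add (k2.const_mul _)) hle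
    · rw [integral_undef hi]
      apply integral_nonneg
      intro x
      have p1 : 0 ≤ Ou.indicator (fun x => f x ^ 2 * ph L a (x 2)) x :=
        indicator_nonneg (fun y _ => mul_nonneg (sq_nonneg _) (ph_pos L a _).le) x
      have p2 : 0 ≤ f x ^ 2 * A1 L a x := mul_nonneg (sq_nonneg _) (A1_nn L a x).1
      show 0 ≤ C1 * Ou.indicator (fun x => f x ^ 2 * ph L a (x 2)) x + 8 / L ^ 2 * (f x ^ 2 * A1 L a x)
      have p3 : 0 ≤ C1 := by linarith
      positivity
  have hn := hC2 L a f hL hf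
  have h8 : 0 ≤ 4 / L ^ 2 := by positivity
  have h9 : 4 / L ^ 2 ≤ 4 := by
    rw [div_le_iff₀ (by positivity)]
    nlinarith
  have h10 := mul_le_mul_of_nonneg_left hn h8
  have h11 : 4 / L ^ 2 * (C2 * Gn L a f) ≤ 4 * (C2 * Gn L a f) :=
    mul_le_mul_of_nonneg_right h9 (mul_nonneg (by linarith) hGn0)
  have h12 : 0 ≤ C1 * Gn L a f := mul_nonneg (by linarith) hGn0
  unfold lpx
  have e8 : 8 / L ^ 2 * Nn L a f = 2 * (4 / L ^ 2 * Nn L a f) := by ring
  nlinarith

end Pool.Agent.H90.EP
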