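import Pool.Agent.H90.EP.Df

/-
ROW On_Wt. The weight `A1 L a x = c1 x ^ 4 * ph L a (x 2)`, explicit derivatives.
-/

set_option autoImplicit false

open Set Filter Topology MeasureTheory
open scoped ContDiff

namespace Pool.Agent.H90.EP

open Pool.Agent.H16 Pool.Agent.H72.CC Pool.Agent.H94.EP Pool.Agent.H87.EP
open Pool.Agent.H87.NS hiding c1
open Pool.Agent.H16.TU hiding Sl

private theorem Wt_d0 {t : ℝ} (h : 1 < t) : deriv Real.smoothTransition t = 0 := by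
  have e1 : Real.smoothTransition =ᶠ[𝓝 t] fun _ => 1 := by
    filter_upwards [lt_mem_nhds h] with z hz
    exact Real.smoothTransition.one_of_one_le (le_of_lt hz)
  rw [e1.deriv_eq]
  simp

private theorem Wt_dcont : Continuous (deriv Real.smoothTransition) :=
  (Real.smoothTransition.contDiff (n := 1)).continuous_deriv le_rfl

theorem dc_f : Continuous dc ∧ (∀ x, 0 ≤ dc x) ∧ (∃ C : ℝ, ∀ x, dc x ≤ C) ∧ (∀ x, rsq x < 1 / 4 → dc x = 0) ∧
    (∀ x, 1 / 2 ≤ rsq x → dc x = 0) := by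
  obtain ⟨C, -, hC, -, hC0⟩ := Cut_bd
  refine ⟨?_, fun x => ?_, ⟨8 * C, fun x => ?_⟩, fun x hx => ?_, fun x hx => ?_⟩
  · unfold dc
    exact continuous_const.mul (Wt_dcont.comp (continuous_const.sub (continuous_const.mul D_rsq)))
  · unfold dc
    have h : 0 ≤ deriv Real.smoothTransition (2 - 4 * rsq x) := Real.smoothTransition.monotone.deriv_nonneg
    linarith
  · unfold dc
    have h := (le_abs_self _).trans (hC (2 - 4 * rsq x))
    linarith
  · unfold dc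
    rw [Wt_d0 (by linarith)]
    ring
  · unfold dc
    rw [(hC0 _ (by linarith)).1]
    ring

theorem A1_dh' {L : ℝ} (hL : 1 ≤ L) (a : ℝ) (x : E3) : dh (A1 L a) x = - (4 * c1 x ^ 3 * dc x * ph L a (x 2)) := by
  have h : dh (A1 L a) x = 2 * deriv (fun s : ℝ => Real.smoothTransition (2 - 4 * s) ^ 4) (rsq x) * ph L a (x 2) :=
    F_dh hL a C_F1_smooth C_F1_zero x
  rw [h, C_F1_deriv]
  unfold c1 dc
  ring

theorem A1_pd2' {L : ℝ} (hL : 1 ≤ L) (a : ℝ) (x : E3) : pd 2 (A1 L a) x = c1 x ^ 4 * deriv (ph L a) (x 2) :=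
  F_pd2 C_F1_smooth L a x

/-- The profile of `dh (A1 L a)`. -/
private noncomputable def Wt_q (t : ℝ) : ℝ :=
  -32 * Real.smoothTransition (2 - 4 * t) ^ 3 * deriv Real.smoothTransition (2 - 4 * t)

private theorem Wt_q_smooth : ContDiff ℝ ∞ Wt_q := by
  have hs : ContDiff ℝ ∞ Real.smoothTransition := Real.smoothTransition.contDiff
  have hs1 : ContDiff ℝ ∞ (deriv Real.smoothTransition) := (contDiff_infty_iff_deriv.1 hs).2
  have hl : ContDiff ℝ ∞ (fun t : ℝ => 2 - 4 * t) := contDiff_const.sub (contDiff_const.mul contDiff_id)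
  exact (contDiff_const.mul ((hs.comp hl).pow 3)).mul (hs1.comp hl)

private theorem Wt_q_zero (t : ℝ) (h : 1 / 2 ≤ t) : Wt_q t = 0 := by
  unfold Wt_q
  rw [Real.smoothTransition.zero_of_nonpos (by linarith)]
  ring

private theorem Wt_q_in (t : ℝ) (h : t < 1 / 4) : Wt_q t = 0 := by
  unfold Wt_q
  rw [Wt_d0 (by linarith)]
  ring

private theorem Wt_dh_fun {L : ℝ} (hL : 1 ≤ L) (a : ℝ) : dh (A1 L a) = fun x => Wt_q (rsq x) * ph L a (x 2) := by
  funext x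
  rw [A1_dh' hL]
  unfold Wt_q c1 dc
  ring

private theorem Wt_dq_cont : Continuous (deriv Wt_q) := (contDiff_infty_iff_deriv.1 Wt_q_smooth).2.continuous

private theorem Wt_dq_in (t : ℝ) (h : t < 1 / 4) : deriv Wt_q t = 0 := by
  have e1 : Wt_q =ᶠ[𝓝 t] fun _ => 0 := by
    filter_upwards [gt_mem_nhds h] with z hz
    exact Wt_q_in z hz
  rw [e1.deriv_eq]
  simp

private theorem Wt_dq_out (t : ℝ) (h : 1 / 2 ≤ t) : deriv Wt_q t = 0 := by
  have h1 : ∀ t : ℝ, 1 / 2 < t → deriv Wt_q t = 0 := by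
    intro t ht
    have e1 : Wt_q =ᶠ[𝓝 t] fun _ => 0 := by
      filter_upwards [lt_mem_nhds ht] with z hz
      exact Wt_q_zero z hz.le
    rw [e1.deriv_eq]
    simp
  have h2 : IsClosed {t : ℝ | deriv Wt_q t = 0} := isClosed_eq Wt_dq_cont continuous_const
  have h3 : closure (Ioi (1 / 2 : ℝ)) ⊆ {t : ℝ | deriv Wt_q t = 0} := h2.closure_subset_iff.2 fun t ht => h1 t ht
  rw [closure_Ioi] at h3
  exact h3 h

private theorem Wt_rdr {L : ℝ} (hL : 1 ≤ L) (a : ℝ) (x : E3) :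
    rdr (dh (A1 L a)) x = 2 * rsq x * deriv Wt_q (rsq x) * ph L a (x 2) := by
  rw [Wt_dh_fun hL]
  unfold rdr
  rw [F_pdh Wt_q_smooth L a 0 (Or.inl rfl), F_pdh Wt_q_smooth L a 1 (Or.inr rfl)]
  unfold rsq
  ring

private theorem Wt_main {L : ℝ} (hL : 1 ≤ L) (a : ℝ) (x : E3) :
    lap (A1 L a) x - 2 / rsq x * rdr (A1 L a) x = rdr (dh (A1 L a)) x + pd 2 (pd 2 (A1 L a)) x := by
  rw [lap_eq (A1_ri hL a), rdr_eq (A1_ri hL a)]
  by_cases hx : rsq x = 0
  · have h1 : dh (A1 L a) x = 0 := by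
      rw [A1_dh' hL, dc_f.2.2.2.1 x (by rw [hx]; norm_num)]
      ring
    rw [h1, hx]
    ring
  · field_simp
    ring

private theorem Wt_ph2 {L : ℝ} (hL : 1 ≤ L) (a s : ℝ) : |deriv (deriv (ph L a)) s| ≤ 8 / L ^ 2 * ph L a s := by
  have hL0 : 0 < L := by linarith
  have h0 : deriv (ph L a) = fun s => -(2 * (s - a) / L ^ 2) * ph L a s ^ 2 := funext fun s => (C_hasDeriv L a s).deriv
  have h1 : HasDerivAt (fun s => -(2 * (s - a) / L ^ 2) * ph L a s ^ 2)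
      (-(2 * 1 / L ^ 2) * ph L a s ^ 2 +
        -(2 * (s - a) / L ^ 2) * (((2 : ℕ) : ℝ) * ph L a s ^ (2 - 1) * (-(2 * (s - a) / L ^ 2) * ph L a s ^ 2))) s := by
    have e1 : HasDerivAt (fun s : ℝ => -(2 * (s - a) / L ^ 2)) (-(2 * 1 / L ^ 2)) s :=
      ((((hasDerivAt_id s).sub_const a).const_mul 2).div_const (L ^ 2)).neg
    have e2 : HasDerivAt (fun s : ℝ => ph L a s ^ 2) _ s := (C_hasDeriv L a s).pow 2
    exact e1.mul e2
  rw [h0, h1.deriv]
  have hp := ph_pos L a s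
  have hq : ph L a s * (1 + (s - a) ^ 2 / L ^ 2) = 1 := by
    unfold ph
    exact inv_mul_cancel₀ (C_base L a s).ne'
  obtain ⟨p, hpp⟩ : ∃ p, p = ph L a s := ⟨_, rfl⟩
  obtain ⟨t, ht⟩ : ∃ t, t = (s - a) / L := ⟨_, rfl⟩
  rw [← hpp] at hp hq ⊢
  have hts : s - a = t * L := by
    rw [ht]
    field_simp
  rw [hts] at hq ⊢
  have e0 : (t * L) ^ 2 / L ^ 2 = t ^ 2 := by
    field_simp
  have hq' : p * (1 + t ^ 2) = 1 := by
    rw [e0] at hq
    exact hq
  have e : -(2 * 1 / L ^ 2) * p ^ 2 + -(2 * (t * L) / L ^ 2) * (((2 : ℕ) : ℝ) * p ^ (2 - 1) * (-(2 * (t * L) / L ^ 2) * p ^ 2)) =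
      (8 * t ^ 2 * p ^ 2 - 2 * p) / L ^ 2 * p := by
    field_simp
    ring
  rw [e, abs_mul, abs_of_pos hp, abs_div, abs_of_pos (by positivity : 0 < L ^ 2)]
  apply mul_le_mul_of_nonneg_right _ hp.le
  apply div_le_div_of_nonneg_right _ (by positivity)
  have hp1 : p ≤ 1 := by nlinarith [mul_nonneg hp.le (sq_nonneg t)]
  have ht2 : t ^ 2 * p ≤ 1 := by nlinarith
  have ht3 : 0 ≤ t ^ 2 * p := mul_nonneg (sq_nonneg t) hp.le
  have ht4 : t ^ 2 * p ^ 2 ≤ 1 := by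
    have : t ^ 2 * p ^ 2 = (t ^ 2 * p) * p := by ring
    rw [this]
    nlinarith
  have ht5 : 0 ≤ t ^ 2 * p ^ 2 := by positivity
  rw [abs_le]
  constructor <;> nlinarith

private theorem Wt_pd22 {L : ℝ} (hL : 1 ≤ L) (a : ℝ) (x : E3) :
    pd 2 (pd 2 (A1 L a)) x = c1 x ^ 4 * deriv (deriv (ph L a)) (x 2) := by
  have h0 : pd 2 (A1 L a) = fun x => (fun s => Real.smoothTransition (2 - 4 * s) ^ 4) (rsq x) * deriv (ph L a) (x 2) :=
    funext fun x => A1_pd2' hL a x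
  rw [h0]
  have hph1 : ContDiff ℝ ∞ (deriv (ph L a)) := (contDiff_infty_iff_deriv.1 (ph_smooth L a)).2
  have hsm : ContDiff ℝ ∞ (fun x : E3 => (fun s => Real.smoothTransition (2 - 4 * s) ^ 4) (rsq x) * deriv (ph L a) (x 2)) :=
    (C_F1_smooth.comp C_rsq_smooth).mul (hph1.comp (Cut_coord 2))
  apply C_pd hsm 2 x
  have e1 : (fun s : ℝ => (fun s => Real.smoothTransition (2 - 4 * s) ^ 4) (rsq (x + s • e 2)) *
      deriv (ph L a) ((x + s • e 2) 2)) = fun s : ℝ =>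
      (fun s => Real.smoothTransition (2 - 4 * s) ^ 4) (rsq x) * deriv (ph L a) (x 2 + s) := by
    funext s
    have a0 : rsq (x + s • e 2) = rsq x := by
      unfold rsq
      simp [e]
    have a1 : (x + s • e 2) 2 = x 2 + s := by simp [e]
    rw [a0, a1]
  rw [e1]
  apply HasDerivAt.const_mul
  have h2 : HasDerivAt (deriv (ph L a)) (deriv (deriv (ph L a)) (x 2)) (x 2 + 0) := by
    rw [add_zero]
    exact (hph1.differentiable (by simp) _).hasDerivAt
  exact h2.comp_const_add (x 2) 0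

theorem A1_lap : ∃ C : ℝ, 1 ≤ C ∧ ∀ (L a : ℝ), 1 ≤ L → ∀ x,
    |lap (A1 L a) x - 2 / rsq x * rdr (A1 L a) x| ≤ Ou.indicator (fun x => C * ph L a (x 2)) x + 8 / L ^ 2 * A1 L a x := by
  obtain ⟨C, hC⟩ := (isCompact_Icc (a := (0 : ℝ)) (b := 1)).exists_bound_of_continuousOn Wt_dq_cont.continuousOn
  refine ⟨1 + |C|, by linarith [abs_nonneg C], fun L a hL x => ?_⟩
  have hL0 : 0 < L := by linarith
  rw [Wt_main hL]
  refine (abs_add_le _ _).trans (add_le_add ?_ ?_)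
  · rw [Wt_rdr hL]
    have hp := ph_pos L a (x 2)
    by_cases hx : x ∈ Ou
    · rw [indicator_of_mem hx, abs_mul, abs_of_pos hp]
      apply mul_le_mul_of_nonneg_right _ hp.le
      have h1 : 1 / 4 ≤ rsq x := hx.1
      have h2 : rsq x < 1 / 2 := hx.2
      have h3 := hC (rsq x) ⟨by linarith, by linarith⟩
      rw [Real.norm_eq_abs] at h3
      rw [abs_mul, abs_of_nonneg (by linarith : 0 ≤ 2 * rsq x)]
      have h4 := abs_nonneg (deriv Wt_q (rsq x))
      have h5 := le_abs_self C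
      nlinarith
    · rw [indicator_of_notMem hx]
      have h0 : deriv Wt_q (rsq x) = 0 := by
        by_cases h1 : rsq x < 1 / 4
        · exact Wt_dq_in _ h1
        · apply Wt_dq_out
          by_contra h2
          exact hx ⟨not_lt.1 h1, not_le.1 h2⟩
      rw [h0]
      simp
  · rw [Wt_pd22 hL, abs_mul, abs_of_nonneg (pow_nonneg (c1_facts x).1 4)]
    have h1 := mul_le_mul_of_nonneg_left (Wt_ph2 hL a (x 2)) (pow_nonneg (c1_facts x).1 4)
    unfold A1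
    calc c1 x ^ 4 * |deriv (deriv (ph L a)) (x 2)| ≤ c1 x ^ 4 * (8 / L ^ 2 * ph L a (x 2)) := h1
      _ = 8 / L ^ 2 * (c1 x ^ 4 * ph L a (x 2)) := by ring

theorem A1_lap_cont {L : ℝ} (hL : 1 ≤ L) (a : ℝ) : Continuous (fun x => lap (A1 L a) x - 2 / rsq x * rdr (A1 L a) x) := by
  have e1 : (fun x => lap (A1 L a) x - 2 / rsq x * rdr (A1 L a) x) =
      fun x => 2 * rsq x * deriv Wt_q (rsq x) * ph L a (x 2) + pd 2 (pd 2 (A1 L a)) x := by
    funext x
    rw [Wt_main hL, Wt_rdr hL]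
  rw [e1]
  exact (((continuous_const.mul D_rsq).mul (Wt_dq_cont.comp D_rsq)).mul (C_H_smooth L a).continuous).add
    (A1_ri hL a).pd2.pd2.sm.continuous

theorem A1_adv {L : ℝ} (hL : 1 ≤ L) (a : ℝ) {v : E3 → E3} (h : Vs v) (x : E3) :
    adv (v x) (A1 L a) x = rsq x * sW v x * dh (A1 L a) x + v x 2 * pd 2 (A1 L a) x := by
  have h0 : pd 0 (A1 L a) x = 2 * deriv (fun s : ℝ => Real.smoothTransition (2 - 4 * s) ^ 4) (rsq x) * ph L a (x 2) * x 0 :=
    F_pdh C_F1_smooth L a 0 (Or.inl rfl) x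
  have h1 : pd 1 (A1 L a) x = 2 * deriv (fun s : ℝ => Real.smoothTransition (2 - 4 * s) ^ 4) (rsq x) * ph L a (x 2) * x 1 :=
    F_pdh C_F1_smooth L a 1 (Or.inr rfl) x
  have h2 : dh (A1 L a) x = 2 * deriv (fun s : ℝ => Real.smoothTransition (2 - 4 * s) ^ 4) (rsq x) * ph L a (x 2) :=
    F_dh hL a C_F1_smooth C_F1_zero x
  have h3 := flux_eq h.ax x
  rw [radFlux] at h3
  unfold adv
  rw [Fin.sum_univ_three, h0, h1, h2, ← h3]
  ring

theorem rad_flux {v : E3 → E3} (h : Vs v) {x : E3} (hx : rsq x ≤ 1) : |rsq x * sW v x| ≤ ‖v x‖ ∧ |v x 2| ≤ ‖v x‖ := by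
  have hn := Cut_nsq (v x)
  constructor
  · rw [← flux_eq h.ax x]
    apply abs_le_of_sq_le_sq _ (norm_nonneg _)
    rw [hn]
    unfold radFlux
    unfold rsq at hx
    nlinarith [sq_nonneg (x 0 * v x 1 - x 1 * v x 0), sq_nonneg (v x 0), sq_nonneg (v x 1), sq_nonneg (v x 2),
      mul_nonneg (add_nonneg (sq_nonneg (v x 0)) (sq_nonneg (v x 1))) (sub_nonneg.2 hx)]
  · exact PiLp.norm_apply_le (v x) 2

theorem meas_Ou : MeasurableSet Ou :=
  (measurableSet_le measurable_const D_rsq.measurable).inter (measurableSet_lt D_rsq.measurable measurable_const)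

private theorem Wt_bd {f : E3 → ℝ} (h : Ri f) : Integrable (fun x => f x ^ 2) ∧ ∃ B : ℝ, ∀ x, |f x| ≤ B := by
  obtain ⟨B, hB⟩ := h.db 0
  exact ⟨(DB_BL hB).2.1, B, (DB_BL hB).1⟩

theorem ri_int {f : E3 → ℝ} (h : Ri f) : Integrable (fun x => f x ^ 2) ∧ Integrable (fun x => gsq f x) ∧ Integrable (fun x => pd 2 f x ^ 2) ∧
    Integrable (fun x => dh f x ^ 2) ∧ Continuous f ∧ Continuous (gsq f) ∧ Continuous (pd 2 f) ∧ Continuous (dh f) ∧
    ∃ B : ℝ, 0 < B ∧ ∀ x, |f x| ≤ B ∧ |pd 2 f x| ≤ B ∧ |dh f x| ≤ B := by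
  obtain ⟨i1, B1, b1⟩ := Wt_bd h
  obtain ⟨i2, B2, b2⟩ := Wt_bd h.pd2
  obtain ⟨i3, B3, b3⟩ := Wt_bd h.dh
  have hg : Integrable (fun x => gsq f x) := by
    obtain ⟨B, hB⟩ := h.db 1
    unfold gsq
    exact integrable_finsetSum _ fun i _ => (hB.2 i).2.1
  have hc : Continuous (gsq f) := by
    unfold gsq
    refine continuous_finsetSum _ fun i _ => ?_
    have h1 : Continuous (fun x => fderiv ℝ f x (e i)) :=
      (h.sm.continuous_fderiv (by simp)).clm_apply continuous_const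
    exact h1.pow 2
  refine ⟨i1, hg, i2, i3, h.sm.continuous, hc, h.pd2.sm.continuous, h.dh.sm.continuous,
    1 + |B1| + |B2| + |B3|, by positivity, fun x => ⟨?_, ?_, ?_⟩⟩
  · linarith [b1 x, le_abs_self B1, abs_nonneg B2, abs_nonneg B3]
  · linarith [b2 x, le_abs_self B2, abs_nonneg B1, abs_nonneg B3]
  · linarith [b3 x, le_abs_self B3, abs_nonneg B2, abs_nonneg B1]

private theorem Wt_phsq {L : ℝ} (a : ℝ) {f : E3 → ℝ} (h : Ri f) : Integrable (fun x => ph L a (x 2) * f x ^ 2) :=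
  D_bdd (c := 1) (C_H_smooth L a).continuous
    (fun x => by rw [abs_of_pos (ph_pos L a (x 2))]; exact ph_le L a (x 2)) (h.sm.continuous.pow 2) (Wt_bd h).1

theorem gn_le {L : ℝ} (hL : 1 ≤ L) (a c : ℝ) {v : E3 → E3} (h : Vs v) {f : E3 → ℝ} (hf : Ri f) (hc : 0 ≤ c)
    (hb : ∀ x ∈ Ou, f x ^ 2 ≤ c * gv v x) : Gn L a f ≤ c * GG L a v := by
  have hi : Integrable (fun x => c * (ph L a (x 2) * gv v x)) := (gv_int h hL a).const_mul c
  have h1 : Gn L a f ≤ ∫ x in Ou, c * (ph L a (x 2) * gv v x) := by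
    unfold Gn
    refine setIntegral_mono_on (Wt_phsq a hf).integrableOn hi.integrableOn meas_Ou fun x hx => ?_
    have h2 := mul_le_mul_of_nonneg_left (hb x hx) (ph_pos L a (x 2)).le
    calc ph L a (x 2) * f x ^ 2 ≤ ph L a (x 2) * (c * gv v x) := h2
      _ = c * (ph L a (x 2) * gv v x) := by ring
  refine h1.trans ?_
  unfold GG
  rw [← integral_const_mul]
  refine setIntegral_mono_set hi.integrableOn (Filter.Eventually.of_forall fun x => ?_)
    (Filter.Eventually.of_forall fun x hx => hx.2)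
  exact mul_nonneg hc (mul_nonneg (ph_pos L a (x 2)).le (gv_nn v x))

theorem gn_Z {L : ℝ} (hL : 1 ≤ L) (a : ℝ) {v : E3 → E3} (h : Vs v) : Gn L a (Zz v) ≤ 4 * GG L a v :=
  gn_le hL a 4 h (vs_ri h).2.2.2.1 (by norm_num) fun x hx => by
    have h1 := gv_Z h x
    have h2 : 1 / 4 ≤ rsq x := hx.1
    nlinarith [sq_nonneg (Zz v x)]

theorem gn_O {L : ℝ} (hL : 1 ≤ L) (a : ℝ) {v : E3 → E3} (h : Vs v) : Gn L a (sO v) ≤ 16 * GG L a v :=
  gn_le hL a 16 h (vs_ri h).2.2.1 (by norm_num) fun x hx => by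
    have h1 := gv_O h x
    have h2 : 1 / 4 ≤ rsq x := hx.1
    nlinarith [sq_nonneg (sO v x)]

theorem gn_W {L : ℝ} (hL : 1 ≤ L) (a : ℝ) {v : E3 → E3} (h : Vs v) : Gn L a (pd 2 (sW v)) ≤ 4 * GG L a v :=
  gn_le hL a 4 h (vs_ri h).2.1.pd2 (by norm_num) fun x hx => by
    have h1 := gv_W2 h x
    have h2 : 1 / 4 ≤ rsq x := hx.1
    nlinarith [sq_nonneg (pd 2 (sW v) x)]

/-- Hardy. -/
theorem nn_le : ∃ C : ℝ, 1 ≤ C ∧ ∀ (L a : ℝ) (f : E3 → ℝ), 1 ≤ L → Ri f → Nn L a f ≤ Dn L a f + C * Gn L a f := by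
  obtain ⟨-, hd0, ⟨C, hC⟩, hdi, hdo⟩ := dc_f
  refine ⟨1 + 4 * |C|, by linarith [abs_nonneg C], fun L a f hL hf => ?_⟩
  obtain ⟨-, hgi, -, -, -, hgc, -⟩ := ri_int hf
  have h1 := hardy_A hL a hf
  have h2 : ∫ x, A1 L a x * (rsq x * dh f x ^ 2) ≤ Dn L a f := by
    unfold Dn
    refine integral_mono (D_I3 hL a hf) (D_bdd (A1_ri hL a).sm.continuous (fun x => D_Ale a x) hgc hgi) fun x => ?_
    refine mul_le_mul_of_nonneg_left ?_ (A1_nn L a x).1
    rw [gsq_eq hf]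
    linarith [sq_nonneg (pd 2 f x)]
  have h3 : ∫ x, |dh (A1 L a) x| * f x ^ 2 ≤ (1 + 4 * |C|) * Gn L a f := by
    unfold Gn
    rw [← integral_const_mul, ← integral_indicator meas_Ou]
    refine integral_mono (D_I2 hL a hf) (((Wt_phsq a hf).const_mul _).indicator meas_Ou) fun x => ?_
    have hp := ph_pos L a (x 2)
    obtain ⟨hc0, hc1, -, -⟩ := c1_facts x
    simp only
    rw [A1_dh' hL, abs_neg]
    by_cases hx : x ∈ Ou
    · rw [indicator_of_mem hx, abs_of_nonneg (mul_nonneg (mul_nonneg (by positivity) (hd0 x)) hp.le)]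
      rw [← mul_assoc]
      apply mul_le_mul_of_nonneg_right _ (sq_nonneg _)
      apply mul_le_mul_of_nonneg_right _ hp.le
      have h4 : c1 x ^ 3 ≤ 1 := pow_le_one₀ hc0 hc1
      have h5 := hC x
      have h6 := hd0 x
      have h7 := le_abs_self C
      have h8 : c1 x ^ 3 * dc x ≤ 1 * dc x := mul_le_mul_of_nonneg_right h4 h6
      nlinarith
    · rw [indicator_of_notMem hx]
      have h0 : dc x = 0 := by
        by_cases h1 : rsq x < 1 / 4
        · exact hdi _ h1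
        · apply hdo
          by_contra h2
          exact hx ⟨not_lt.1 h1, not_le.1 h2⟩
      rw [h0]
      simp
  unfold Nn
  linarith

end Pool.Agent.H90.EP
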