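import Pool.Agent.H90.EP.Fa
import Pool.Agent.H90.EP.Wt

/-! The flux term. -/

set_option autoImplicit false

open Set Filter Topology MeasureTheory
open scoped ContDiff

namespace Pool.Agent.H90.EP

open Pool.Agent.H16 Pool.Agent.H72.CC Pool.Agent.H94.EP Pool.Agent.H87.EP
open Pool.Agent.H87.NS hiding c1
open Pool.Agent.H16.TU hiding Sl

theorem Fx_FH {F H : ℝ → ℝ} (hF : ContDiff ℝ ∞ F) (hH : ContDiff ℝ ∞ H) :
    ContDiff ℝ ∞ (fun x : E3 => F (rsq x) * H (x 2)) :=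
  (C_F_smooth hF).mul (hH.comp (D_coord 2))

theorem Fx_pd2 {F H : ℝ → ℝ} (hF : ContDiff ℝ ∞ F) (hH : ContDiff ℝ ∞ H) (x : E3) :
    pd 2 (fun x => F (rsq x) * H (x 2)) x = F (rsq x) * deriv H (x 2) := by
  apply C_pd (Fx_FH hF hH) 2 x
  have e1 : (fun s : ℝ => F (rsq (x + s • e 2)) * H ((x + s • e 2) 2)) = fun s : ℝ =>
      F (rsq x) * H (x 2 + s) := by
    funext s
    have a0 : rsq (x + s • e 2) = rsq x := by
      unfold rsq
      simp [e]
    have a2 : (x + s • e 2) 2 = x 2 + s := by simp [e]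
    rw [a0, a2]
  rw [e1]
  apply HasDerivAt.const_mul
  have h2 : HasDerivAt H (deriv H (x 2)) (x 2 + 0) := by
    rw [add_zero]
    exact (hH.differentiable (by simp) _).hasDerivAt
  exact h2.comp_const_add (x 2) 0

theorem Fx_pdh {F H : ℝ → ℝ} (hF : ContDiff ℝ ∞ F) (hH : ContDiff ℝ ∞ H) (i : Fin 3) (hi : i = 0 ∨ i = 1)
    (x : E3) : pd i (fun x => F (rsq x) * H (x 2)) x = 2 * deriv F (rsq x) * H (x 2) * x i := by
  apply C_pd (Fx_FH hF hH) i x
  have e1 : (fun s : ℝ => F (rsq (x + s • e i)) * H ((x + s • e i) 2)) = fun s : ℝ =>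
      F (rsq (x + s • e i)) * H (x 2) := by
    funext s
    rw [C_z x i hi s]
  rw [e1]
  have h1 := hasDerivAt_rsq_line x i 0
  have hs : HasDerivAt F (deriv F (rsq (x + (0 : ℝ) • e i))) (rsq (x + (0 : ℝ) • e i)) :=
    (hF.differentiable (by simp) _).hasDerivAt
  have h3 : HasDerivAt (F ∘ fun s : ℝ => rsq (x + s • e i)) _ 0 := HasDerivAt.comp 0 hs h1
  have h4 : HasDerivAt (fun s : ℝ => F (rsq (x + s • e i)) * H (x 2)) _ 0 := h3.mul_const (H (x 2))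
  refine h4.congr_deriv ?_
  simp only [zero_smul, add_zero]
  rcases hi with rfl | rfl
  · have a0 : e 0 0 = 1 := by simp [e]
    have a1 : e 0 1 = 0 := by simp [e]
    rw [a0, a1]
    ring
  · have a0 : e 1 0 = 0 := by simp [e]
    have a1 : e 1 1 = 1 := by simp [e]
    rw [a0, a1]
    ring

/-- the horizontal factor -/
noncomputable def Fx_F (s : ℝ) : ℝ := Real.smoothTransition (2 - 4 * s) ^ 2

/-- the vertical factor -/
noncomputable def Fx_H (L a s : ℝ) : ℝ := √(ph L a s)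

/-- the weight -/
noncomputable def Fx_m (L a : ℝ) (x : E3) : ℝ := c1 x ^ 2 * √(ph L a (x 2))

theorem Fx_m_eq (L a : ℝ) : Fx_m L a = fun x => Fx_F (rsq x) * Fx_H L a (x 2) := rfl

theorem Fx_F_smooth : ContDiff ℝ ∞ Fx_F :=
  (Real.smoothTransition.contDiff.comp (contDiff_const.sub (contDiff_const.mul contDiff_id))).pow 2

theorem Fx_H_smooth (L a : ℝ) : ContDiff ℝ ∞ (Fx_H L a) :=
  (ph_smooth L a).sqrt fun s => (ph_pos L a s).ne'

theorem Fx_m_smooth (L a : ℝ) : ContDiff ℝ ∞ (Fx_m L a) := by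
  rw [Fx_m_eq]
  exact Fx_FH Fx_F_smooth (Fx_H_smooth L a)

theorem Fx_F_deriv (s : ℝ) : deriv Fx_F s =
    -8 * Real.smoothTransition (2 - 4 * s) * deriv Real.smoothTransition (2 - 4 * s) := by
  have h2 : HasDerivAt (fun s : ℝ => 2 - 4 * s) (-(4 * 1)) s := ((hasDerivAt_id s).const_mul 4).const_sub 2
  have hs : HasDerivAt Real.smoothTransition (deriv Real.smoothTransition (2 - 4 * s)) (2 - 4 * s) :=
    ((Real.smoothTransition.contDiff (n := 1)).differentiable one_ne_zero _).hasDerivAt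
  have h3 : HasDerivAt (Real.smoothTransition ∘ fun s : ℝ => 2 - 4 * s) _ s := HasDerivAt.comp s hs h2
  have h4 : HasDerivAt Fx_F _ s := h3.pow 2
  rw [h4.deriv]
  simp only [Function.comp_apply]
  push_cast
  ring

theorem Fx_H_deriv {L : ℝ} (hL : 1 ≤ L) (a s : ℝ) : deriv (Fx_H L a) s ^ 2 ≤ ph L a s / 4 := by
  have hL0 : 0 < L := by linarith
  have hp := ph_pos L a s
  have h1 : HasDerivAt (ph L a) (deriv (ph L a) s) s := ((ph_smooth L a).differentiable (by simp) _).hasDerivAt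
  have h2 : HasDerivAt (Fx_H L a) (deriv (ph L a) s / (2 * √(ph L a s))) s := h1.sqrt hp.ne'
  rw [h2.deriv, div_pow, mul_pow, Real.sq_sqrt hp.le]
  have h3 := ph_deriv hL0 a s
  have h4 : |deriv (ph L a) s| ≤ ph L a s := h3.trans (div_le_self hp.le hL)
  have h5 : deriv (ph L a) s ^ 2 ≤ ph L a s ^ 2 := by
    rw [← sq_abs]
    exact pow_le_pow_left₀ (abs_nonneg _) h4 2
  rw [div_le_div_iff₀ (by positivity) (by norm_num)]
  nlinarith

theorem Fx_m_sq (L a : ℝ) (x : E3) : Fx_m L a x ^ 2 = A1 L a x := by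
  unfold Fx_m A1
  rw [mul_pow, Real.sq_sqrt (ph_pos L a (x 2)).le]
  ring

theorem Fx_rsq_nn (x : E3) : 0 ≤ rsq x := by unfold rsq; positivity

theorem Fx_gm {C : ℝ} (hC : ∀ x, dc x ≤ C) {L : ℝ} (hL : 1 ≤ L) (a : ℝ) (x : E3) :
    gsq (Fx_m L a) x ≤ A1 L a x / 4 + Ou.indicator (fun x => 2 * C ^ 2 * ph L a (x 2)) x := by
  obtain ⟨-, hd0, -, hd1, hd2⟩ := dc_f
  obtain ⟨hc0, hc1, -, -⟩ := c1_facts x
  have hp := ph_pos L a (x 2)
  have hr := Fx_rsq_nn x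
  have e0 : pd 0 (Fx_m L a) x = -2 * c1 x * dc x * √(ph L a (x 2)) * x 0 := by
    rw [Fx_m_eq, Fx_pdh Fx_F_smooth (Fx_H_smooth L a) 0 (Or.inl rfl), Fx_F_deriv]
    unfold c1 dc Fx_H
    ring
  have e1 : pd 1 (Fx_m L a) x = -2 * c1 x * dc x * √(ph L a (x 2)) * x 1 := by
    rw [Fx_m_eq, Fx_pdh Fx_F_smooth (Fx_H_smooth L a) 1 (Or.inr rfl), Fx_F_deriv]
    unfold c1 dc Fx_H
    ring
  have e2 : pd 2 (Fx_m L a) x = c1 x ^ 2 * deriv (Fx_H L a) (x 2) := by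
    rw [Fx_m_eq, Fx_pd2 Fx_F_smooth (Fx_H_smooth L a)]
    rfl
  have hsq : √(ph L a (x 2)) ^ 2 = ph L a (x 2) := Real.sq_sqrt hp.le
  have h1 : pd 0 (Fx_m L a) x ^ 2 + pd 1 (Fx_m L a) x ^ 2 = 4 * c1 x ^ 2 * dc x ^ 2 * ph L a (x 2) * rsq x := by
    have q : (-2 * c1 x * dc x * √(ph L a (x 2)) * x 0) ^ 2 + (-2 * c1 x * dc x * √(ph L a (x 2)) * x 1) ^ 2 =
        4 * c1 x ^ 2 * dc x ^ 2 * √(ph L a (x 2)) ^ 2 * (x 0 ^ 2 + x 1 ^ 2) := by ring
    rw [e0, e1, q, hsq]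
    rfl
  have h2 : pd 2 (Fx_m L a) x ^ 2 ≤ A1 L a x / 4 := by
    rw [e2, mul_pow]
    have := mul_le_mul_of_nonneg_left (Fx_H_deriv hL a (x 2)) (by positivity : 0 ≤ (c1 x ^ 2) ^ 2)
    unfold A1
    linarith
  have h3 : 4 * c1 x ^ 2 * dc x ^ 2 * ph L a (x 2) * rsq x ≤ Ou.indicator (fun x => 2 * C ^ 2 * ph L a (x 2)) x := by
    by_cases hx : x ∈ Ou
    · rw [Set.indicator_of_mem hx]
      have hx2 : rsq x < 1 / 2 := hx.2
      have q1 : c1 x ^ 2 ≤ 1 := pow_le_one₀ hc0 hc1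
      have q2 : dc x ^ 2 ≤ C ^ 2 := pow_le_pow_left₀ (hd0 x) (hC x) 2
      have q3 : c1 x ^ 2 * dc x ^ 2 ≤ 1 * C ^ 2 := mul_le_mul q1 q2 (sq_nonneg _) zero_le_one
      have q4 : ph L a (x 2) * rsq x ≤ ph L a (x 2) * (1 / 2) := mul_le_mul_of_nonneg_left hx2.le hp.le
      have q5 : c1 x ^ 2 * dc x ^ 2 * (ph L a (x 2) * rsq x) ≤ 1 * C ^ 2 * (ph L a (x 2) * (1 / 2)) :=
        mul_le_mul q3 q4 (by positivity) (by positivity)
      linarith
    · rw [Set.indicator_of_notMem hx]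
      have hdz : dc x = 0 := by
        rcases lt_or_ge (rsq x) (1 / 4) with h | h
        · exact hd1 x h
        · rcases lt_or_ge (rsq x) (1 / 2) with h' | h'
          · exact absurd (⟨h, h'⟩ : x ∈ Ou) hx
          · exact hd2 x h'
      rw [hdz]
      norm_num
  unfold gsq
  rw [Fin.sum_univ_three]
  linarith

theorem Fx_pt {C : ℝ} (hC : ∀ x, dc x ≤ C) {L : ℝ} (hL : 1 ≤ L) (a : ℝ) {f : E3 → ℝ} (hf : Ri f) (x : E3) :
    gsq (fun x => c1 x ^ 2 * √(ph L a (x 2)) * f x) x ≤ 2 * (A1 L a x * gsq f x) + 1 / 2 * (A1 L a x * f x ^ 2) +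
      4 * C ^ 2 * Ou.indicator (fun x => ph L a (x 2) * f x ^ 2) x := by
  have h1 : gsq (fun x => Fx_m L a x * f x) x ≤ 2 * (f x ^ 2 * gsq (Fx_m L a) x) + 2 * (Fx_m L a x ^ 2 * gsq f x) := by
    unfold gsq
    rw [Finset.mul_sum, Finset.mul_sum, Finset.mul_sum, Finset.mul_sum, ← Finset.sum_add_distrib]
    refine Finset.sum_le_sum fun i _ => ?_
    rw [A_pd_mul (Fx_m_smooth L a) hf.sm i]
    nlinarith [sq_nonneg (pd i (Fx_m L a) x * f x - Fx_m L a x * pd i f x)]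
  have h2 := mul_le_mul_of_nonneg_left (Fx_gm hC hL a x) (sq_nonneg (f x))
  rw [Fx_m_sq] at h1
  have h3 : f x ^ 2 * Ou.indicator (fun x => 2 * C ^ 2 * ph L a (x 2)) x =
      2 * C ^ 2 * Ou.indicator (fun x => ph L a (x 2) * f x ^ 2) x := by
    by_cases hx : x ∈ Ou
    · rw [Set.indicator_of_mem hx, Set.indicator_of_mem hx]
      ring
    · rw [Set.indicator_of_notMem hx, Set.indicator_of_notMem hx]
      ring
  have h4 : gsq (fun x => c1 x ^ 2 * √(ph L a (x 2)) * f x) x = gsq (fun x => Fx_m L a x * f x) x := rfl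
  rw [h4]
  rw [mul_add, h3] at h2
  linarith

theorem Fx_ints {L : ℝ} (hL : 1 ≤ L) (a : ℝ) {f : E3 → ℝ} (hf : Ri f) :
    Integrable (fun x => A1 L a x * gsq f x) ∧ Integrable (fun x => A1 L a x * f x ^ 2) ∧
      Integrable (Ou.indicator (fun x => ph L a (x 2) * f x ^ 2)) := by
  obtain ⟨h1, h2, -, -, h5, h6, -⟩ := ri_int hf
  have hA := (A1_ri hL a).sm.continuous
  refine ⟨D_bdd hA (D_Ale a) h6 h2, D_bdd hA (D_Ale a) (h5.pow 2) h1, ?_⟩
  refine Integrable.indicator ?_ meas_Ou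
  refine D_bdd (C_H_smooth L a).continuous (c := 1) (fun x => ?_) (h5.pow 2) h1
  rw [abs_of_pos (ph_pos L a (x 2))]
  exact ph_le L a (x 2)

theorem Fx_Gn (L a : ℝ) (f : E3 → ℝ) : ∫ x, Ou.indicator (fun x => ph L a (x 2) * f x ^ 2) x = Gn L a f :=
  integral_indicator meas_Ou

theorem Fx_Gn_nn (L a : ℝ) (f : E3 → ℝ) : 0 ≤ Gn L a f := by
  unfold Gn
  refine integral_nonneg fun x => ?_
  exact mul_nonneg (ph_pos L a (x 2)).le (sq_nonneg _)

theorem Fx_gsq_nn (f : E3 → ℝ) (x : E3) : 0 ≤ gsq f x := by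
  unfold gsq
  positivity

theorem Fx_Dn_nn (L a : ℝ) (f : E3 → ℝ) : 0 ≤ Dn L a f := by
  unfold Dn
  exact integral_nonneg fun x => mul_nonneg (A1_nn L a x).1 (Fx_gsq_nn f x)

theorem Fx_BL {h : E3 → ℝ} (hc : Continuous h) {M : ℝ} (hM : ∀ x, h x ^ 2 ≤ M) {G : E3 → ℝ} (hG : Integrable G)
    (hle : ∀ x, h x ^ 2 ≤ G x) : ∃ K : ℝ, BL K h := by
  have hi : Integrable (fun x => h x ^ 2) :=
    E_dom (hc.pow 2) hG fun x => by rw [abs_of_nonneg (sq_nonneg _)]; exact hle x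
  refine ⟨max (1 + M) (∫ x, h x ^ 2), fun x => ?_, hi, le_max_right _ _⟩
  refine le_trans ?_ (le_max_left _ _)
  have h1 := hM x
  have h2 : |h x| ≤ 1 + h x ^ 2 := by
    rw [← sq_abs]
    nlinarith [sq_nonneg (|h x| - 1), abs_nonneg (h x)]
  linarith

theorem flux_g : ∃ C : ℝ, 1 ≤ C ∧ ∀ (L a : ℝ) (f : E3 → ℝ), 1 ≤ L → Ri f → ∃ B : ℝ,
    ContDiff ℝ 1 (fun x => c1 x ^ 2 * √(ph L a (x 2)) * f x) ∧ DB 1 B (fun x => c1 x ^ 2 * √(ph L a (x 2)) * f x) ∧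
    ∫ x, (gsq (fun x => c1 x ^ 2 * √(ph L a (x 2)) * f x) x + (c1 x ^ 2 * √(ph L a (x 2)) * f x) ^ 2) ≤ 4 * Dn L a f + C * Gn L a f := by
  obtain ⟨-, -, ⟨Cd, hCd⟩, -, -⟩ := dc_f
  obtain ⟨Cn, hCn1, hCn⟩ := nn_le
  refine ⟨1 + 2 * Cn + 4 * Cd ^ 2, by nlinarith [sq_nonneg Cd], fun L a f hL hf => ?_⟩
  have hgs : ContDiff ℝ ∞ (fun x => c1 x ^ 2 * √(ph L a (x 2)) * f x) := (Fx_m_smooth L a).mul hf.sm
  obtain ⟨i1, i2, i3⟩ := Fx_ints hL a hf
  have hsq : ∀ x, (c1 x ^ 2 * √(ph L a (x 2)) * f x) ^ 2 = A1 L a x * f x ^ 2 := by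
    intro x
    rw [mul_pow]
    have := Fx_m_sq L a x
    unfold Fx_m at this
    rw [this]
  have hpt : ∀ x, gsq (fun x => c1 x ^ 2 * √(ph L a (x 2)) * f x) x ≤ 2 * (A1 L a x * gsq f x) +
      1 / 2 * (A1 L a x * f x ^ 2) + 4 * Cd ^ 2 * Ou.indicator (fun x => ph L a (x 2) * f x ^ 2) x :=
    fun x => Fx_pt hCd hL a hf x
  have iR : Integrable (fun x => 2 * (A1 L a x * gsq f x) + 1 / 2 * (A1 L a x * f x ^ 2) +
      4 * Cd ^ 2 * Ou.indicator (fun x => ph L a (x 2) * f x ^ 2) x) :=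
    ((i1.const_mul 2).add (i2.const_mul (1 / 2))).add (i3.const_mul (4 * Cd ^ 2))
  have hind : ∀ x, 0 ≤ Ou.indicator (fun x => ph L a (x 2) * f x ^ 2) x ∧
      Ou.indicator (fun x => ph L a (x 2) * f x ^ 2) x ≤ f x ^ 2 := by
    intro x
    have hp := ph_pos L a (x 2)
    have hp1 := ph_le L a (x 2)
    by_cases hx : x ∈ Ou
    · rw [Set.indicator_of_mem hx]
      exact ⟨mul_nonneg hp.le (sq_nonneg _), mul_le_of_le_one_left (sq_nonneg _) hp1⟩
    · rw [Set.indicator_of_notMem hx]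
      exact ⟨le_rfl, sq_nonneg _⟩
  -- the class
  obtain ⟨B1, hB1⟩ := hf.db 1
  have hfb : ∀ x, f x ^ 2 ≤ B1 ^ 2 := fun x => by
    rw [← sq_abs]
    exact pow_le_pow_left₀ (abs_nonneg _) (hB1.1.1 x) 2
  have hgb : ∀ x, gsq f x ≤ 3 * B1 ^ 2 := fun x => by
    have h1 : ∀ i, pd i f x ^ 2 ≤ B1 ^ 2 := fun i => by
      rw [← sq_abs]
      exact pow_le_pow_left₀ (abs_nonneg _) ((hB1.2 i).1 x) 2
    unfold gsq
    rw [Fin.sum_univ_three]
    linarith [h1 0, h1 1, h1 2]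
  have hK0 : ∃ K : ℝ, BL K (fun x => c1 x ^ 2 * √(ph L a (x 2)) * f x) := by
    refine Fx_BL hgs.continuous (M := B1 ^ 2) (fun x => ?_) i2 (fun x => (hsq x).le)
    rw [hsq]
    have h1 := D_Ale (L := L) a x
    have h2 : A1 L a x ≤ 1 := (le_abs_self _).trans h1
    exact (mul_le_of_le_one_left (sq_nonneg _) h2).trans (hfb x)
  have hKi : ∀ i : Fin 3, ∃ K : ℝ, BL K (pd i (fun x => c1 x ^ 2 * √(ph L a (x 2)) * f x)) := by
    intro i
    have h0 : ∀ x, pd i (fun x => c1 x ^ 2 * √(ph L a (x 2)) * f x) x ^ 2 ≤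
        gsq (fun x => c1 x ^ 2 * √(ph L a (x 2)) * f x) x := fun x =>
      Finset.single_le_sum (f := fun i => pd i (fun x => c1 x ^ 2 * √(ph L a (x 2)) * f x) x ^ 2)
        (fun j _ => sq_nonneg _) (Finset.mem_univ i)
    refine Fx_BL (pd_smooth hgs i).continuous (M := (6 + 1 / 2 + 4 * Cd ^ 2) * B1 ^ 2) (fun x => ?_) iR
      (fun x => (h0 x).trans (hpt x))
    refine (h0 x).trans ((hpt x).trans ?_)
    have h1 := D_Ale (L := L) a x
    have h2 : A1 L a x ≤ 1 := (le_abs_self _).trans h1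
    have h3 : A1 L a x * gsq f x ≤ 3 * B1 ^ 2 := (mul_le_of_le_one_left (Fx_gsq_nn f x) h2).trans (hgb x)
    have h4 : A1 L a x * f x ^ 2 ≤ B1 ^ 2 := (mul_le_of_le_one_left (sq_nonneg _) h2).trans (hfb x)
    have h5 := mul_le_mul_of_nonneg_left ((hind x).2.trans (hfb x)) (by positivity : 0 ≤ 4 * Cd ^ 2)
    linarith
  obtain ⟨K0, hK0⟩ := hK0
  choose K hK using hKi
  refine ⟨max K0 (max (K 0) (max (K 1) (K 2))), hgs.of_le (by norm_cast), ⟨BL_mono hK0 (le_max_left _ _), fun i => ?_⟩, ?_⟩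
  · refine BL_mono (hK i) (le_trans ?_ (le_max_right _ _))
    fin_cases i
    · exact le_max_left _ _
    · exact (le_max_left _ _).trans (le_max_right _ _)
    · exact (le_max_right _ _).trans (le_max_right _ _)
  · have iR2 : Integrable (fun x => 2 * (A1 L a x * gsq f x) + 3 / 2 * (A1 L a x * f x ^ 2) +
        4 * Cd ^ 2 * Ou.indicator (fun x => ph L a (x 2) * f x ^ 2) x) :=
      ((i1.const_mul 2).add (i2.const_mul (3 / 2))).add (i3.const_mul (4 * Cd ^ 2))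
    have h1 : ∫ x, (gsq (fun x => c1 x ^ 2 * √(ph L a (x 2)) * f x) x + (c1 x ^ 2 * √(ph L a (x 2)) * f x) ^ 2) ≤
        ∫ x, (2 * (A1 L a x * gsq f x) + 3 / 2 * (A1 L a x * f x ^ 2) +
        4 * Cd ^ 2 * Ou.indicator (fun x => ph L a (x 2) * f x ^ 2) x) := by
      refine integral_mono_of_nonneg (Filter.Eventually.of_forall fun x => ?_) iR2
        (Filter.Eventually.of_forall fun x => ?_)
      · exact add_nonneg (Fx_gsq_nn _ x) (sq_nonneg _)
      · have h2 := hpt x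
        have h3 := hsq x
        simp only
        linarith
    have h2 : ∫ x, (2 * (A1 L a x * gsq f x) + 3 / 2 * (A1 L a x * f x ^ 2) +
        4 * Cd ^ 2 * Ou.indicator (fun x => ph L a (x 2) * f x ^ 2) x) =
        2 * Dn L a f + 3 / 2 * Nn L a f + 4 * Cd ^ 2 * Gn L a f := by
      have hadd : Integrable (fun x => 2 * (A1 L a x * gsq f x) + 3 / 2 * (A1 L a x * f x ^ 2)) :=
        (i1.const_mul 2).add (i2.const_mul (3 / 2))
      rw [integral_add hadd (i3.const_mul (4 * Cd ^ 2)),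
        integral_add (i1.const_mul 2) (i2.const_mul (3 / 2)), integral_const_mul, integral_const_mul,
        integral_const_mul, Fx_Gn]
      rfl
    have h3 := hCn L a f hL hf
    have h4 := Fx_Gn_nn L a f
    have h5 := Fx_Dn_nn L a f
    rw [h2] at h1
    nlinarith only [hCn1, h1, h3, h4, h5]

theorem flux : ∃ C : ℝ, 1 ≤ C ∧ ∀ (ε K κ L a : ℝ) (v : E3 → E3) (f : E3 → ℝ), Pool.Agent.H94.EP.Sl ε K κ v → C * K ≤ L → Ri f →
    flx L a v f ≤ 1 / 8 * Dn L a f + C * K ^ 2 * Gn L a f := by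
  obtain ⟨hdc, hd0, ⟨Cd', hCd'⟩, hd1, hd2⟩ := dc_f
  set Cd : ℝ := max Cd' 1 with hCddef
  have hCd : ∀ x, dc x ≤ Cd := fun x => (hCd' x).trans (le_max_left _ _)
  have hCd1 : 1 ≤ Cd := le_max_right _ _
  obtain ⟨C1, hC1, hg⟩ := flux_g
  obtain ⟨C2, hC2, hcell⟩ := cell
  refine ⟨2 * C1 + 2 * 128 ^ 3 * C2 * Cd ^ 4 + 32 * (1 + C2), ?_, ?_⟩
  · have : 0 ≤ C2 * Cd ^ 4 := by positivity
    linarith
  intro ε K κ L a v f hS hL hf
  have hK := hS.K2
  have hK0 : 0 < K := by linarith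
  have hvs := hS.vs
  have hCd4 : 0 ≤ C2 * Cd ^ 4 := by positivity
  have hLK : 32 * (1 + C2) * K ≤ L := by
    refine le_trans ?_ hL
    have : 0 ≤ (2 * C1 + 2 * 128 ^ 3 * C2 * Cd ^ 4) * K := by
      have : 0 ≤ 2 * C1 + 2 * 128 ^ 3 * C2 * Cd ^ 4 := by linarith
      positivity
    linarith
  have hL1 : 1 ≤ L := by nlinarith
  have hL0 : 0 < L := by linarith
  -- the field
  obtain ⟨Bv, hBv⟩ := hvs.db 0
  have hvc : Continuous v := hvs.ax.smooth.continuous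
  have hvn : ∀ x, ‖v x‖ ^ 2 = ∑ j : Fin 3, (v x j) ^ 2 := by
    intro x
    rw [EuclideanSpace.norm_sq_eq]
    exact Finset.sum_congr rfl fun j _ => by rw [Real.norm_eq_abs, sq_abs]
  have hvi : Integrable (fun x => ‖v x‖ ^ 2) := by
    have h1 : (fun x => ‖v x‖ ^ 2) = fun x => ∑ j : Fin 3, (v x j) ^ 2 := funext hvn
    rw [h1]
    exact integrable_finsetSum _ fun j _ => (hBv j).2.1
  have hvb : ∃ M, ∀ x, ‖v x‖ ≤ M := by
    refine ⟨1 + 3 * Bv ^ 2, fun x => ?_⟩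
    have h1 : ∀ j : Fin 3, (v x j) ^ 2 ≤ Bv ^ 2 := fun j => by
      rw [← sq_abs]
      exact pow_le_pow_left₀ (abs_nonneg _) ((hBv j).1 x) 2
    have h2 := hvn x
    rw [Fin.sum_univ_three] at h2
    linarith only [h1 0, h1 1, h1 2, sq_nonneg (‖v x‖ - 1), norm_nonneg (v x), h2]
  have hen := hS.en
  -- the function g
  obtain ⟨B, hg1, hg2, hg3⟩ := hg L a f hL1 hf
  obtain ⟨i1, i2, i3⟩ := Fx_ints hL1 a hf
  obtain ⟨f1, f2, -, -, f5, f6, -⟩ := ri_int hf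
  have hAc := (A1_ri hL1 a).sm.continuous
  have hpc : Continuous (fun x : E3 => ph L a (x 2)) := (C_H_smooth L a).continuous
  have hcc : Continuous c1 := by
    have : ContDiff ℝ ∞ (fun x : E3 => (fun s : ℝ => Real.smoothTransition (2 - 4 * s)) (rsq x)) :=
      C_F_smooth (Real.smoothTransition.contDiff.comp (contDiff_const.sub (contDiff_const.mul contDiff_id)))
    exact this.continuous
  have hsp : Continuous (fun x : E3 => √(ph L a (x 2))) := hpc.sqrt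
  have hg0 : ∀ x, 1 / 2 ≤ rsq x → c1 x ^ 2 * √(ph L a (x 2)) * f x = 0 := by
    intro x hx
    rw [(c1_facts x).2.2.2 hx]
    ring
  have hsq : ∀ x, (c1 x ^ 2 * √(ph L a (x 2)) * f x) ^ 2 = A1 L a x * f x ^ 2 := by
    intro x
    rw [mul_pow]
    have := Fx_m_sq L a x
    unfold Fx_m at this
    rw [this]
  have hsqp : ∀ x : E3, √(ph L a (x 2)) ^ 2 = ph L a (x 2) := fun x => Real.sq_sqrt (ph_pos L a (x 2)).le
  -- first application of the cell lemma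
  have hh : ∀ x, (dc x ^ 2 * √(ph L a (x 2)) * f x) ^ 2 = dc x ^ 4 * (ph L a (x 2) * f x ^ 2) := by
    intro x
    have q : (dc x ^ 2 * √(ph L a (x 2)) * f x) ^ 2 = dc x ^ 4 * (√(ph L a (x 2)) ^ 2 * f x ^ 2) := by ring
    rw [q, hsqp x]
  have hh2 : ∀ x, (dc x ^ 2 * √(ph L a (x 2)) * f x) ^ 2 ≤
      Cd ^ 4 * Ou.indicator (fun x => ph L a (x 2) * f x ^ 2) x := by
    intro x
    rw [hh]
    have hp := ph_pos L a (x 2)
    by_cases hx : x ∈ Ou
    · rw [Set.indicator_of_mem hx]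
      exact mul_le_mul_of_nonneg_right (pow_le_pow_left₀ (hd0 x) (hCd x) 4) (by positivity)
    · rw [Set.indicator_of_notMem hx]
      have hdz : dc x = 0 := by
        rcases lt_or_ge (rsq x) (1 / 4) with h | h
        · exact hd1 x h
        · rcases lt_or_ge (rsq x) (1 / 2) with h' | h'
          · exact absurd (⟨h, h'⟩ : x ∈ Ou) hx
          · exact hd2 x h'
      rw [hdz]
      norm_num
  have hhc : Continuous (fun x => dc x ^ 2 * √(ph L a (x 2)) * f x) := ((hdc.pow 2).mul hsp).mul f5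
  have hhi : Integrable (fun x => (dc x ^ 2 * √(ph L a (x 2)) * f x) ^ 2) :=
    E_dom (hhc.pow 2) (i3.const_mul (Cd ^ 4)) fun x => by
      rw [abs_of_nonneg (sq_nonneg _)]
      exact hh2 x
  have hhI : ∫ x, (dc x ^ 2 * √(ph L a (x 2)) * f x) ^ 2 ≤ Cd ^ 4 * Gn L a f := by
    rw [← Fx_Gn, ← integral_const_mul]
    exact integral_mono hhi (i3.const_mul (Cd ^ 4)) hh2
  have hq1c : Continuous (fun x => c1 x ^ 3 * dc x * ph L a (x 2) * f x ^ 2) :=
    (((hcc.pow 3).mul hdc).mul hpc).mul (f5.pow 2)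
  have hq1 : ∀ x, (c1 x ^ 3 * dc x * ph L a (x 2) * f x ^ 2) ^ 2 ≤
      |c1 x ^ 2 * √(ph L a (x 2)) * f x| ^ 3 * |dc x ^ 2 * √(ph L a (x 2)) * f x| := by
    intro x
    have hc0 := (c1_facts x).1
    have hs0 := Real.sqrt_nonneg (ph L a (x 2))
    have e1 : |c1 x ^ 2 * √(ph L a (x 2)) * f x| = c1 x ^ 2 * √(ph L a (x 2)) * |f x| := by
      rw [abs_mul, abs_of_nonneg (by positivity : 0 ≤ c1 x ^ 2 * √(ph L a (x 2)))]
    have e2 : |dc x ^ 2 * √(ph L a (x 2)) * f x| = dc x ^ 2 * √(ph L a (x 2)) * |f x| := by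
      rw [abs_mul, abs_of_nonneg (by positivity : 0 ≤ dc x ^ 2 * √(ph L a (x 2)))]
    have e3 : f x ^ 2 = |f x| ^ 2 := (sq_abs _).symm
    have e4 : (c1 x ^ 2 * √(ph L a (x 2)) * |f x|) ^ 3 * (dc x ^ 2 * √(ph L a (x 2)) * |f x|) =
        (c1 x ^ 3 * dc x * √(ph L a (x 2)) ^ 2 * |f x| ^ 2) ^ 2 := by ring
    rw [e1, e2, e4, hsqp x, e3]
  obtain ⟨j1, j2⟩ := hcell K B (1 / 128) v _ _ _ hvc hvi hvb hK0.le (by norm_num) hen hg1 hg2 hg0 hhc hhi hq1c hq1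
  -- second application
  have hgc := hg1.continuous
  have hgi : Integrable (fun x => (c1 x ^ 2 * √(ph L a (x 2)) * f x) ^ 2) := by
    have : (fun x => (c1 x ^ 2 * √(ph L a (x 2)) * f x) ^ 2) = fun x => A1 L a x * f x ^ 2 := funext hsq
    rw [this]
    exact i2
  have hq2 : ∀ x, (A1 L a x * f x ^ 2) ^ 2 ≤
      |c1 x ^ 2 * √(ph L a (x 2)) * f x| ^ 3 * |c1 x ^ 2 * √(ph L a (x 2)) * f x| := by
    intro x
    rw [← hsq x, ← sq_abs (c1 x ^ 2 * √(ph L a (x 2)) * f x)]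
    refine le_of_eq ?_
    ring
  have hsK : 0 < √K := Real.sqrt_pos.2 hK0
  obtain ⟨j3, j4⟩ := hcell K B (√K) v _ _ (fun x => A1 L a x * f x ^ 2) hvc hvi hvb hK0.le hsK hen hg1 hg2 hg0 hgc hgi
    (hAc.mul (f5.pow 2)) hq2
  -- notation
  obtain ⟨I, hI⟩ : ∃ I, I = ∫ x, (gsq (fun x => c1 x ^ 2 * √(ph L a (x 2)) * f x) x +
    (c1 x ^ 2 * √(ph L a (x 2)) * f x) ^ 2) := ⟨_, rfl⟩
  obtain ⟨J1, hJ1⟩ : ∃ J, J = ∫ x, ‖v x‖ * |c1 x ^ 3 * dc x * ph L a (x 2) * f x ^ 2| := ⟨_, rfl⟩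
  obtain ⟨J2, hJ2⟩ : ∃ J, J = ∫ x, ‖v x‖ * |A1 L a x * f x ^ 2| := ⟨_, rfl⟩
  obtain ⟨G2, hG2⟩ : ∃ J, J = ∫ x, (c1 x ^ 2 * √(ph L a (x 2)) * f x) ^ 2 := ⟨_, rfl⟩
  have hG2I : G2 ≤ I := by
    have hIi : Integrable (fun x => gsq (fun x => c1 x ^ 2 * √(ph L a (x 2)) * f x) x +
        (c1 x ^ 2 * √(ph L a (x 2)) * f x) ^ 2) := by
      refine Integrable.add ?_ hgi
      unfold gsq
      exact integrable_finsetSum _ fun i _ => (hg2.2 i).2.1
    rw [hG2, hI]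
    refine integral_mono hgi hIi fun x => ?_
    have := Fx_gsq_nn (fun x => c1 x ^ 2 * √(ph L a (x 2)) * f x) x
    simp only
    linarith
  rw [← hI] at hg3 j2 j4
  rw [← hJ1] at j2
  rw [← hJ2, ← hG2] at j4
  -- the flux
  have hflx : flx L a v f ≤ 2 * J1 + 1 / (2 * L) * J2 := by
    have hpt : ∀ x, |f x ^ 2 * adv (v x) (A1 L a) x| ≤
        4 * (‖v x‖ * |c1 x ^ 3 * dc x * ph L a (x 2) * f x ^ 2|) + 1 / L * (‖v x‖ * |A1 L a x * f x ^ 2|) := by
      intro x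
      have hp := ph_pos L a (x 2)
      have hc0 := (c1_facts x).1
      have hA0 := (A1_nn L a x).1
      have e1 : |c1 x ^ 3 * dc x * ph L a (x 2) * f x ^ 2| = c1 x ^ 3 * dc x * ph L a (x 2) * f x ^ 2 :=
        abs_of_nonneg (by have := hd0 x; positivity)
      have e2 : |A1 L a x * f x ^ 2| = A1 L a x * f x ^ 2 := abs_of_nonneg (by positivity)
      rw [e1, e2, abs_mul, abs_of_nonneg (sq_nonneg (f x)), A1_adv hL1 a hvs x, A1_dh' hL1 a x]
      have hd := hd0 x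
      have hP : 0 ≤ 4 * c1 x ^ 3 * dc x * ph L a (x 2) := by positivity
      have h2 := A1_pd2 hL1 a x
      rcases le_or_gt (rsq x) 1 with hr | hr
      · obtain ⟨r1, r2⟩ := rad_flux hvs hr
        have h3 : |rsq x * sW v x * -(4 * c1 x ^ 3 * dc x * ph L a (x 2)) + v x 2 * pd 2 (A1 L a) x| ≤
            ‖v x‖ * (4 * c1 x ^ 3 * dc x * ph L a (x 2)) + ‖v x‖ * (A1 L a x / L) := by
          refine (abs_add_le _ _).trans (add_le_add ?_ ?_)
          · rw [abs_mul, abs_neg, abs_of_nonneg hP]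
            exact mul_le_mul_of_nonneg_right r1 hP
          · rw [abs_mul]
            exact mul_le_mul r2 h2 (abs_nonneg _) (norm_nonneg _)
        have h4 := mul_le_mul_of_nonneg_left h3 (sq_nonneg (f x))
        refine h4.trans (le_of_eq ?_)
        ring
      · have h5 : dc x = 0 := hd2 x (by linarith)
        have h6 : A1 L a x = 0 := A1_zero L a (by linarith)
        rw [h6] at h2
        have h7 : pd 2 (A1 L a) x = 0 := by
          rw [zero_div] at h2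
          exact abs_eq_zero.1 (le_antisymm h2 (abs_nonneg _))
        rw [h5, h6, h7]
        simp
    have iR : Integrable (fun x => 4 * (‖v x‖ * |c1 x ^ 3 * dc x * ph L a (x 2) * f x ^ 2|) +
        1 / L * (‖v x‖ * |A1 L a x * f x ^ 2|)) := (j1.const_mul 4).add (j3.const_mul (1 / L))
    have hadv : Continuous (fun x => f x ^ 2 * adv (v x) (A1 L a) x) := by
      refine (f5.pow 2).mul ?_
      unfold adv
      refine continuous_finsetSum _ fun i _ => ?_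
      refine Continuous.mul ?_ (pd_smooth (A1_ri hL1 a).sm i).continuous
      exact (EuclideanSpace.proj (𝕜 := ℝ) i : E3 →L[ℝ] ℝ).continuous.comp hvc
    have iL : Integrable (fun x => f x ^ 2 * adv (v x) (A1 L a) x) := E_dom hadv iR hpt
    have h1 : ∫ x, f x ^ 2 * adv (v x) (A1 L a) x ≤ 4 * J1 + 1 / L * J2 := by
      rw [hJ1, hJ2, ← integral_const_mul, ← integral_const_mul,
        ← integral_add (j1.const_mul 4) (j3.const_mul (1 / L))]
      exact integral_mono iL iR fun x => (le_abs_self _).trans (hpt x)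
    unfold flx
    have h2 : 1 / (2 * L) * J2 = 1 / L * J2 / 2 := by
      field_simp
    rw [h2]
    linarith
  have hD := Fx_Dn_nn L a f
  have hG := Fx_Gn_nn L a f
  have hI0 : 0 ≤ I := by
    rw [hI]
    exact integral_nonneg fun x => add_nonneg (Fx_gsq_nn _ x) (sq_nonneg _)
  -- first term
  have t1 : 2 * J1 ≤ 1 / 16 * Dn L a f + (C1 / 64 + 2 * 128 ^ 3 * C2 * Cd ^ 4 * K ^ 2) * Gn L a f := by
    have h1 : C2 * K ^ 2 / (1 / 128) ^ 3 * ∫ x, (dc x ^ 2 * √(ph L a (x 2)) * f x) ^ 2 ≤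
        C2 * K ^ 2 / (1 / 128) ^ 3 * (Cd ^ 4 * Gn L a f) :=
      mul_le_mul_of_nonneg_left hhI (by positivity)
    have h2 : C2 * K ^ 2 / (1 / 128) ^ 3 * (Cd ^ 4 * Gn L a f) = 128 ^ 3 * C2 * Cd ^ 4 * K ^ 2 * Gn L a f := by
      norm_num
      ring
    linarith
  -- second term
  have hKs : √K * √K = K := Real.mul_self_sqrt hK0.le
  have hs1 : 1 ≤ √K := by
    rw [Real.one_le_sqrt]
    linarith
  have t2 : J2 ≤ (1 + C2) * K * I := by
    have h1 : C2 * K ^ 2 / √K ^ 3 = C2 * √K := by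
      rw [div_eq_iff (by positivity)]
      have : K ^ 2 = √K * √K ^ 3 := by
        nth_rewrite 1 [← hKs]
        ring
      rw [this]
      ring
    rw [h1] at j4
    have h2 : √K ≤ K := by nlinarith only [hsK, hKs, hs1]
    have h3 : C2 * √K * G2 ≤ C2 * √K * I := mul_le_mul_of_nonneg_left hG2I (by positivity)
    have h4 : (1 + C2) * √K * I ≤ (1 + C2) * K * I :=
      mul_le_mul_of_nonneg_right (mul_le_mul_of_nonneg_left h2 (by linarith)) hI0
    linarith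
  have t3 : 1 / (2 * L) * J2 ≤ 1 / 64 * I := by
    have h1 : 1 / (2 * L) * J2 ≤ 1 / (2 * L) * ((1 + C2) * K * I) := mul_le_mul_of_nonneg_left t2 (by positivity)
    have h2 : 1 / (2 * L) * ((1 + C2) * K * I) = ((1 + C2) * K) / (2 * L) * I := by
      field_simp
    have h3 : ((1 + C2) * K) / (2 * L) ≤ 1 / 64 := by
      rw [div_le_div_iff₀ (by positivity) (by norm_num)]
      linarith
    rw [h2] at h1
    exact h1.trans (mul_le_mul_of_nonneg_right h3 hI0)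
  have t4 : flx L a v f ≤ 1 / 8 * Dn L a f + (C1 / 64 + 2 * 128 ^ 3 * C2 * Cd ^ 4 * K ^ 2 + C1 / 64) * Gn L a f := by
    linarith
  refine t4.trans ?_
  have hK2 : 1 ≤ K ^ 2 := by nlinarith only [hK]
  have h9 : C1 / 64 + 2 * 128 ^ 3 * C2 * Cd ^ 4 * K ^ 2 + C1 / 64 ≤
      (2 * C1 + 2 * 128 ^ 3 * C2 * Cd ^ 4 + 32 * (1 + C2)) * K ^ 2 := by
    have : C1 ≤ C1 * K ^ 2 := le_mul_of_one_le_right (by linarith) hK2
    have : 0 ≤ 32 * (1 + C2) * K ^ 2 := by positivity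
    nlinarith
  have h10 := mul_le_mul_of_nonneg_right h9 hG
  linarith only [h10]

end Pool.Agent.H90.EP
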