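import Pool.Agent.H90.EP.Ha

/-! Logarithmically weighted bound for `G = ∂_z W`. -/

set_option autoImplicit false

open Set Filter Topology MeasureTheory
open scoped ContDiff

namespace Pool.Agent.H90.EP

open Pool.Agent.H16 Pool.Agent.H72.CC Pool.Agent.H94.EP Pool.Agent.H87.EP
open Pool.Agent.H87.NS hiding c1
open Pool.Agent.H16.TU hiding Sl

/-- The logarithmic profile on the space. -/
noncomputable def X_s (κ : ℝ) (x : E3) : ℝ := Real.log (1 + κ ^ 2 * rsq x) / 2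

theorem X_rsq_nn (x : E3) : 0 ≤ rsq x := by
  unfold rsq
  positivity

theorem X_rsq_smooth : ContDiff ℝ ∞ (fun x : E3 => rsq x) := by
  have h : ∀ k : Fin 3, ContDiff ℝ ∞ (fun y : E3 => y k) := fun k =>
    (EuclideanSpace.proj (𝕜 := ℝ) k : E3 →L[ℝ] ℝ).contDiff
  exact ((h 0).pow 2).add ((h 1).pow 2)

theorem X_pos (κ : ℝ) (x : E3) : 0 < 1 + κ ^ 2 * rsq x := by
  have := mul_nonneg (sq_nonneg κ) (X_rsq_nn x)
  linarith

theorem X_smooth (κ : ℝ) : ContDiff ℝ ∞ (X_s κ) := by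
  unfold X_s
  exact ((contDiff_const.add (contDiff_const.mul X_rsq_smooth)).log fun x => (X_pos κ x).ne').div_const 2

theorem X_pd2 (κ : ℝ) (x : E3) : pd 2 (X_s κ) x = 0 := by
  have h : ∀ s : ℝ, X_s κ (x + s • e 2) = X_s κ x := by
    intro s
    have a0 : rsq (x + s • e 2) = rsq x := by
      unfold rsq
      simp [e]
    unfold X_s
    rw [a0]
  have hd : DifferentiableAt ℝ (X_s κ) (x + (0 : ℝ) • e 2) := ((X_smooth κ).differentiable (by simp)) _
  have h1 : HasDerivAt (fun s : ℝ => X_s κ (x + s • e 2)) (fderiv ℝ (X_s κ) (x + (0 : ℝ) • e 2) (e 2)) 0 := by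
    have hl : HasDerivAt (fun s : ℝ => x + s • e 2) (e 2) 0 := by
      have := ((hasDerivAt_id (0 : ℝ)).smul_const (e 2)).const_add x
      simpa using this
    exact hd.hasFDerivAt.comp_hasDerivAt (0 : ℝ) hl
  have h2 : HasDerivAt (fun s : ℝ => X_s κ (x + s • e 2)) 0 0 := by
    have e1 : (fun s : ℝ => X_s κ (x + s • e 2)) = fun _ => X_s κ x := funext h
    rw [e1]
    exact hasDerivAt_const _ _
  have h3 := h1.unique h2
  rw [zero_smul, add_zero] at h3
  exact h3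

theorem X_pd_mul {f g : E3 → ℝ} {x : E3} (hf : DifferentiableAt ℝ f x) (hg : DifferentiableAt ℝ g x) (i : Fin 3) :
    pd i (fun y => f y * g y) x = pd i f x * g x + f x * pd i g x := by
  unfold pd
  rw [fderiv_fun_mul hf hg]
  simp only [_root_.add_apply, _root_.smul_apply, smul_eq_mul]
  ring

theorem X_pd3 {f s g : E3 → ℝ} {x : E3} (hf : DifferentiableAt ℝ f x) (hs : DifferentiableAt ℝ s x)
    (hg : DifferentiableAt ℝ g x) (h0 : pd 2 s x = 0) :
    pd 2 (fun y => f y * s y * g y) x = s x * (pd 2 f x * g x + f x * pd 2 g x) := by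
  have h1 := X_pd_mul (f := fun y => f y * s y) (g := g) (hf.mul hs) hg 2
  have h2 := X_pd_mul hf hs 2
  rw [h1, h2, h0]
  ring

theorem X_sS {κ : ℝ} (hκ : 1 ≤ κ) {x : E3} (h : rsq x ≤ 1 / 2) : 0 ≤ X_s κ x ∧ X_s κ x ≤ Sc κ := by
  obtain ⟨h1, h2⟩ := Ha_log hκ (X_rsq_nn x) h
  have hS := Ha_Sc hκ
  exact ⟨h1, h2.trans (by linarith)⟩

/-- The pointwise bounds. -/
theorem X_pt {L κ : ℝ} (hL : 1 ≤ L) (a : ℝ) (hκ : 1 ≤ κ) (x : E3) (g d g2 : ℝ) :
    |X_s κ x * (pd 2 (A1 L a) x * g + A1 L a x * g2) * d| ≤ Sc κ * (A1 L a x * g ^ 2 + A1 L a x * d ^ 2 + A1 L a x * g2 ^ 2) ∧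
    |A1 L a x * X_s κ x * g * d| ≤ Sc κ * (A1 L a x * g ^ 2 + A1 L a x * d ^ 2 + A1 L a x * g2 ^ 2) := by
  have hA := A1_nn L a x
  have hS := Ha_Sc hκ
  have hp := A1_pd2 hL a x
  rcases le_total (1 / 2) (rsq x) with h | h
  · have h0 : A1 L a x = 0 := A1_zero L a h
    rw [h0, zero_div] at hp
    have h1 : pd 2 (A1 L a) x = 0 := abs_eq_zero.1 (le_antisymm hp (abs_nonneg _))
    rw [h0, h1]
    simp
  · obtain ⟨h1, h2⟩ := X_sS hκ h
    have hp' : |pd 2 (A1 L a) x| ≤ A1 L a x := hp.trans (div_le_self hA.1 hL)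
    obtain ⟨A, hAe⟩ : ∃ A, A = A1 L a x := ⟨_, rfl⟩
    obtain ⟨q, hq⟩ : ∃ q, q = pd 2 (A1 L a) x := ⟨_, rfl⟩
    obtain ⟨s, hs⟩ : ∃ s, s = X_s κ x := ⟨_, rfl⟩
    obtain ⟨S, hSe⟩ : ∃ S, S = Sc κ := ⟨_, rfl⟩
    rw [← hAe, ← hq] at hp'
    rw [← hs, ← hSe] at h2
    rw [← hs] at h1
    rw [← hAe] at hA
    rw [← hAe, ← hq, ← hs, ← hSe]
    have hA0 : 0 ≤ A := hA.1
    have hS0 : 0 ≤ S := h1.trans h2
    have e1 : |g| * |d| ≤ (g ^ 2 + d ^ 2) / 2 := by
      have := sq_nonneg (|g| - |d|)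
      have a1 := sq_abs g
      have a2 := sq_abs d
      nlinarith
    have e2 : |g2| * |d| ≤ (g2 ^ 2 + d ^ 2) / 2 := by
      have := sq_nonneg (|g2| - |d|)
      have a1 := sq_abs g2
      have a2 := sq_abs d
      nlinarith
    constructor
    · rw [abs_mul, abs_mul, abs_of_nonneg h1]
      have e3 : |q * g + A * g2| ≤ A * |g| + A * |g2| := by
        refine (abs_add_le _ _).trans ?_
        rw [abs_mul, abs_mul, abs_of_nonneg hA0]
        exact add_le_add_left (mul_le_mul_of_nonneg_right hp' (abs_nonneg _)) _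
      have e4 : |q * g + A * g2| * |d| ≤ A * g ^ 2 + A * d ^ 2 + A * g2 ^ 2 := by
        calc |q * g + A * g2| * |d| ≤ (A * |g| + A * |g2|) * |d| := mul_le_mul_of_nonneg_right e3 (abs_nonneg _)
          _ = A * (|g| * |d|) + A * (|g2| * |d|) := by ring
          _ ≤ A * ((g ^ 2 + d ^ 2) / 2) + A * ((g2 ^ 2 + d ^ 2) / 2) :=
              add_le_add (mul_le_mul_of_nonneg_left e1 hA0) (mul_le_mul_of_nonneg_left e2 hA0)
          _ ≤ A * g ^ 2 + A * d ^ 2 + A * g2 ^ 2 := by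
              have b1 := mul_nonneg hA0 (sq_nonneg g)
              have b2 := mul_nonneg hA0 (sq_nonneg g2)
              linarith
      calc s * |q * g + A * g2| * |d| = s * (|q * g + A * g2| * |d|) := by ring
        _ ≤ s * (A * g ^ 2 + A * d ^ 2 + A * g2 ^ 2) := mul_le_mul_of_nonneg_left e4 h1
        _ ≤ S * (A * g ^ 2 + A * d ^ 2 + A * g2 ^ 2) := mul_le_mul_of_nonneg_right h2 (by positivity)
    · rw [abs_mul, abs_mul, abs_mul, abs_of_nonneg h1, abs_of_nonneg hA0]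
      calc A * s * |g| * |d| = s * (A * (|g| * |d|)) := by ring
        _ ≤ s * (A * ((g ^ 2 + d ^ 2) / 2)) := mul_le_mul_of_nonneg_left (mul_le_mul_of_nonneg_left e1 hA0) h1
        _ ≤ s * (A * g ^ 2 + A * d ^ 2 + A * g2 ^ 2) := by
            apply mul_le_mul_of_nonneg_left _ h1
            have b1 := mul_nonneg hA0 (sq_nonneg g)
            have b2 := mul_nonneg hA0 (sq_nonneg g2)
            have b3 := mul_nonneg hA0 (sq_nonneg d)
            linarith
        _ ≤ S * (A * g ^ 2 + A * d ^ 2 + A * g2 ^ 2) := mul_le_mul_of_nonneg_right h2 (by positivity)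

theorem X_wint {L : ℝ} (hL : 1 ≤ L) (a : ℝ) {f : E3 → ℝ} (h1 : Integrable (fun x => f x ^ 2)) (hf : Continuous f) :
    Integrable (fun x => A1 L a x * f x ^ 2) := by
  have hA : Continuous (A1 L a) := (A1_ri hL a).sm.continuous
  refine h1.mono (hA.mul (hf.pow 2)).aestronglyMeasurable (Eventually.of_forall fun x => ?_)
  rw [norm_mul]
  have h2 := A1_nn L a x
  have h3 : ‖A1 L a x‖ ≤ 1 := by
    rw [Real.norm_of_nonneg h2.1]
    exact h2.2.trans (ph_le L a (x 2))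
  calc ‖A1 L a x‖ * ‖f x ^ 2‖ ≤ 1 * ‖f x ^ 2‖ := mul_le_mul_of_nonneg_right h3 (norm_nonneg _)
    _ = ‖f x ^ 2‖ := one_mul _

theorem xlog : ∃ C : ℝ, 1 ≤ C ∧ ∀ (L a κ : ℝ) (v : E3 → E3), C ≤ L → 1 ≤ κ → Vs v →
    Integrable (fun x => A1 L a x * bk κ x * pd 2 (sW v) x ^ 2) ∧
    ∫ x, A1 L a x * bk κ x * pd 2 (sW v) x ^ 2 ≤ C * Sc κ * (DO L a v + GG L a v) := by
  obtain ⟨Cs, hCs, hsig⟩ := sig
  obtain ⟨C1, hC1, hS1⟩ := Pool.Agent.H87.EP.S1
  obtain ⟨C2, hC2, hS2⟩ := Pool.Agent.H87.EP.S2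
  obtain ⟨C3, hC3, hS3⟩ := Pool.Agent.H87.EP.S2G
  refine ⟨2 * (C1 + C2 + C3) + 8 * Cs, by linarith, ?_⟩
  intro L a κ v hLC hκ hv
  have hL : 1 ≤ L := by linarith
  obtain ⟨-, hW, hO, -, -⟩ := vs_ri hv
  have hG : Ri (pd 2 (sW v)) := hW.pd2
  have hD : Ri (dh (sW v)) := hW.dh
  have hAr := A1_ri hL a
  obtain ⟨g1, g2, g3, g4, g5, g6, g7, g8, -⟩ := ri_int hG
  obtain ⟨d1, d2, d3, d4, d5, d6, d7, d8, -⟩ := ri_int hD
  have hS := Ha_Sc hκ
  have hS0 : 0 ≤ Sc κ := by linarith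
  set G : E3 → ℝ := pd 2 (sW v) with hGd
  set D : E3 → ℝ := dh (sW v) with hDd
  -- the profile
  have hpos : ∀ t : ℝ, 0 ≤ t → 0 < 1 + κ ^ 2 * t := fun t ht => by
    have := mul_nonneg (sq_nonneg κ) ht
    linarith
  obtain ⟨s, hs⟩ : ∃ s : ℝ → ℝ, s = fun t => Real.log (1 + κ ^ 2 * t) / 2 := ⟨_, rfl⟩
  obtain ⟨s', hs'⟩ : ∃ s' : ℝ → ℝ, s' = fun t => κ ^ 2 / (2 * (1 + κ ^ 2 * t)) := ⟨_, rfl⟩
  have hder : ∀ t, 0 ≤ t → HasDerivAt s (s' t) t := by
    intro t ht
    have h1 : HasDerivAt (fun t : ℝ => 1 + κ ^ 2 * t) (κ ^ 2) t := by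
      have h2 := ((hasDerivAt_id t).const_mul (κ ^ 2)).const_add 1
      rw [mul_one] at h2
      exact h2
    have h3 := (h1.log (hpos t ht).ne').div_const 2
    have h4 : s' t = κ ^ 2 / (1 + κ ^ 2 * t) / 2 := by
      rw [hs', div_div, mul_comm (1 + κ ^ 2 * t) 2]
    rw [h4, hs]
    exact h3
  have hcont : ContinuousOn s' (Ici 0) := by
    rw [hs']
    refine continuousOn_const.div (by fun_prop) fun t ht => ?_
    have := hpos t ht
    positivity
  have hs0 : ∀ t, 0 ≤ t → 0 ≤ s t := by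
    intro t ht
    have h1 := Real.log_nonneg (by
      have := mul_nonneg (sq_nonneg κ) ht
      linarith : (1 : ℝ) ≤ 1 + κ ^ 2 * t)
    rw [hs]
    show 0 ≤ Real.log (1 + κ ^ 2 * t) / 2
    linarith
  have hsM : ∀ t ∈ Icc (0 : ℝ) (1 / 2), s t ≤ Sc κ := by
    intro t ht
    have h1 := (Ha_log hκ ht.1 ht.2).2
    rw [hs]
    show Real.log (1 + κ ^ 2 * t) / 2 ≤ Sc κ
    linarith
  have hsx : ∀ x : E3, s (rsq x) = X_s κ x := by
    intro x
    rw [hs]
    rfl
  have h1 := hsig L a (Sc κ) G s s' hL hG hder hcont hs0 hsM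
  obtain ⟨i1, i2⟩ := sig_int hL hG hder hcont (a := a)
  have hbk : ∀ x : E3, A1 L a x * bk κ x * G x ^ 2 = 2 * (A1 L a x * s' (rsq x) * G x ^ 2) := by
    intro x
    have h2 : bk κ x = 2 * s' (rsq x) := by
      have h3 := hpos (rsq x) (X_rsq_nn x)
      rw [hs']
      unfold bk
      field_simp
    rw [h2]
    ring
  have hfun : (fun x => A1 L a x * bk κ x * G x ^ 2) = fun x => 2 * (A1 L a x * s' (rsq x) * G x ^ 2) := funext hbk
  have hint : Integrable (fun x => A1 L a x * bk κ x * G x ^ 2) := by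
    rw [hfun]
    exact i1.const_mul 2
  refine ⟨hint, ?_⟩
  have hI : ∫ x, A1 L a x * s' (rsq x) * G x ^ 2 = (∫ x, A1 L a x * bk κ x * G x ^ 2) / 2 := by
    rw [hfun, integral_const_mul]
    ring
  -- integration by parts
  have hGD : dh G = pd 2 D := by
    rw [hGd, hDd]
    exact dh_pd2 hW
  have dA : Differentiable ℝ (A1 L a) := hAr.sm.differentiable (by simp)
  have dX : Differentiable ℝ (X_s κ) := (X_smooth κ).differentiable (by simp)
  have dG : Differentiable ℝ G := hG.sm.differentiable (by simp)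
  have dD : Differentiable ℝ D := hD.sm.differentiable (by simp)
  have hpd : ∀ x, pd 2 (fun y => A1 L a y * X_s κ y * G y) x =
      X_s κ x * (pd 2 (A1 L a) x * G x + A1 L a x * pd 2 G x) :=
    fun x => X_pd3 (dA x) (dX x) (dG x) (X_pd2 κ x)
  have cA : Continuous (A1 L a) := hAr.sm.continuous
  have cA2 : Continuous (pd 2 (A1 L a)) := hAr.pd2.sm.continuous
  have cX : Continuous (X_s κ) := (X_smooth κ).continuous
  have w1 := X_wint hL a g1 g5
  have w2 := X_wint hL a d1 d5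
  have w3 := X_wint hL a g3 g7
  have hB : Integrable (fun x => Sc κ * (A1 L a x * G x ^ 2 + A1 L a x * D x ^ 2 + A1 L a x * pd 2 G x ^ 2)) :=
    ((w1.add w2).add w3).const_mul _
  have j1 : Integrable (fun x => (fun y => A1 L a y * X_s κ y * G y) x * pd 2 D x) := by
    have e1 : (fun x => (fun y => A1 L a y * X_s κ y * G y) x * pd 2 D x) =
        fun x => A1 L a x * s (rsq x) * (G x * dh G x) := by
      funext x
      rw [hsx, hGD]
      ring
    rw [e1]
    exact i2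
  have j2 : Integrable (fun x => pd 2 (fun y => A1 L a y * X_s κ y * G y) x * D x) := by
    have e1 : (fun x => pd 2 (fun y => A1 L a y * X_s κ y * G y) x * D x) =
        fun x => X_s κ x * (pd 2 (A1 L a) x * G x + A1 L a x * pd 2 G x) * D x := by
      funext x
      rw [hpd]
    rw [e1]
    refine hB.mono' ((cX.mul ((cA2.mul g5).add (cA.mul g7))).mul d5).aestronglyMeasurable
      (Eventually.of_forall fun x => ?_)
    rw [Real.norm_eq_abs]
    exact (X_pt hL a hκ x (G x) (D x) (pd 2 G x)).1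
  have j3 : Integrable (fun x => (fun y => A1 L a y * X_s κ y * G y) x * D x) := by
    refine hB.mono' (((cA.mul cX).mul g5).mul d5).aestronglyMeasurable
      (Eventually.of_forall fun x => ?_)
    rw [Real.norm_eq_abs]
    exact (X_pt hL a hκ x (G x) (D x) (pd 2 G x)).2
  have hibz := ibz (p := fun y => A1 L a y * X_s κ y * G y) (q := D) ((dA.mul dX).mul dG) dD 2 j1 j2 j3
  have hI2 : ∫ x, A1 L a x * s (rsq x) * (G x * dh G x) =
      ∫ x, (fun y => A1 L a y * X_s κ y * G y) x * pd 2 D x := by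
    congr 1
    funext x
    rw [hsx, hGD]
    ring
  have hle : -(∫ x, A1 L a x * s (rsq x) * (G x * dh G x)) ≤
      Sc κ * ((∫ x, A1 L a x * G x ^ 2) + (∫ x, A1 L a x * D x ^ 2) + ∫ x, A1 L a x * pd 2 G x ^ 2) := by
    have hsum : Sc κ * ((∫ x, A1 L a x * G x ^ 2) + (∫ x, A1 L a x * D x ^ 2) + ∫ x, A1 L a x * pd 2 G x ^ 2) =
        ∫ x, Sc κ * (A1 L a x * G x ^ 2 + A1 L a x * D x ^ 2 + A1 L a x * pd 2 G x ^ 2) := by
      rw [integral_const_mul]
      congr 1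
      have q1 := integral_add w1 w2
      have q2 := integral_add (w1.add w2) w3
      rw [← q1]
      exact q2.symm
    rw [hI2, hibz, neg_neg, hsum]
    refine integral_mono j2 hB fun x => ?_
    show pd 2 (fun y => A1 L a y * X_s κ y * G y) x * D x ≤ _
    rw [hpd]
    exact (le_abs_self _).trans (X_pt hL a hκ x (G x) (D x) (pd 2 G x)).1
  have k1 : ∫ x, A1 L a x * G x ^ 2 ≤ C3 * (DO L a v + GG L a v) := hS3 L a v (by linarith) hv
  have k2 : ∫ x, A1 L a x * D x ^ 2 ≤ C2 * (DO L a v + GG L a v) := hS2 L a v (by linarith) hv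
  have k3 : ∫ x, A1 L a x * pd 2 G x ^ 2 ≤ C1 * (DO L a v + GG L a v) := by
    refine le_trans ?_ (hS1 L a v (by linarith) hv)
    refine integral_mono w3 (Ha_int hL a hG) fun x => ?_
    have e1 := gsq_eq hG x
    have e2 : pd 2 G x ^ 2 ≤ gsq G x := by
      rw [e1]
      have := mul_nonneg (X_rsq_nn x) (sq_nonneg (dh G x))
      linarith
    exact mul_le_mul_of_nonneg_left e2 (A1_nn L a x).1
  have hDO : 0 ≤ DO L a v := by
    unfold DO
    exact integral_nonneg fun x => mul_nonneg (A1_nn L a x).1 (Ha_gsq hO x).1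
  have k4 : Gn L a G ≤ 4 * (DO L a v + GG L a v) := by
    have := gn_W hL a hv
    rw [← hGd] at this
    linarith
  rw [hI] at h1
  have k5 : Sc κ * ((∫ x, A1 L a x * G x ^ 2) + (∫ x, A1 L a x * D x ^ 2) + ∫ x, A1 L a x * pd 2 G x ^ 2) ≤
      Sc κ * ((C1 + C2 + C3) * (DO L a v + GG L a v)) := by
    apply mul_le_mul_of_nonneg_left _ hS0
    linarith
  have k6 : Cs * Sc κ * Gn L a G ≤ Cs * Sc κ * (4 * (DO L a v + GG L a v)) :=
    mul_le_mul_of_nonneg_left k4 (by positivity)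
  have k7 : (∫ x, A1 L a x * bk κ x * G x ^ 2) ≤
      2 * (Sc κ * ((C1 + C2 + C3) * (DO L a v + GG L a v)) + Cs * Sc κ * (4 * (DO L a v + GG L a v))) := by
    linarith
  refine k7.trans (le_of_eq ?_)
  ring

end Pool.Agent.H90.EP
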