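import Pool.Agent.H90.EP.Tz
import Pool.Agent.H90.EP.X

/-!
The source term of the equation of `Z`, estimate.
-/

set_option autoImplicit false

open Set Filter Topology MeasureTheory
open scoped ContDiff

namespace Pool.Agent.H90.EP

open Pool.Agent.H16 Pool.Agent.H72.CC Pool.Agent.H94.EP Pool.Agent.H87.EP
open Pool.Agent.H87.NS hiding c1
open Pool.Agent.H16.TU hiding Sl

theorem TB_abs {t u w : ℝ} (hu : 0 ≤ u) (hw : 0 ≤ w) (h : t ^ 2 ≤ 4 * (u * w)) : |t| ≤ u + w := by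
  apply abs_le_of_sq_le_sq _ (by linarith)
  nlinarith [sq_nonneg (u - w)]

theorem TB_alg {A p r V dZ pZ Z G D dA A2 ε b q C L : ℝ} (hA : 0 ≤ A) (hr : 0 ≤ r)
    (hb : 0 < b) (hε : ε ≤ 1) (hL : 1 ≤ L) (hΓ1 : |r * V| ≤ ε)
    (hΓ2 : (r * V) ^ 2 ≤ ε ^ 2 * (2 * (r * b))) (h3 : |dA| * |Z * G| ≤ 4 * C * (p * q)) (h4 : |A2| ≤ A / L) :
    r * V * (A * (dZ * G - pZ * D) + Z * (dA * G - A2 * D)) ≤
      1 / 16 * (A * (r * dZ ^ 2 + pZ ^ 2)) + 8 * ε ^ 2 * (A * b * G ^ 2) + 5 * ε ^ 2 * (A * D ^ 2) +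
        1 / L * (A * Z ^ 2) + 4 * C * (p * q) := by
  have hΓ1' : (r * V) ^ 2 ≤ ε ^ 2 := by
    rw [← sq_abs (r * V)]
    exact pow_le_pow_left₀ (abs_nonneg _) hΓ1 2
  have k1 : r * V * (dZ * G) ≤ 1 / 16 * (r * dZ ^ 2) + 8 * ε ^ 2 * (b * G ^ 2) := by
    refine (le_abs_self _).trans (TB_abs (by positivity) (by positivity) ?_)
    have e1 : (r * V * (dZ * G)) ^ 2 = (r * V) ^ 2 * (dZ * G) ^ 2 := by ring
    have e2 : 4 * (1 / 16 * (r * dZ ^ 2) * (8 * ε ^ 2 * (b * G ^ 2))) =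
        ε ^ 2 * (2 * (r * b)) * (dZ * G) ^ 2 := by ring
    rw [e1, e2]
    exact mul_le_mul_of_nonneg_right hΓ2 (sq_nonneg _)
  have k2 : -(r * V * (pZ * D)) ≤ 1 / 16 * pZ ^ 2 + 4 * ε ^ 2 * D ^ 2 := by
    refine (neg_le_abs _).trans (TB_abs (by positivity) (by positivity) ?_)
    have e1 : (r * V * (pZ * D)) ^ 2 = (r * V) ^ 2 * (pZ * D) ^ 2 := by ring
    have e2 : 4 * (1 / 16 * pZ ^ 2 * (4 * ε ^ 2 * D ^ 2)) = ε ^ 2 * (pZ * D) ^ 2 := by ring
    rw [e1, e2]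
    exact mul_le_mul_of_nonneg_right hΓ1' (sq_nonneg _)
  have k3 : r * V * (Z * (dA * G)) ≤ 4 * C * (p * q) := by
    calc r * V * (Z * (dA * G)) ≤ |r * V * (Z * (dA * G))| := le_abs_self _
      _ = |r * V| * (|dA| * |Z * G|) := by
        rw [← abs_mul, ← abs_mul]
        congr 1
        ring
      _ ≤ 1 * (|dA| * |Z * G|) :=
        mul_le_mul_of_nonneg_right (hΓ1.trans hε) (mul_nonneg (abs_nonneg _) (abs_nonneg _))
      _ ≤ 4 * C * (p * q) := by rw [one_mul]; exact h3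
  have k4 : -(r * V * (Z * (A2 * D))) ≤ 1 / L * (A * Z ^ 2) + ε ^ 2 * (A * D ^ 2) := by
    have hAL : 0 ≤ A / L := by positivity
    have m1 : |r * V * (Z * D)| ≤ Z ^ 2 + ε ^ 2 * D ^ 2 := by
      refine TB_abs (by positivity) (by positivity) ?_
      have e1 : (r * V * (Z * D)) ^ 2 = (r * V) ^ 2 * (Z * D) ^ 2 := by ring
      have e2 : 4 * (Z ^ 2 * (ε ^ 2 * D ^ 2)) = 4 * (ε ^ 2 * (Z * D) ^ 2) := by ring
      rw [e1, e2]
      have := mul_le_mul_of_nonneg_right hΓ1' (sq_nonneg (Z * D))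
      have h0 : 0 ≤ ε ^ 2 * (Z * D) ^ 2 := by positivity
      linarith
    have m2 : A / L * (ε ^ 2 * D ^ 2) ≤ A * (ε ^ 2 * D ^ 2) := by
      refine mul_le_mul_of_nonneg_right ?_ (by positivity)
      exact div_le_self hA hL
    calc -(r * V * (Z * (A2 * D))) ≤ |r * V * (Z * (A2 * D))| := neg_le_abs _
      _ = |A2| * |r * V * (Z * D)| := by
        rw [← abs_mul]
        congr 1
        ring
      _ ≤ A / L * (Z ^ 2 + ε ^ 2 * D ^ 2) := mul_le_mul h4 m1 (abs_nonneg _) hAL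
      _ = 1 / L * (A * Z ^ 2) + A / L * (ε ^ 2 * D ^ 2) := by ring
      _ ≤ 1 / L * (A * Z ^ 2) + ε ^ 2 * (A * D ^ 2) := by linarith
  have j1 := mul_le_mul_of_nonneg_left k1 hA
  have j2 := mul_le_mul_of_nonneg_left k2 hA
  have e0 : r * V * (A * (dZ * G - pZ * D) + Z * (dA * G - A2 * D)) =
      A * (r * V * (dZ * G)) + A * (-(r * V * (pZ * D))) + r * V * (Z * (dA * G)) +
        -(r * V * (Z * (A2 * D))) := by ring
  rw [e0]
  linarith

theorem TB_meas : MeasurableSet {x : E3 | rsq x < 1 / 2} :=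
  (isOpen_lt E_rsq_cont continuous_const).measurableSet

theorem TB_rsq_nn (x : E3) : 0 ≤ rsq x := by unfold rsq; positivity

/-- The pointwise bound. -/
theorem TB_pt {C ε K κ L a : ℝ} {v : E3 → E3} (hC1 : 1 ≤ C) (hC : ∀ (L a : ℝ), 1 ≤ L → ∀ x, dh (A1 L a) x ≤ 0 ∧
      |dh (A1 L a) x| ≤ C * (√(A1 L a x) * √(ph L a (x 2))) ∧
      (rsq x < 1 / 4 → dh (A1 L a) x = 0) ∧ (1 / 2 < rsq x → dh (A1 L a) x = 0))
    (h : Pool.Agent.H94.EP.Sl ε K κ v) (hL : 1 ≤ L) (x : E3) :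
    rsq x * sV v x * (A1 L a x * (dh (Zz v) x * pd 2 (sW v) x - pd 2 (Zz v) x * dh (sW v) x) +
        Zz v x * (dh (A1 L a) x * pd 2 (sW v) x - pd 2 (A1 L a) x * dh (sW v) x)) ≤
      1 / 16 * (A1 L a x * gsq (Zz v) x) + 8 * ε ^ 2 * (A1 L a x * bk κ x * pd 2 (sW v) x ^ 2) +
        5 * ε ^ 2 * (A1 L a x * dh (sW v) x ^ 2) + 1 / L * (A1 L a x * Zz v x ^ 2) +
        {x : E3 | rsq x < 1 / 2}.indicator (fun x => 4 * C * (ph L a (x 2) * gv v x)) x := by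
  obtain ⟨hV, hW, -, hZ, -⟩ := vs_ri h.vs
  obtain ⟨hA0, hAp⟩ := A1_nn L a x
  have hp := ph_pos L a (x 2)
  have hr := TB_rsq_nn x
  obtain ⟨-, d2, d3, -⟩ := hC L a hL x
  have hA2 := A1_pd2 hL a x
  rcases lt_or_ge (rsq x) (1 / 2) with h2 | h2
  · rw [indicator_of_mem (show x ∈ {x : E3 | rsq x < 1 / 2} from h2), gsq_eq hZ x]
    have hbk := ((bk_f h.k1).2.1 x).1
    have hrad : rad x < 1 := by
      have h1 := rad_sq' x
      have h3 := rad_nonneg x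
      nlinarith
    have hg := h.gam x hrad
    rw [circ_eq h.vs.ax x] at hg
    have hκr : 0 ≤ κ * rad x := mul_nonneg (by linarith [h.k1]) (rad_nonneg x)
    have hm0 : 0 ≤ min 1 (κ * rad x) := le_min zero_le_one hκr
    have hm1 : min 1 (κ * rad x) ≤ 1 := min_le_left _ _
    have hm2 := (bk_f h.k1).2.2.2 x
    have g1 : |rsq x * sV v x| ≤ ε := hg.trans (by
      calc ε * min 1 (κ * rad x) ≤ ε * 1 := mul_le_mul_of_nonneg_left hm1 h.e0.le
        _ = ε := mul_one ε)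
    have g2 : (rsq x * sV v x) ^ 2 ≤ ε ^ 2 * (2 * (rsq x * bk κ x)) := by
      rw [← sq_abs (rsq x * sV v x)]
      calc |rsq x * sV v x| ^ 2 ≤ (ε * min 1 (κ * rad x)) ^ 2 := pow_le_pow_left₀ (abs_nonneg _) hg 2
        _ = ε ^ 2 * (min 1 (κ * rad x)) ^ 2 := by ring
        _ ≤ ε ^ 2 * (2 * (rsq x * bk κ x)) := mul_le_mul_of_nonneg_left hm2 (sq_nonneg _)
    have g3 : |dh (A1 L a) x| * |Zz v x * pd 2 (sW v) x| ≤ 4 * C * (ph L a (x 2) * gv v x) := by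
      have hq := gv_nn v x
      rcases lt_or_ge (rsq x) (1 / 4) with h4 | h4
      · rw [d3 h4, abs_zero, zero_mul]
        positivity
      · have s1 := gv_Z h.vs x
        have s2 := gv_W2 h.vs x
        have s3 : Zz v x ^ 2 ≤ 4 * gv v x := by nlinarith [sq_nonneg (Zz v x)]
        have s4 : pd 2 (sW v) x ^ 2 ≤ 4 * gv v x := by nlinarith [sq_nonneg (pd 2 (sW v) x)]
        have s5 : |Zz v x * pd 2 (sW v) x| ≤ 4 * gv v x := by
          rw [abs_le]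
          constructor
          · nlinarith [sq_nonneg (Zz v x + pd 2 (sW v) x)]
          · nlinarith [sq_nonneg (Zz v x - pd 2 (sW v) x)]
        have s6 : √(A1 L a x) * √(ph L a (x 2)) ≤ ph L a (x 2) := by
          calc √(A1 L a x) * √(ph L a (x 2)) ≤ √(ph L a (x 2)) * √(ph L a (x 2)) :=
                mul_le_mul_of_nonneg_right (Real.sqrt_le_sqrt hAp) (Real.sqrt_nonneg _)
            _ = ph L a (x 2) := Real.mul_self_sqrt hp.le
        have s7 : |dh (A1 L a) x| ≤ C * ph L a (x 2) :=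
          d2.trans (mul_le_mul_of_nonneg_left s6 (by linarith))
        calc |dh (A1 L a) x| * |Zz v x * pd 2 (sW v) x| ≤ C * ph L a (x 2) * (4 * gv v x) :=
              mul_le_mul s7 s5 (abs_nonneg _) (by positivity)
          _ = 4 * C * (ph L a (x 2) * gv v x) := by ring
    exact TB_alg hA0 hr hbk h.e1 hL g1 g2 g3 hA2
  · rw [indicator_of_notMem (show x ∉ {x : E3 | rsq x < 1 / 2} from not_lt.2 h2)]
    have z1 := A1_zero L a h2
    rw [z1] at d2 hA2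
    rw [Real.sqrt_zero, zero_mul, mul_zero] at d2
    rw [zero_div] at hA2
    have z2 : dh (A1 L a) x = 0 := abs_eq_zero.1 (le_antisymm d2 (abs_nonneg _))
    have z3 : pd 2 (A1 L a) x = 0 := abs_eq_zero.1 (le_antisymm hA2 (abs_nonneg _))
    rw [z1, z2, z3]
    simp

theorem TB_add5 {f1 f2 f3 f4 f5 : E3 → ℝ} (i1 : Integrable f1) (i2 : Integrable f2) (i3 : Integrable f3)
    (i4 : Integrable f4) (i5 : Integrable f5) :
    Integrable (fun x => f1 x + f2 x + f3 x + f4 x + f5 x) ∧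
    ∫ x, (f1 x + f2 x + f3 x + f4 x + f5 x) =
      (∫ x, f1 x) + (∫ x, f2 x) + (∫ x, f3 x) + (∫ x, f4 x) + ∫ x, f5 x := by
  have j2 : Integrable (fun x => f1 x + f2 x) := i1.add i2
  have j3 : Integrable (fun x => f1 x + f2 x + f3 x) := j2.add i3
  have j4 : Integrable (fun x => f1 x + f2 x + f3 x + f4 x) := j3.add i4
  refine ⟨j4.add i5, ?_⟩
  rw [integral_add j4 i5, integral_add j3 i4, integral_add j2 i3, integral_add i1 i2]

theorem t2 : ∃ C : ℝ, 1 ≤ C ∧ ∀ (ε K κ L a : ℝ) (v : E3 → E3), Pool.Agent.H94.EP.Sl ε K κ v → C ≤ L → ε ^ 2 * Sc κ ≤ 1 →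
    ∫ x, A1 L a x * (Zz v x * GZ v x) ≤ 1 / 8 * DJ L a v + C * (ε ^ 2 * Sc κ * DO L a v + GG L a v) := by
  obtain ⟨C1, hC1, H1⟩ := A1_dh
  obtain ⟨C2, hC2, H2⟩ := xlog
  obtain ⟨C3, hC3, H3⟩ := S2
  obtain ⟨C4, hC4, H4⟩ := NJ_le
  refine ⟨8 * C2 + 5 * C3 + 4 * C1 + 16 * C4 + 1, by linarith, fun ε K κ L a v h hCL hεS => ?_⟩
  have hL : 1 ≤ L := by linarith
  have hL0 : 0 < L := by linarith
  have hv := h.vs
  obtain ⟨hV, hW, hO, hZ, -⟩ := vs_ri hv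
  have sA := E_ri (A1_ri hL a)
  have hAn : ∀ x, 0 ≤ A1 L a x := fun x => (A1_nn L a x).1
  obtain ⟨i2, b2⟩ := H2 L a κ v (by linarith) h.k1 hv
  have b3 := H3 L a v (by linarith) hv
  have b4 := H4 L a v hL hv
  have i1 : Integrable (fun x => A1 L a x * gsq (Zz v) x) := E_gsqI sA (E_ri hZ)
  have i3 : Integrable (fun x => A1 L a x * dh (sW v) x ^ 2) := E_sq sA (E_ri hW.dh)
  have i4 : Integrable (fun x => A1 L a x * Zz v x ^ 2) := E_sq sA (E_ri hZ)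
  have i5 : Integrable ({x : E3 | rsq x < 1 / 2}.indicator (fun x => 4 * C1 * (ph L a (x 2) * gv v x))) :=
    ((gv_int hv hL a).const_mul _).indicator TB_meas
  obtain ⟨iR, eR⟩ := TB_add5 (i1.const_mul (1 / 16)) (i2.const_mul (8 * ε ^ 2)) (i3.const_mul (5 * ε ^ 2))
    (i4.const_mul (1 / L)) i5
  have e5 : ∫ x, {x : E3 | rsq x < 1 / 2}.indicator (fun x => 4 * C1 * (ph L a (x 2) * gv v x)) x =
      4 * C1 * GG L a v := by
    rw [integral_indicator TB_meas, integral_const_mul]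
    rfl
  rw [integral_const_mul, integral_const_mul, integral_const_mul, integral_const_mul, e5] at eR
  obtain ⟨hDO, hGG⟩ := E_nn (L := L) a v
  have hDJ : 0 ≤ DJ L a v := integral_nonneg fun x => mul_nonneg (hAn x) (gsq_nonneg _ _)
  have hmain : ∫ x, A1 L a x * (Zz v x * GZ v x) ≤
      1 / 16 * (∫ x, A1 L a x * gsq (Zz v) x) + 8 * ε ^ 2 * (∫ x, A1 L a x * bk κ x * pd 2 (sW v) x ^ 2) +
        5 * ε ^ 2 * (∫ x, A1 L a x * dh (sW v) x ^ 2) + 1 / L * (∫ x, A1 L a x * Zz v x ^ 2) +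
        4 * C1 * GG L a v := by
    rw [(tz_eq hL a hv).2, ← eR]
    by_cases hF : Integrable (fun x => rsq x * sV v x * (A1 L a x * (dh (Zz v) x * pd 2 (sW v) x -
        pd 2 (Zz v) x * dh (sW v) x) + Zz v x * (dh (A1 L a) x * pd 2 (sW v) x -
        pd 2 (A1 L a) x * dh (sW v) x)))
    · exact integral_mono hF iR fun x => TB_pt hC1 H1 h hL x
    · rw [integral_undef hF]
      refine integral_nonneg fun x => ?_
      have n1 := hAn x
      have n2 := gsq_nonneg (Zz v) x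
      have n3 := ((bk_f h.k1).2.1 x).1
      have n4 : 0 ≤ {x : E3 | rsq x < 1 / 2}.indicator (fun x => 4 * C1 * (ph L a (x 2) * gv v x)) x := by
        refine indicator_nonneg (fun y _ => ?_) x
        have := (ph_pos L a (y 2)).le
        have := gv_nn v y
        positivity
      show 0 ≤ 1 / 16 * (A1 L a x * gsq (Zz v) x) + 8 * ε ^ 2 * (A1 L a x * bk κ x * pd 2 (sW v) x ^ 2) +
        5 * ε ^ 2 * (A1 L a x * dh (sW v) x ^ 2) + 1 / L * (A1 L a x * Zz v x ^ 2) +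
        {x : E3 | rsq x < 1 / 2}.indicator (fun x => 4 * C1 * (ph L a (x 2) * gv v x)) x
      positivity
  have eJ : (∫ x, A1 L a x * gsq (Zz v) x) = DJ L a v := rfl
  have eN : (∫ x, A1 L a x * Zz v x ^ 2) = NJ L a v := rfl
  rw [eJ, eN] at hmain
  have hS : 20 ≤ Sc κ := Ha_Sc h.k1
  have hε2 : 0 ≤ ε ^ 2 := sq_nonneg ε
  have hε3 : ε ^ 2 ≤ ε ^ 2 * Sc κ := le_mul_of_one_le_right hε2 (by linarith)
  have hε4 : 0 ≤ ε ^ 2 * Sc κ := by positivity
  have q1 : 8 * ε ^ 2 * (∫ x, A1 L a x * bk κ x * pd 2 (sW v) x ^ 2) ≤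
      8 * C2 * (ε ^ 2 * Sc κ * DO L a v + GG L a v) := by
    have r1 := mul_le_mul_of_nonneg_left b2 (by positivity : 0 ≤ 8 * ε ^ 2)
    have r2 : 8 * ε ^ 2 * (C2 * Sc κ * (DO L a v + GG L a v)) =
        8 * C2 * (ε ^ 2 * Sc κ * DO L a v + ε ^ 2 * Sc κ * GG L a v) := by ring
    have r3 : ε ^ 2 * Sc κ * GG L a v ≤ 1 * GG L a v := mul_le_mul_of_nonneg_right hεS hGG
    have r4 : 8 * C2 * (ε ^ 2 * Sc κ * DO L a v + ε ^ 2 * Sc κ * GG L a v) ≤
        8 * C2 * (ε ^ 2 * Sc κ * DO L a v + GG L a v) :=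
      mul_le_mul_of_nonneg_left (by linarith) (by linarith)
    linarith
  have q2 : 5 * ε ^ 2 * (∫ x, A1 L a x * dh (sW v) x ^ 2) ≤
      5 * C3 * (ε ^ 2 * Sc κ * DO L a v + GG L a v) := by
    have r1 := mul_le_mul_of_nonneg_left b3 (by positivity : 0 ≤ 5 * ε ^ 2)
    have r2 : 5 * ε ^ 2 * (C3 * (DO L a v + GG L a v)) =
        5 * C3 * (ε ^ 2 * DO L a v + ε ^ 2 * GG L a v) := by ring
    have r3 : ε ^ 2 * GG L a v ≤ 1 * GG L a v := mul_le_mul_of_nonneg_right (hε3.trans hεS) hGG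
    have r5 : ε ^ 2 * DO L a v ≤ ε ^ 2 * Sc κ * DO L a v := mul_le_mul_of_nonneg_right hε3 hDO
    have r4 : 5 * C3 * (ε ^ 2 * DO L a v + ε ^ 2 * GG L a v) ≤
        5 * C3 * (ε ^ 2 * Sc κ * DO L a v + GG L a v) :=
      mul_le_mul_of_nonneg_left (by linarith) (by linarith)
    linarith
  have q3 : 1 / L * NJ L a v ≤ 1 / 16 * (DJ L a v + GG L a v) := by
    have r1 := mul_le_mul_of_nonneg_left b4 (by positivity : 0 ≤ 1 / L)
    have r2 : 1 / L * C4 ≤ 1 / 16 := by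
      rw [one_div, inv_mul_le_iff₀ hL0]
      linarith
    have r3 := mul_le_mul_of_nonneg_right r2 (add_nonneg hDJ hGG)
    have r4 : 1 / L * C4 * (DJ L a v + GG L a v) = 1 / L * (C4 * (DJ L a v + GG L a v)) := by ring
    linarith
  have q4 : 0 ≤ ε ^ 2 * Sc κ * DO L a v := mul_nonneg hε4 hDO
  have q5 : (8 * C2 + 5 * C3 + 4 * C1 + 16 * C4 + 1) * (ε ^ 2 * Sc κ * DO L a v + GG L a v) =
      8 * C2 * (ε ^ 2 * Sc κ * DO L a v + GG L a v) + 5 * C3 * (ε ^ 2 * Sc κ * DO L a v + GG L a v) +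
        (4 * C1 + 16 * C4 + 1) * (ε ^ 2 * Sc κ * DO L a v) + (4 * C1 * GG L a v + 16 * C4 * GG L a v + GG L a v) := by
    ring
  have q6 : 0 ≤ (4 * C1 + 16 * C4 + 1) * (ε ^ 2 * Sc κ * DO L a v) := mul_nonneg (by linarith) q4
  have q7 : 0 ≤ 16 * C4 * GG L a v := mul_nonneg (by linarith) hGG
  rw [q5]
  linarith

end Pool.Agent.H90.EP
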