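import Pool.Agent.H90.EP.TA
import Pool.Agent.H90.EP.TB
import Pool.Agent.H90.EP.Ev
import Pool.Agent.H90.EP.Fx

/-
ROW On_PA. The two one-point inequalities.
-/

set_option autoImplicit false

open Set Filter Topology MeasureTheory
open scoped ContDiff

namespace Pool.Agent.H90.EP

open Pool.Agent.H16 Pool.Agent.H72.CC Pool.Agent.H94.EP Pool.Agent.H87.EP
open Pool.Agent.H87.NS hiding c1
open Pool.Agent.H16.TU hiding Sl

theorem PA_Dn_nn (L a : ℝ) (f : E3 → ℝ) : 0 ≤ Dn L a f :=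
  integral_nonneg fun x => mul_nonneg (A1_nn L a x).1 (gsq_nonneg f x)

theorem PA_GG_nn (L a : ℝ) (v : E3 → E3) : 0 ≤ GG L a v :=
  integral_nonneg fun x => mul_nonneg (ph_pos L a (x 2)).le (gv_nn v x)

theorem PA_Sc {κ : ℝ} (h : 1 ≤ κ) : 20 ≤ Sc κ := by
  unfold Sc
  have := Real.log_nonneg h
  linarith

theorem PA_L {L : ℝ} (h : 32 ≤ L) : 4 / L ^ 2 ≤ 1 / 4 := by
  rw [div_le_div_iff₀ (by positivity) (by norm_num)]
  nlinarith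

/-- P1a: the one-point functional of `Z`. -/
theorem p1a : ∃ C : ℝ, 1 ≤ C ∧ ∀ (ε K κ L a : ℝ) (v : E3 → E3), Pool.Agent.H94.EP.Sl ε K κ v → C * K ≤ L → ε ^ 2 * Sc κ ≤ 1 →
    RJ L a v / 2 ≤ - (1 / 2) * DJ L a v + C * (ε ^ 2 * Sc κ * DO L a v + K ^ 2 * GG L a v) := by
  obtain ⟨C2, hC2, h2⟩ := t2
  obtain ⟨C3, hC3, h3⟩ := flux
  obtain ⟨C4, hC4, h4⟩ := lpx_le
  refine ⟨16 + C2 + 4 * C3 + 4 * C4, by linarith, ?_⟩
  intro ε K κ L a v hS hL hε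
  have hK := hS.K2
  have hb : 32 ≤ L := by nlinarith
  have hL1 : (1 : ℝ) ≤ L := by linarith
  have hL2 : C2 ≤ L := by nlinarith
  have hL3 : C3 * K ≤ L := by nlinarith
  have hri := (vs_ri hS.vs).2.2.2.1
  have e1 := ev_eq hL1 a hS.vs hri (tz_eq hL1 a hS.vs).1
  have e2 := h2 ε K κ L a v hS hL2 hε
  have e3 := h3 ε K κ L a v (Zz v) hS hL3 hri
  have e4 := h4 L a (Zz v) hL1 hri
  have e5 := gn_Z hL1 a hS.vs
  have hD : 0 ≤ DJ L a v := PA_Dn_nn L a (Zz v)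
  have hO : 0 ≤ DO L a v := PA_Dn_nn L a (sO v)
  have hG : 0 ≤ GG L a v := PA_GG_nn L a v
  have hSc : 20 ≤ Sc κ := PA_Sc hS.k1
  have hDn : Dn L a (Zz v) = DJ L a v := rfl
  have hRJ : (∫ x, evJ sqf v (Zz v) (GZ v) (A1 L a) x) = RJ L a v := rfl
  rw [hDn, hRJ] at e1
  rw [hDn] at e3 e4
  have hK2 : (1 : ℝ) ≤ K ^ 2 := by nlinarith
  have f1 : C3 * K ^ 2 * Gn L a (Zz v) ≤ C3 * K ^ 2 * (4 * GG L a v) :=
    mul_le_mul_of_nonneg_left e5 (by positivity)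
  have f2 : C4 * Gn L a (Zz v) ≤ C4 * (4 * GG L a v) :=
    mul_le_mul_of_nonneg_left e5 (by positivity)
  have f3 : 4 / L ^ 2 * DJ L a v ≤ 1 / 4 * DJ L a v :=
    mul_le_mul_of_nonneg_right (PA_L hb) hD
  have hX : 0 ≤ ε ^ 2 * Sc κ * DO L a v := by positivity
  have f4 : C2 * (ε ^ 2 * Sc κ * DO L a v) ≤ (16 + C2 + 4 * C3 + 4 * C4) * (ε ^ 2 * Sc κ * DO L a v) :=
    mul_le_mul_of_nonneg_right (by linarith) hX
  have f5 : (C2 + 4 * C4) * GG L a v ≤ (C2 + 4 * C4) * (K ^ 2 * GG L a v) :=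
    mul_le_mul_of_nonneg_left (le_mul_of_one_le_left hG hK2) (by positivity)
  have f6 : 0 ≤ K ^ 2 * GG L a v := by positivity
  have f7 : (16 + C2 + 4 * C3 + 4 * C4) * (ε ^ 2 * Sc κ * DO L a v + K ^ 2 * GG L a v) =
      (16 + C2 + 4 * C3 + 4 * C4) * (ε ^ 2 * Sc κ * DO L a v) + 16 * (K ^ 2 * GG L a v) +
        4 * C3 * (K ^ 2 * GG L a v) + (C2 + 4 * C4) * (K ^ 2 * GG L a v) := by ring
  rw [f7]
  have f8 : C2 * (ε ^ 2 * Sc κ * DO L a v + GG L a v) =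
      C2 * (ε ^ 2 * Sc κ * DO L a v) + C2 * GG L a v := by ring
  rw [f8] at e2
  have f9 : (C2 + 4 * C4) * GG L a v = C2 * GG L a v + C4 * (4 * GG L a v) := by ring
  have f10 : C3 * K ^ 2 * (4 * GG L a v) = 4 * C3 * (K ^ 2 * GG L a v) := by ring
  rw [f9] at f5
  rw [f10] at f1
  linarith

/-- P1b: the one-point functional of `O`. -/
theorem p1b : ∃ C : ℝ, 1 ≤ C ∧ ∀ (ε K κ L a μ : ℝ) (v : E3 → E3), Pool.Agent.H94.EP.Sl ε K κ v → C * K ≤ L → 0 < μ →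
    RO L a v / 2 ≤ - (1 / 2) * DO L a v + μ * (YY κ L a v + DJ L a v + GG L a v) +
      C * ε ^ 2 / μ * (Sc κ ^ 2 * DO L a v + Sc κ * GG L a v) + C * K ^ 2 * GG L a v := by
  obtain ⟨C2, hC2, h2⟩ := t1
  obtain ⟨C3, hC3, h3⟩ := flux
  obtain ⟨C4, hC4, h4⟩ := lpx_le
  refine ⟨16 + C2 + 16 * C3 + 16 * C4, by linarith, ?_⟩
  intro ε K κ L a μ v hS hL hμ
  have hK := hS.K2
  have hb : 32 ≤ L := by nlinarith
  have hL1 : (1 : ℝ) ≤ L := by linarith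
  have hL3 : C3 * K ≤ L := by nlinarith
  have hri := (vs_ri hS.vs).2.2.1
  obtain ⟨i2, e2⟩ := h2 ε K κ L a μ v hS hL1 hμ
  have e1 := ev_eq hL1 a hS.vs hri i2
  have e3 := h3 ε K κ L a v (sO v) hS hL3 hri
  have e4 := h4 L a (sO v) hL1 hri
  have e5 := gn_O hL1 a hS.vs
  have hO : 0 ≤ DO L a v := PA_Dn_nn L a (sO v)
  have hG : 0 ≤ GG L a v := PA_GG_nn L a v
  have hSc : 20 ≤ Sc κ := PA_Sc hS.k1
  have hDn : Dn L a (sO v) = DO L a v := rfl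
  have hRO : (∫ x, evJ sqf v (sO v) (GO v) (A1 L a) x) = RO L a v := rfl
  rw [hDn, hRO] at e1
  rw [hDn] at e3 e4
  have e2' := (abs_le.1 e2).2
  have hK2 : (1 : ℝ) ≤ K ^ 2 := by nlinarith
  have f1 : C3 * K ^ 2 * Gn L a (sO v) ≤ C3 * K ^ 2 * (16 * GG L a v) :=
    mul_le_mul_of_nonneg_left e5 (by positivity)
  have f2 : C4 * Gn L a (sO v) ≤ C4 * (16 * GG L a v) :=
    mul_le_mul_of_nonneg_left e5 (by positivity)
  have f3 : 4 / L ^ 2 * DO L a v ≤ 1 / 4 * DO L a v :=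
    mul_le_mul_of_nonneg_right (PA_L hb) hO
  have hX : 0 ≤ ε ^ 2 / μ * (Sc κ ^ 2 * DO L a v + Sc κ * GG L a v) := by positivity
  have f4 : C2 * ε ^ 2 / μ * (Sc κ ^ 2 * DO L a v + Sc κ * GG L a v) ≤
      (16 + C2 + 16 * C3 + 16 * C4) * ε ^ 2 / μ * (Sc κ ^ 2 * DO L a v + Sc κ * GG L a v) := by
    have := mul_le_mul_of_nonneg_right (show C2 ≤ 16 + C2 + 16 * C3 + 16 * C4 by linarith) hX
    calc _ = C2 * (ε ^ 2 / μ * (Sc κ ^ 2 * DO L a v + Sc κ * GG L a v)) := by ring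
      _ ≤ _ := this
      _ = _ := by ring
  have f5 : (C2 + 16 * C4) * GG L a v ≤ (C2 + 16 * C4) * (K ^ 2 * GG L a v) :=
    mul_le_mul_of_nonneg_left (le_mul_of_one_le_left hG hK2) (by positivity)
  have f6 : 0 ≤ K ^ 2 * GG L a v := by positivity
  have f7 : (16 + C2 + 16 * C3 + 16 * C4) * K ^ 2 * GG L a v =
      16 * (K ^ 2 * GG L a v) +
        16 * C3 * (K ^ 2 * GG L a v) + (C2 + 16 * C4) * (K ^ 2 * GG L a v) := by ring
  rw [f7]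
  have f9 : (C2 + 16 * C4) * GG L a v = C2 * GG L a v + C4 * (16 * GG L a v) := by ring
  have f10 : C3 * K ^ 2 * (16 * GG L a v) = 16 * C3 * (K ^ 2 * GG L a v) := by ring
  rw [f9] at f5
  rw [f10] at f1
  linarith

end Pool.Agent.H90.EP
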