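import Pool.Agent.H87.EP.E
import Pool.Agent.H87.EP.I

/-! The one-point functionals: definitions. -/

set_option autoImplicit false

open Set Filter Topology MeasureTheory
open scoped ContDiff

namespace Pool.Agent.H90.EP

open Pool.Agent.H16 Pool.Agent.H72.CC Pool.Agent.H94.EP Pool.Agent.H87.EP
open Pool.Agent.H87.NS hiding c1
open Pool.Agent.H16.TU hiding Sl

/-- Weighted square of the gradient. -/
noncomputable def Dn (L a : ℝ) (f : E3 → ℝ) : ℝ := ∫ x, A1 L a x * gsq f x

/-- Weighted square. -/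
noncomputable def Nn (L a : ℝ) (f : E3 → ℝ) : ℝ := ∫ x, A1 L a x * f x ^ 2

/-- The zone where the horizontal cutoff varies. -/
def Ou : Set E3 := {x : E3 | 1 / 4 ≤ rsq x ∧ rsq x < 1 / 2}

/-- Weighted square over that zone. -/
noncomputable def Gn (L a : ℝ) (f : E3 → ℝ) : ℝ := ∫ x in Ou, ph L a (x 2) * f x ^ 2

/-- Minus the radial derivative `(1 / r) ∂_r` of the cutoff `c1`. -/
noncomputable def dc (x : E3) : ℝ := 8 * deriv Real.smoothTransition (2 - 4 * rsq x)

/-- The weight of the scales larger than `1 / κ`, comparable with `min (κ², 1 / rsq)`. -/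
noncomputable def bk (κ : ℝ) (x : E3) : ℝ := κ ^ 2 / (1 + κ ^ 2 * rsq x)

/-- Regularised distance to the axis. -/
noncomputable def rd (δ : ℝ) (x : E3) : ℝ := √(rsq x + δ ^ 2)

/-- The weight of the scales smaller than `1 / κ`, comparable there with `κ / rad`. -/
noncomputable def ck (κ δ : ℝ) (x : E3) : ℝ := κ / (rd δ x * (1 + κ * (rd δ x - δ)) ^ 2)

/-- The flux term. -/
noncomputable def flx (L a : ℝ) (v : E3 → E3) (f : E3 → ℝ) : ℝ := (∫ x, f x ^ 2 * adv (v x) (A1 L a) x) / 2

/-- The second derivatives of the weight. -/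
noncomputable def lpx (L a : ℝ) (f : E3 → ℝ) : ℝ :=
  (∫ x, f x ^ 2 * (lap (A1 L a) x - 2 / rsq x * rdr (A1 L a) x)) / 2

end Pool.Agent.H90.EP
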