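import Pool.Agent.H90.EP.Df

/-
ROW On_Dv. Divergence theorem for the operator `(1/r) ∂_r`. Independent of the other rows. Aux lemmas prefixed Dv_ .
-/

set_option autoImplicit false

open Set Filter Topology MeasureTheory
open scoped ContDiff

namespace Pool.Agent.H90.EP

open Pool.Agent.H16 Pool.Agent.H72.CC Pool.Agent.H94.EP Pool.Agent.H87.EP
open Pool.Agent.H87.NS hiding c1
open Pool.Agent.H16.TU hiding Sl

theorem ibz {p q : E3 → ℝ} (hp : Differentiable ℝ p) (hq : Differentiable ℝ q) (i : Fin 3)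
    (h1 : Integrable (fun x => p x * pd i q x)) (h2 : Integrable (fun x => pd i p x * q x)) (h3 : Integrable (fun x => p x * q x)) :
    ∫ x, p x * pd i q x = - ∫ x, pd i p x * q x :=
  integral_mul_fderiv_eq_neg_fderiv_mul_of_integrable (v := e i) h2 h1 h3
    (fun x _ => hp x) (fun x _ => hq x)

theorem div0 {F : E3 → ℝ} (hF : Differentiable ℝ F) (i : Fin 3) (h1 : Integrable F) (h2 : Integrable (pd i F)) : ∫ x, pd i F x = 0 := by
  have h0 : ∀ x, pd i (fun _ : E3 => (1 : ℝ)) x = 0 := by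
    intro x
    unfold pd
    simp
  have h := ibz (p := fun _ : E3 => (1 : ℝ)) (q := F) (differentiable_const _) hF i
    (by simpa using h2) (by simp [h0]) (by simpa using h1)
  simpa [h0] using h

theorem Dv_null : ∀ᵐ x : E3, 0 < rsq x := by
  have h : volume {x : E3 | x 0 = 0} = 0 := by
    have hs : LinearMap.ker (EuclideanSpace.proj (𝕜 := ℝ) (0 : Fin 3) : E3 →L[ℝ] ℝ).toLinearMap ≠ ⊤ := by
      intro h1
      have h2 : e 0 ∈ LinearMap.ker (EuclideanSpace.proj (𝕜 := ℝ) (0 : Fin 3) : E3 →L[ℝ] ℝ).toLinearMap := by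
        rw [h1]
        trivial
      rw [LinearMap.mem_ker] at h2
      simp [e] at h2
    have h3 := Measure.addHaar_submodule (volume : Measure E3) _ hs
    exact h3
  rw [ae_iff]
  refine measure_mono_null (fun x hx => ?_) h
  have hx : rsq x ≤ 0 := not_lt.1 hx
  show x 0 = 0
  unfold rsq at hx
  have h4 : x 0 ^ 2 ≤ 0 := by nlinarith [sq_nonneg (x 1)]
  have h5 : x 0 ^ 2 = 0 := le_antisymm h4 (sq_nonneg _)
  exact pow_eq_zero_iff (two_ne_zero) |>.1 h5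

theorem Dv_rsq_nonneg (x : E3) : 0 ≤ rsq x := by
  unfold rsq
  positivity

theorem Dv_rsq_cont : Continuous (rsq : E3 → ℝ) := by
  unfold rsq
  fun_prop

theorem Dv_coord (k : Fin 3) : Differentiable ℝ (fun y : E3 => y k) :=
  (EuclideanSpace.proj (𝕜 := ℝ) k : E3 →L[ℝ] ℝ).differentiable

theorem Dv_pd_mul {f g : E3 → ℝ} {x : E3} (hf : DifferentiableAt ℝ f x) (hg : DifferentiableAt ℝ g x) (i : Fin 3) :
    pd i (fun y => f y * g y) x = pd i f x * g x + f x * pd i g x := by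
  unfold pd
  rw [fderiv_fun_mul hf hg]
  simp only [_root_.add_apply, _root_.smul_apply, smul_eq_mul]
  ring

theorem Dv_rsq_has (x : E3) : HasFDerivAt (rsq : E3 → ℝ)
    ((2 * x 0) • (EuclideanSpace.proj (𝕜 := ℝ) (0 : Fin 3) : E3 →L[ℝ] ℝ) +
      (2 * x 1) • (EuclideanSpace.proj (𝕜 := ℝ) (1 : Fin 3) : E3 →L[ℝ] ℝ)) x := by
  have h0 : ∀ k : Fin 3, HasFDerivAt (fun y : E3 => y k) (EuclideanSpace.proj (𝕜 := ℝ) k : E3 →L[ℝ] ℝ) x :=
    fun k => (EuclideanSpace.proj (𝕜 := ℝ) k : E3 →L[ℝ] ℝ).hasFDerivAt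
  have h : HasFDerivAt (rsq : E3 → ℝ) _ x := ((h0 0).pow 2).add ((h0 1).pow 2)
  refine h.congr_fderiv ?_
  ext y
  simp

/-- the field component and its derivative -/
theorem Dv_u {ε : ℝ} (hε : 0 < ε) (i : Fin 3) (hi : i = 0 ∨ i = 1) (x : E3) :
    DifferentiableAt ℝ (fun y : E3 => y i * (rsq y + ε)⁻¹) x ∧
      pd i (fun y : E3 => y i * (rsq y + ε)⁻¹) x = (rsq x + ε)⁻¹ - 2 * x i ^ 2 * ((rsq x + ε)⁻¹) ^ 2 := by
  have hp : rsq x + ε ≠ 0 := by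
    have := Dv_rsq_nonneg x
    positivity
  have h1 : HasFDerivAt (fun y : E3 => y i) (EuclideanSpace.proj (𝕜 := ℝ) i : E3 →L[ℝ] ℝ) x :=
    (EuclideanSpace.proj (𝕜 := ℝ) i : E3 →L[ℝ] ℝ).hasFDerivAt
  have h2 := ((Dv_rsq_has x).add_const ε)
  have h3 := (hasDerivAt_inv hp).comp_hasFDerivAt x h2
  have h4 := h1.mul h3
  refine ⟨h4.differentiableAt, ?_⟩
  have h5 : pd i (fun y : E3 => y i * (rsq y + ε)⁻¹) x = _ := congrArg (fun A : E3 →L[ℝ] ℝ => A (e i)) h4.fderiv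
  rw [h5]
  rcases hi with rfl | rfl
  · simp [e]
    field_simp
    ring
  · simp [e]
    field_simp
    ring

theorem Dv_ub {ε : ℝ} (hε : 0 < ε) (i : Fin 3) (hi : i = 0 ∨ i = 1) (x : E3) :
    |x i * (rsq x + ε)⁻¹| ≤ 1 + ε⁻¹ ∧ |(rsq x + ε)⁻¹ - 2 * x i ^ 2 * ((rsq x + ε)⁻¹) ^ 2| ≤ 3 * ε⁻¹ := by
  have h0 := Dv_rsq_nonneg x
  have hx : x i ^ 2 ≤ rsq x := by
    unfold rsq
    rcases hi with rfl | rfl
    · nlinarith [sq_nonneg (x 1)]
    · nlinarith [sq_nonneg (x 0)]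
  have hp : 0 < rsq x + ε := by positivity
  obtain ⟨w, hw⟩ : ∃ w, w = (rsq x + ε)⁻¹ := ⟨_, rfl⟩
  have hw0 : 0 < w := by rw [hw]; positivity
  have hw1 : (rsq x + ε) * w = 1 := by rw [hw]; exact mul_inv_cancel₀ hp.ne'
  have hwe : w ≤ ε⁻¹ := by
    rw [hw]
    exact inv_anti₀ hε (by linarith)
  have hrw : rsq x * w ≤ 1 := by nlinarith
  have hxw : x i ^ 2 * w ≤ 1 := (mul_le_mul_of_nonneg_right hx hw0.le).trans hrw
  rw [← hw]
  constructor
  · rw [abs_mul, abs_of_pos hw0]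
    have h1 : |x i| ≤ 1 + x i ^ 2 := by
      rw [← sq_abs (x i)]
      nlinarith [sq_nonneg (|x i| - 1), abs_nonneg (x i)]
    calc |x i| * w ≤ (1 + x i ^ 2) * w := mul_le_mul_of_nonneg_right h1 hw0.le
      _ = w + x i ^ 2 * w := by ring
      _ ≤ 1 + ε⁻¹ := by linarith
  · have h2 : 0 ≤ x i ^ 2 * w ^ 2 := by positivity
    have h3 : x i ^ 2 * w ^ 2 ≤ w := by
      calc x i ^ 2 * w ^ 2 = (x i ^ 2 * w) * w := by ring
        _ ≤ 1 * w := mul_le_mul_of_nonneg_right hxw hw0.le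
        _ = w := one_mul w
    rw [abs_le]
    constructor <;> nlinarith

theorem Dv_cont {ε : ℝ} (hε : 0 < ε) : Continuous (fun x : E3 => (rsq x + ε)⁻¹) := by
  refine (Dv_rsq_cont.add continuous_const).inv₀ fun x => ?_
  have h := Dv_rsq_nonneg x
  have h1 : rsq x + ε ≠ 0 := by positivity
  exact h1

theorem Dv_bdd {u f : E3 → ℝ} {C : ℝ} (hu : Continuous u) (hC : ∀ x, |u x| ≤ C) (hf : Integrable f) :
    Integrable (fun x => u x * f x) := by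
  refine Integrable.mono' (hf.abs.const_mul C) (hu.aestronglyMeasurable.mul hf.aestronglyMeasurable)
    (Eventually.of_forall fun x => ?_)
  rw [Real.norm_eq_abs, abs_mul]
  exact mul_le_mul_of_nonneg_right (hC x) (abs_nonneg _)

theorem Dv_one {F : E3 → ℝ} (hF : Differentiable ℝ F) (h0 : Integrable F) {i : Fin 3} (hi : i = 0 ∨ i = 1)
    (h1 : Integrable (pd i F)) {ε : ℝ} (hε : 0 < ε) :
    Integrable (fun x => ((rsq x + ε)⁻¹ - 2 * x i ^ 2 * ((rsq x + ε)⁻¹) ^ 2) * F x + (x i * (rsq x + ε)⁻¹) * pd i F x) ∧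
      ∫ x, (((rsq x + ε)⁻¹ - 2 * x i ^ 2 * ((rsq x + ε)⁻¹) ^ 2) * F x + (x i * (rsq x + ε)⁻¹) * pd i F x) = 0 := by
  have hw := Dv_cont hε
  have hxi : Continuous (fun x : E3 => x i) := (Dv_coord i).continuous
  have c1 : Continuous (fun x : E3 => x i * (rsq x + ε)⁻¹) := hxi.mul hw
  have c2 : Continuous (fun x : E3 => (rsq x + ε)⁻¹ - 2 * x i ^ 2 * ((rsq x + ε)⁻¹) ^ 2) :=
    hw.sub ((continuous_const.mul (hxi.pow 2)).mul (hw.pow 2))
  have i1 := Dv_bdd c1 (fun x => (Dv_ub hε i hi x).1) h0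
  have i2 := Dv_bdd c2 (fun x => (Dv_ub hε i hi x).2) h0
  have i3 := Dv_bdd c1 (fun x => (Dv_ub hε i hi x).1) h1
  have i4 := i2.add i3
  have hd : Differentiable ℝ (fun x => (x i * (rsq x + ε)⁻¹) * F x) := fun x => (Dv_u hε i hi x).1.mul (hF x)
  have hpd : pd i (fun x => (x i * (rsq x + ε)⁻¹) * F x) =
      fun x => ((rsq x + ε)⁻¹ - 2 * x i ^ 2 * ((rsq x + ε)⁻¹) ^ 2) * F x + (x i * (rsq x + ε)⁻¹) * pd i F x := by
    funext x
    rw [Dv_pd_mul (Dv_u hε i hi x).1 (hF x), (Dv_u hε i hi x).2]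
  refine ⟨i4, ?_⟩
  have h := div0 hd i i1 (by rw [hpd]; exact i4)
  rw [hpd] at h
  exact h

/-- the identity with the regularised weight -/
theorem Dv_main {F H : E3 → ℝ} (hF : Differentiable ℝ F) (h0 : Integrable F) (h1 : Integrable (pd 0 F)) (h2 : Integrable (pd 1 F))
    (hr : ∀ x, rdr F x = rsq x * H x) (hH : Integrable H) {ε : ℝ} (hε : 0 < ε) :
    ∫ x, (rsq x * (rsq x + ε)⁻¹) * H x = - ∫ x, (2 * ε * ((rsq x + ε)⁻¹) ^ 2) * F x := by
  obtain ⟨a1, a2⟩ := Dv_one hF h0 (i := 0) (Or.inl rfl) h1 hε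
  obtain ⟨b1, b2⟩ := Dv_one hF h0 (i := 1) (Or.inr rfl) h2 hε
  have hw := Dv_cont hε
  have hwb : ∀ x : E3, 0 < (rsq x + ε)⁻¹ ∧ (rsq x + ε)⁻¹ ≤ ε⁻¹ ∧ rsq x * (rsq x + ε)⁻¹ ≤ 1 := by
    intro x
    have h3 := Dv_rsq_nonneg x
    have h4 : 0 < rsq x + ε := by positivity
    refine ⟨by positivity, inv_anti₀ hε (by linarith), ?_⟩
    rw [← div_eq_mul_inv, div_le_one h4]
    linarith
  have c1 : Integrable (fun x => (rsq x * (rsq x + ε)⁻¹) * H x) := by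
    refine Dv_bdd (C := 1) (Dv_rsq_cont.mul hw) (fun x => ?_) hH
    rw [abs_of_nonneg (mul_nonneg (Dv_rsq_nonneg x) (hwb x).1.le)]
    exact (hwb x).2.2
  have c2 : Integrable (fun x => (2 * ε * ((rsq x + ε)⁻¹) ^ 2) * F x) := by
    refine Dv_bdd (C := 2 * ε * (ε⁻¹) ^ 2) (continuous_const.mul (hw.pow 2)) (fun x => ?_) h0
    rw [abs_of_nonneg (by positivity)]
    have h5 := hwb x
    have h6 : ((rsq x + ε)⁻¹) ^ 2 ≤ (ε⁻¹) ^ 2 := pow_le_pow_left₀ h5.1.le h5.2.1 2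
    exact mul_le_mul_of_nonneg_left h6 (by positivity)
  have h3 := integral_add a1 b1
  rw [a2, b2, add_zero] at h3
  have h4 : (fun x => (((rsq x + ε)⁻¹ - 2 * x 0 ^ 2 * ((rsq x + ε)⁻¹) ^ 2) * F x + (x 0 * (rsq x + ε)⁻¹) * pd 0 F x) +
      (((rsq x + ε)⁻¹ - 2 * x 1 ^ 2 * ((rsq x + ε)⁻¹) ^ 2) * F x + (x 1 * (rsq x + ε)⁻¹) * pd 1 F x)) =
      fun x => (2 * ε * ((rsq x + ε)⁻¹) ^ 2) * F x + (rsq x * (rsq x + ε)⁻¹) * H x := by
    funext x
    have h5 := hr x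
    have h6 : (rsq x + ε) * (rsq x + ε)⁻¹ = 1 := by
      refine mul_inv_cancel₀ ?_
      have := Dv_rsq_nonneg x
      positivity
    obtain ⟨w, hw⟩ : ∃ w, w = (rsq x + ε)⁻¹ := ⟨_, rfl⟩
    rw [← hw] at h6 ⊢
    have h7 : rsq x = x 0 ^ 2 + x 1 ^ 2 := rfl
    have h8 : x 0 * pd 0 F x + x 1 * pd 1 F x = rsq x * H x := h5
    calc (w - 2 * x 0 ^ 2 * w ^ 2) * F x + x 0 * w * pd 0 F x + ((w - 2 * x 1 ^ 2 * w ^ 2) * F x + x 1 * w * pd 1 F x)
        = 2 * w * F x - 2 * (x 0 ^ 2 + x 1 ^ 2) * w ^ 2 * F x + w * (x 0 * pd 0 F x + x 1 * pd 1 F x) := by ring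
      _ = 2 * w * ((rsq x + ε) * w) * F x - 2 * rsq x * w ^ 2 * F x + w * (rsq x * H x) := by rw [h8, ← h7, h6]; ring
      _ = _ := by ring
  have h5 : (fun x => (((rsq x + ε)⁻¹ - 2 * x 0 ^ 2 * ((rsq x + ε)⁻¹) ^ 2) * F x + (x 0 * (rsq x + ε)⁻¹) * pd 0 F x)) +
      (fun x => (((rsq x + ε)⁻¹ - 2 * x 1 ^ 2 * ((rsq x + ε)⁻¹) ^ 2) * F x + (x 1 * (rsq x + ε)⁻¹) * pd 1 F x)) =
      fun x => (2 * ε * ((rsq x + ε)⁻¹) ^ 2) * F x + (rsq x * (rsq x + ε)⁻¹) * H x := h4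
  have h6 : ∫ x, ((2 * ε * ((rsq x + ε)⁻¹) ^ 2) * F x + (rsq x * (rsq x + ε)⁻¹) * H x) = 0 := by
    rw [← h5]
    exact h3
  rw [integral_add c2 c1] at h6
  linarith

theorem Dv_lim {H : E3 → ℝ} (hH : Integrable H) :
    Tendsto (fun n : ℕ => ∫ x, (rsq x * (rsq x + 1 / ((n : ℝ) + 1))⁻¹) * H x) atTop (𝓝 (∫ x, H x)) := by
  have he : ∀ n : ℕ, (0 : ℝ) < 1 / ((n : ℝ) + 1) := fun n => by positivity
  refine tendsto_integral_of_dominated_convergence (fun x => |H x|) (fun n => ?_) hH.abs (fun n => ?_) ?_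
  · exact ((Dv_rsq_cont.mul (Dv_cont (he n))).aestronglyMeasurable).mul hH.aestronglyMeasurable
  · refine Eventually.of_forall fun x => ?_
    have h3 := Dv_rsq_nonneg x
    have h4 : 0 < rsq x + 1 / ((n : ℝ) + 1) := by have := he n; positivity
    have h5 : rsq x * (rsq x + 1 / ((n : ℝ) + 1))⁻¹ ≤ 1 := by
      rw [← div_eq_mul_inv, div_le_one h4]
      have := he n
      linarith
    rw [Real.norm_eq_abs, abs_mul, abs_of_nonneg (mul_nonneg h3 (by positivity))]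
    calc rsq x * (rsq x + 1 / ((n : ℝ) + 1))⁻¹ * |H x| ≤ 1 * |H x| := mul_le_mul_of_nonneg_right h5 (abs_nonneg _)
      _ = |H x| := one_mul _
  · filter_upwards [Dv_null] with x hx
    have h1 : Tendsto (fun n : ℕ => 1 / ((n : ℝ) + 1)) atTop (𝓝 0) := tendsto_one_div_add_atTop_nhds_zero_nat
    have h2 : Tendsto (fun n : ℕ => rsq x + 1 / ((n : ℝ) + 1)) atTop (𝓝 (rsq x + 0)) := tendsto_const_nhds.add h1
    rw [add_zero] at h2
    have h3 := ((h2.inv₀ hx.ne').const_mul (rsq x)).mul_const (H x)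
    rw [mul_inv_cancel₀ hx.ne', one_mul] at h3
    exact h3

theorem div_le {F H : E3 → ℝ} (hF : Differentiable ℝ F) (h0 : Integrable F) (h1 : Integrable (pd 0 F)) (h2 : Integrable (pd 1 F))
    (hr : ∀ x, rdr F x = rsq x * H x) (hH : Integrable H) (hn : ∀ x, 0 ≤ F x) : ∫ x, H x ≤ 0 := by
  refine le_of_tendsto' (Dv_lim hH) fun n => ?_
  have he : (0 : ℝ) < 1 / ((n : ℝ) + 1) := by positivity
  rw [Dv_main hF h0 h1 h2 hr hH he]
  have h3 : 0 ≤ ∫ x, (2 * (1 / ((n : ℝ) + 1)) * ((rsq x + 1 / ((n : ℝ) + 1))⁻¹) ^ 2) * F x := by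
    refine integral_nonneg fun x => mul_nonneg ?_ (hn x)
    positivity
  linarith

theorem div_eq {F G H : E3 → ℝ} (hF : Differentiable ℝ F) (h0 : Integrable F) (h1 : Integrable (pd 0 F)) (h2 : Integrable (pd 1 F))
    (hr : ∀ x, rdr F x = rsq x * H x) (hH : Integrable H) (hg : ∀ x, F x = rsq x * G x) (hG : Integrable G) : ∫ x, H x = 0 := by
  refine tendsto_nhds_unique (Dv_lim hH) ?_
  have he : ∀ n : ℕ, (0 : ℝ) < 1 / ((n : ℝ) + 1) := fun n => by positivity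
  have h3 : (fun n : ℕ => ∫ x, (rsq x * (rsq x + 1 / ((n : ℝ) + 1))⁻¹) * H x) =
      fun n : ℕ => - ∫ x, (2 * (1 / ((n : ℝ) + 1)) * ((rsq x + 1 / ((n : ℝ) + 1))⁻¹) ^ 2 * rsq x) * G x := by
    funext n
    rw [Dv_main hF h0 h1 h2 hr hH (he n)]
    congr 1
    refine integral_congr_ae (Eventually.of_forall fun x => ?_)
    simp only
    rw [hg x]
    ring
  rw [h3, ← neg_zero, ← integral_zero E3 ℝ]
  refine Tendsto.neg ?_
  refine tendsto_integral_of_dominated_convergence (fun x => 2 * |G x|) (fun n => ?_) (hG.abs.const_mul 2) (fun n => ?_) ?_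
  · exact (((continuous_const.mul ((Dv_cont (he n)).pow 2)).mul Dv_rsq_cont).aestronglyMeasurable).mul hG.aestronglyMeasurable
  · refine Eventually.of_forall fun x => ?_
    have h4 := Dv_rsq_nonneg x
    obtain ⟨ε, hε⟩ : ∃ ε, ε = 1 / ((n : ℝ) + 1) := ⟨_, rfl⟩
    have he' := he n
    rw [← hε] at he' ⊢
    have h5 : 0 < rsq x + ε := by positivity
    obtain ⟨w, hw⟩ : ∃ w, w = (rsq x + ε)⁻¹ := ⟨_, rfl⟩
    have hw0 : 0 < w := by rw [hw]; positivity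
    have hw1 : (rsq x + ε) * w = 1 := by rw [hw]; exact mul_inv_cancel₀ h5.ne'
    rw [← hw]
    have h6 : rsq x * w ≤ 1 := by nlinarith
    have h7 : ε * w ≤ 1 := by nlinarith [mul_nonneg h4 hw0.le]
    have h8 : 0 ≤ 2 * ε * w ^ 2 * rsq x := by positivity
    have h9 : 2 * ε * w ^ 2 * rsq x ≤ 2 := by
      calc 2 * ε * w ^ 2 * rsq x = 2 * ((ε * w) * (rsq x * w)) := by ring
        _ ≤ 2 * (1 * 1) := by
          refine mul_le_mul_of_nonneg_left (mul_le_mul h7 h6 (by positivity) zero_le_one) (by norm_num)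
        _ = 2 := by norm_num
    rw [Real.norm_eq_abs, abs_mul, abs_of_nonneg h8]
    exact mul_le_mul_of_nonneg_right h9 (abs_nonneg _)
  · filter_upwards [Dv_null] with x hx
    have h1 : Tendsto (fun n : ℕ => 1 / ((n : ℝ) + 1)) atTop (𝓝 0) := tendsto_one_div_add_atTop_nhds_zero_nat
    have h2 : Tendsto (fun n : ℕ => rsq x + 1 / ((n : ℝ) + 1)) atTop (𝓝 (rsq x + 0)) := tendsto_const_nhds.add h1
    rw [add_zero] at h2
    have h3 := ((((h1.const_mul 2).mul ((h2.inv₀ hx.ne').pow 2)).mul_const (rsq x)).mul_const (G x))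
    simpa using h3

end Pool.Agent.H90.EP
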