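import Pool.Agent.H90.EP.Df

/-
The cell lemma with two functions.
-/

set_option autoImplicit false

open Set Filter Topology MeasureTheory
open scoped ContDiff

namespace Pool.Agent.H90.EP

open Pool.Agent.H16 Pool.Agent.H72.CC Pool.Agent.H94.EP Pool.Agent.H87.EP
open Pool.Agent.H87.NS hiding c1
open Pool.Agent.H16.TU hiding Sl

/-- The cutoff along the axis. -/
private noncomputable def Fa_eta (t : ℝ) : ℝ := Real.smoothTransition (2 - 4 * t ^ 2)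

private theorem Fa_eta_smooth : ContDiff ℝ ∞ Fa_eta :=
  Real.smoothTransition.contDiff.comp (contDiff_const.sub (contDiff_const.mul (contDiff_id.pow 2)))

private theorem Fa_eta_nn (t : ℝ) : 0 ≤ Fa_eta t := Real.smoothTransition.nonneg _

private theorem Fa_eta_le (t : ℝ) : Fa_eta t ≤ 1 := Real.smoothTransition.le_one _

private theorem Fa_eta_one {t : ℝ} (h : t ^ 2 ≤ 1 / 4) : Fa_eta t = 1 :=
  Real.smoothTransition.one_of_one_le (by linarith)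

private theorem Fa_eta_zero {t : ℝ} (h : 1 / 2 ≤ t ^ 2) : Fa_eta t = 0 :=
  Real.smoothTransition.zero_of_nonpos (by linarith)

private theorem Fa_eta_cpt : HasCompactSupport Fa_eta := by
  refine HasCompactSupport.intro (isCompact_Icc : IsCompact (Icc (-1:ℝ) 1)) fun t ht => ?_
  apply Fa_eta_zero
  rw [mem_Icc, not_and_or, not_le, not_le] at ht
  rcases ht with h | h <;> nlinarith

private theorem Fa_deta_cont : Continuous (deriv Fa_eta) := Fa_eta_smooth.continuous_deriv (by simp)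

private theorem Fa_deta_bd : ∃ M : ℝ, ∀ t, |deriv Fa_eta t| ≤ M :=
  Fa_deta_cont.bounded_above_of_compact_support Fa_eta_cpt.deriv

private theorem Fa_int1 : Integrable (fun t => Fa_eta t ^ 2) := by
  refine (Fa_eta_smooth.continuous.pow 2).integrable_of_hasCompactSupport ?_
  have h1 : HasCompactSupport (Fa_eta * Fa_eta) := Fa_eta_cpt.mul_right
  rw [← pow_two] at h1
  exact h1

private theorem Fa_int2 : Integrable (fun t => deriv Fa_eta t ^ 2) := by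
  refine (Fa_deta_cont.pow 2).integrable_of_hasCompactSupport ?_
  have h1 : HasCompactSupport (deriv Fa_eta * deriv Fa_eta) := Fa_eta_cpt.deriv.mul_right
  rw [← pow_two] at h1
  exact h1

private theorem Fa_one_le : 1 ≤ ∫ t, Fa_eta t ^ 2 := by
  have h1 : ∫ t in Icc (-(1/2):ℝ) (1/2), (1:ℝ) = 1 := by
    rw [setIntegral_const, smul_eq_mul, mul_one, Real.volume_real_Icc_of_le (by norm_num)]
    norm_num
  have h2 : ∫ t in Icc (-(1/2):ℝ) (1/2), (1:ℝ) ≤ ∫ t in Icc (-(1/2):ℝ) (1/2), Fa_eta t ^ 2 := by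
    refine setIntegral_mono_on ?_ Fa_int1.integrableOn measurableSet_Icc fun t ht => ?_
    · exact (continuous_const.integrableOn_Icc)
    · rw [Fa_eta_one (by rw [mem_Icc] at ht; nlinarith)]
      norm_num
  have h3 : ∫ t in Icc (-(1/2):ℝ) (1/2), Fa_eta t ^ 2 ≤ ∫ t, Fa_eta t ^ 2 :=
    setIntegral_le_integral Fa_int1 (Eventually.of_forall fun t => sq_nonneg _)
  linarith

private theorem Fa_ton {F : E3 → ℝ} {k : ℝ → ℝ} (hF : Continuous F) (hFi : Integrable F) (hk : Continuous k)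
    (hki : Integrable k) : Integrable (fun z : ℝ => ∫ x : E3, F x * k (x 2 - z)) ∧
      ∫ z : ℝ, ∫ x : E3, F x * k (x 2 - z) = (∫ t, k t) * ∫ x, F x := by
  have hc : Continuous (fun p : ℝ × E3 => F p.2 * k (p.2 2 - p.1)) := by
    have h2 : Continuous (fun p : ℝ × E3 => p.2 2) := (EuclideanSpace.proj (2 : Fin 3) : E3 →L[ℝ] ℝ).continuous.comp continuous_snd
    exact (hF.comp continuous_snd).mul (hk.comp (h2.sub continuous_fst))
  have hi : Integrable (Function.uncurry fun (z : ℝ) (x : E3) => F x * k (x 2 - z)) (volume.prod volume) := by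
    refine (integrable_prod_iff' hc.aestronglyMeasurable).2 ⟨?_, ?_⟩
    · refine Eventually.of_forall fun x => ?_
      exact (hki.comp_sub_left (x 2)).const_mul (F x)
    · have h1 : (fun x : E3 => ∫ z : ℝ, ‖F x * k (x 2 - z)‖) = fun x => ‖F x‖ * ∫ t, ‖k t‖ := by
        funext x
        simp only [norm_mul]
        rw [integral_const_mul, integral_sub_left_eq_self (fun t => ‖k t‖) volume (x 2)]
      exact h1 ▸ hFi.norm.mul_const _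
  refine ⟨hi.integral_prod_left, ?_⟩
  rw [integral_integral_swap hi]
  have h3 : ∀ x : E3, ∫ z : ℝ, F x * k (x 2 - z) = F x * ∫ t, k t := fun x => by
    rw [integral_const_mul, integral_sub_left_eq_self k volume (x 2)]
  simp only [h3]
  rw [integral_mul_const, mul_comm]

private theorem Fa_cs {μ : Measure E3} {F G : E3 → ℝ} (hF : AEStronglyMeasurable F μ) (hG : AEStronglyMeasurable G μ)
    (hF2 : Integrable (fun x => F x ^ 2) μ) (hG2 : Integrable (fun x => G x ^ 2) μ) (hFn : ∀ x, 0 ≤ F x) (hGn : ∀ x, 0 ≤ G x) :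
    ∫ x, F x * G x ∂μ ≤ √(∫ x, F x ^ 2 ∂μ) * √(∫ x, G x ^ 2 ∂μ) := by
  have hF' : MemLp F (ENNReal.ofReal 2) μ := by
    rw [ENNReal.ofReal_ofNat]
    exact (memLp_two_iff_integrable_sq hF).2 hF2
  have hG' : MemLp G (ENNReal.ofReal 2) μ := by
    rw [ENNReal.ofReal_ofNat]
    exact (memLp_two_iff_integrable_sq hG).2 hG2
  have h1 := MeasureTheory.integral_mul_le_Lp_mul_Lq_of_nonneg Real.HolderConjugate.two_two
    (Eventually.of_forall hFn) (Eventually.of_forall hGn) hF' hG'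
  simp only [Real.rpow_two] at h1
  rw [Real.sqrt_eq_rpow, Real.sqrt_eq_rpow]
  exact h1

private theorem Fa_alg {T A H K S θ : ℝ} (hA : 0 ≤ A) (hH : 0 ≤ H) (hS : 0 ≤ S) (hθ : 0 < θ)
    (h : T ^ 4 ≤ K ^ 2 * (S * A) ^ 3 * H) : T ≤ θ * A + K ^ 2 * S ^ 3 / θ ^ 3 * H := by
  have hX : 0 ≤ θ * A := by positivity
  have hY : 0 ≤ K ^ 2 * S ^ 3 / θ ^ 3 * H := by positivity
  have h1 : (θ * A) ^ 3 * (K ^ 2 * S ^ 3 / θ ^ 3 * H) = K ^ 2 * (S * A) ^ 3 * H := by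
    field_simp
  have h2 : (θ * A) ^ 3 * (K ^ 2 * S ^ 3 / θ ^ 3 * H) ≤ (θ * A + K ^ 2 * S ^ 3 / θ ^ 3 * H) ^ 4 := by
    obtain ⟨X, hX'⟩ : ∃ X, X = θ * A := ⟨_, rfl⟩
    obtain ⟨Y, hY'⟩ : ∃ Y, Y = K ^ 2 * S ^ 3 / θ ^ 3 * H := ⟨_, rfl⟩
    rw [← hX', ← hY']
    rw [← hX'] at hX
    rw [← hY'] at hY
    have e : (X + Y) ^ 4 = X ^ 3 * Y + (X ^ 4 + 3 * (X ^ 3 * Y) + 6 * (X ^ 2 * Y ^ 2) + 4 * (X * Y ^ 3) + Y ^ 4) := by ring
    rw [e]
    have : 0 ≤ X ^ 4 + 3 * (X ^ 3 * Y) + 6 * (X ^ 2 * Y ^ 2) + 4 * (X * Y ^ 3) + Y ^ 4 := by positivity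
    linarith
  exact le_of_pow_le_pow_left₀ (by norm_num) (by positivity) ((h.trans h1.ge).trans h2)

private theorem Fa_32 {a b : ℝ} : a ^ 3 * b ≤ (a ^ 2 + b ^ 2) ^ 2 := by
  nlinarith [mul_nonneg (sq_nonneg a) (sq_nonneg (a - b)), sq_nonneg (a * b), sq_nonneg (b ^ 2),
    sq_nonneg (a ^ 2)]

private theorem Fa_fix {K B θ : ℝ} {v : E3 → E3} {g h q : E3 → ℝ} (hv : Continuous v) (hv2 : Integrable (fun x => ‖v x‖ ^ 2))
    (hθ : 0 < θ) (hK : 0 ≤ K) {z : ℝ} (hb : ∫ x in Metric.ball (axp z) 1, ‖v x‖ ^ 2 ≤ K)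
    (hg : ContDiff ℝ 1 g) (hgB : DB 1 B g) (hh : Continuous h) (hh2 : Integrable (fun x => h x ^ 2)) (hq : Continuous q)
    (hqe : ∀ x, q x ^ 2 ≤ |g x| ^ 3 * |h x|) (h0 : ∀ x, x ∉ Metric.ball (axp z) 1 → q x = 0) :
    ∫ x, ‖v x‖ * |q x| ≤ θ * (∫ x, gsq g x) + K ^ 2 * SB ^ 3 / θ ^ 3 * ∫ x, h x ^ 2 := by
  obtain ⟨hg6, hS⟩ := SB_spec hg hgB
  have hSB := SB_pos
  have hA : 0 ≤ ∫ x, gsq g x := integral_nonneg fun x => gsq_nonneg g x
  have hH : 0 ≤ ∫ x, h x ^ 2 := integral_nonneg fun x => sq_nonneg _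
  have hG6 : 0 ≤ ∫ x, g x ^ 6 := integral_nonneg fun x => by positivity
  have hgc := hg.continuous
  have e6 : ∀ x, (|g x| ^ 3) ^ 2 = g x ^ 6 := fun x => by
    have h1 : (|g x| ^ 3) ^ 2 = (|g x| ^ 2) ^ 3 := by ring
    rw [h1, sq_abs]
    ring
  have e2 : ∀ x, |h x| ^ 2 = h x ^ 2 := fun x => sq_abs _
  have i6 : Integrable (fun x => (|g x| ^ 3) ^ 2) := by
    simp only [e6]
    exact hg6
  have i2 : Integrable (fun x => |h x| ^ 2) := by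
    simp only [e2]
    exact hh2
  have c3 : Continuous (fun x => |g x| ^ 3) := hgc.abs.pow 3
  have i32 : Integrable (fun x => |g x| ^ 3 * |h x|) := by
    refine Integrable.mono' (i6.add i2) (c3.mul hh.abs).aestronglyMeasurable (Eventually.of_forall fun x => ?_)
    rw [Real.norm_eq_abs, abs_of_nonneg (by positivity)]
    have h1 : 0 ≤ |g x| ^ 3 := by positivity
    have h2 : 0 ≤ |h x| := abs_nonneg _
    show _ ≤ (|g x| ^ 3) ^ 2 + |h x| ^ 2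
    linarith only [sq_nonneg (|g x| ^ 3 - |h x|), mul_nonneg h1 h2]
  have iq : Integrable (fun x => |q x| ^ 2) := by
    refine Integrable.mono' i32 (hq.abs.pow 2).aestronglyMeasurable (Eventually.of_forall fun x => ?_)
    rw [Real.norm_eq_abs, abs_of_nonneg (by positivity), sq_abs]
    exact hqe x
  have h1 : ∫ x, ‖v x‖ * |q x| = ∫ x in Metric.ball (axp z) 1, ‖v x‖ * |q x| := by
    rw [setIntegral_eq_integral_of_forall_compl_eq_zero]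
    intro x hx
    rw [h0 x hx, abs_zero, mul_zero]
  have h2 : ∫ x in Metric.ball (axp z) 1, ‖v x‖ * |q x| ≤
      √(∫ x in Metric.ball (axp z) 1, ‖v x‖ ^ 2) * √(∫ x in Metric.ball (axp z) 1, |q x| ^ 2) :=
    Fa_cs hv.norm.aestronglyMeasurable hq.abs.aestronglyMeasurable hv2.integrableOn iq.integrableOn
      (fun x => norm_nonneg _) (fun x => abs_nonneg _)
  have h3 : ∫ x in Metric.ball (axp z) 1, |q x| ^ 2 ≤ ∫ x, |g x| ^ 3 * |h x| :=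
    (setIntegral_le_integral iq (Eventually.of_forall fun x => by positivity)).trans
      (integral_mono iq i32 fun x => by
        show |q x| ^ 2 ≤ _
        rw [sq_abs]
        exact hqe x)
  have h4 : ∫ x, |g x| ^ 3 * |h x| ≤ √(∫ x, (|g x| ^ 3) ^ 2) * √(∫ x, |h x| ^ 2) :=
    Fa_cs c3.aestronglyMeasurable hh.abs.aestronglyMeasurable i6 i2 (fun x => by positivity) (fun x => abs_nonneg _)
  simp only [e6, e2] at h4
  obtain ⟨Q, hQ⟩ : ∃ Q, Q = ∫ x, |g x| ^ 3 * |h x| := ⟨_, rfl⟩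
  rw [← hQ] at h3 h4
  have hQ0 : 0 ≤ Q := by
    rw [hQ]
    exact integral_nonneg fun x => by positivity
  have h5 : ∫ x, ‖v x‖ * |q x| ≤ √K * √Q := by
    rw [h1]
    exact h2.trans (mul_le_mul (Real.sqrt_le_sqrt hb) (Real.sqrt_le_sqrt h3) (Real.sqrt_nonneg _) (Real.sqrt_nonneg _))
  have hT : 0 ≤ ∫ x, ‖v x‖ * |q x| := integral_nonneg fun x => by positivity
  have h6 : (∫ x, ‖v x‖ * |q x|) ^ 4 ≤ K ^ 2 * Q ^ 2 := by
    have := pow_le_pow_left₀ hT h5 4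
    have e : (√K * √Q) ^ 4 = (√K ^ 2) ^ 2 * (√Q ^ 2) ^ 2 := by ring
    rw [e, Real.sq_sqrt hK, Real.sq_sqrt hQ0] at this
    exact this
  have h7 : Q ^ 2 ≤ (∫ x, g x ^ 6) * ∫ x, h x ^ 2 := by
    have := pow_le_pow_left₀ hQ0 h4 2
    rw [mul_pow, Real.sq_sqrt hG6, Real.sq_sqrt hH] at this
    exact this
  have h8 : ∫ x, g x ^ 6 ≤ (SB * ∫ x, gsq g x) ^ 3 := by
    have h9 : 0 ≤ (∫ x, g x ^ 6) ^ (1/3 : ℝ) := by positivity
    have := pow_le_pow_left₀ h9 hS 3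
    rw [← Real.rpow_natCast, ← Real.rpow_mul hG6] at this
    norm_num at this
    exact this
  refine Fa_alg hA hH hSB.le hθ (h6.trans ?_)
  calc K ^ 2 * Q ^ 2 ≤ K ^ 2 * ((∫ x, g x ^ 6) * ∫ x, h x ^ 2) := mul_le_mul_of_nonneg_left h7 (sq_nonneg _)
    _ ≤ K ^ 2 * ((SB * ∫ x, gsq g x) ^ 3 * ∫ x, h x ^ 2) :=
        mul_le_mul_of_nonneg_left (mul_le_mul_of_nonneg_right h8 hH) (sq_nonneg _)
    _ = K ^ 2 * (SB * ∫ x, gsq g x) ^ 3 * ∫ x, h x ^ 2 := by ring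

private theorem Fa_pd_coord (z : ℝ) (i : Fin 3) (x : E3) : pd i (fun y : E3 => y 2 - z) x = (e i) 2 := by
  unfold pd
  have h : HasFDerivAt (fun y : E3 => y 2 - z) (EuclideanSpace.proj 2 : E3 →L[ℝ] ℝ) x :=
    ((EuclideanSpace.proj 2 : E3 →L[ℝ] ℝ).hasFDerivAt).sub_const z
  rw [h.fderiv]
  rfl

private theorem Fa_c2 (z : ℝ) : ContDiff ℝ 1 (fun y : E3 => y 2 - z) :=
  ((EuclideanSpace.proj 2 : E3 →L[ℝ] ℝ).contDiff).sub contDiff_const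

private theorem Fa_ez (z : ℝ) : ContDiff ℝ 1 (fun y : E3 => Fa_eta (y 2 - z)) :=
  (Fa_eta_smooth.of_le (by simp)).comp (Fa_c2 z)

private theorem Fa_pd_g {g : E3 → ℝ} (hg : ContDiff ℝ 1 g) (z : ℝ) (i : Fin 3) (x : E3) :
    pd i (fun y => Fa_eta (y 2 - z) * g y) x = Fa_eta (x 2 - z) * pd i g x + (deriv Fa_eta (x 2 - z) * (e i) 2) * g x := by
  have h1 : pd i (fun y : E3 => Fa_eta (y 2 - z)) x = deriv Fa_eta (x 2 - z) * (e i) 2 := by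
    have h2 := comp_pd (H := Fa_eta) (Fa_c2 z) (Fa_eta_smooth.of_le (by simp)) i x
    rw [Fa_pd_coord] at h2
    exact h2
  rw [← h1]
  unfold pd
  rw [fderiv_fun_mul ((Fa_ez z).differentiable one_ne_zero x) (hg.differentiable one_ne_zero x)]
  show Fa_eta (x 2 - z) * fderiv ℝ g x (e i) + g x * fderiv ℝ (fun y : E3 => Fa_eta (y 2 - z)) x (e i) = _
  ring

private theorem Fa_db {B : ℝ} {g : E3 → ℝ} (hg : ContDiff ℝ 1 g) (hB : DB 1 B g) (z : ℝ) :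
    ∃ B', DB 1 B' (fun y => Fa_eta (y 2 - z) * g y) := by
  obtain ⟨M, hM⟩ := Fa_deta_bd
  have hM0 : 0 ≤ M := (abs_nonneg _).trans (hM 0)
  have hB0 := BL_nonneg hB.1
  have hc := (Fa_ez z).continuous
  have hb1 : ∀ x : E3, |Fa_eta (x 2 - z)| ≤ 1 := fun x => by
    rw [abs_of_nonneg (Fa_eta_nn _)]
    exact Fa_eta_le _
  have h1 := mul_BL hg.continuous hc hB.1 hb1
  have h2 : ∀ i, BL (2 * ((1 * B + 1 ^ 2 * B) + (M * B + M ^ 2 * B))) (pd i (fun y => Fa_eta (y 2 - z) * g y)) := by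
    intro i
    have hpd : pd i (fun y => Fa_eta (y 2 - z) * g y) =
        fun x => Fa_eta (x 2 - z) * pd i g x + (deriv Fa_eta (x 2 - z) * (e i) 2) * g x := funext fun x => Fa_pd_g hg z i x
    rw [hpd]
    have hc' : Continuous (fun x : E3 => deriv Fa_eta (x 2 - z) * (e i) 2) :=
      (Fa_deta_cont.comp (Fa_c2 z).continuous).mul continuous_const
    have hb2 : ∀ x : E3, |deriv Fa_eta (x 2 - z) * (e i) 2| ≤ M := fun x => by
      rw [abs_mul]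
      have h3 : |(e i) 2| ≤ 1 := by
        rw [e_apply]
        split_ifs <;> norm_num
      have h4 := mul_le_mul (hM (x 2 - z)) h3 (abs_nonneg _) hM0
      linarith
    exact add_BL (hc.mul (pd_cont hg i)) (hc'.mul hg.continuous) (mul_BL (pd_cont hg i) hc (hB.2 i) hb1)
      (mul_BL hg.continuous hc' hB.1 hb2)
  refine ⟨2 * ((1 * B + 1 ^ 2 * B) + (M * B + M ^ 2 * B)), BL_mono h1 ?_, h2⟩
  have : 0 ≤ M * B + M ^ 2 * B := by positivity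
  nlinarith

private theorem Fa_gsq {g : E3 → ℝ} (hg : ContDiff ℝ 1 g) (z : ℝ) (x : E3) :
    gsq (fun y => Fa_eta (y 2 - z) * g y) x ≤
      2 * (gsq g x * Fa_eta (x 2 - z) ^ 2) + 2 * (g x ^ 2 * deriv Fa_eta (x 2 - z) ^ 2) := by
  unfold gsq
  rw [Fin.sum_univ_three, Fin.sum_univ_three, Fa_pd_g hg, Fa_pd_g hg, Fa_pd_g hg, e_apply, e_apply, e_apply]
  simp only [show ¬ ((2 : Fin 3) = 0) by decide, show ¬ ((2 : Fin 3) = 1) by decide, if_true, if_false]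
  linarith only [sq_nonneg (Fa_eta (x 2 - z) * pd 0 g x), sq_nonneg (Fa_eta (x 2 - z) * pd 1 g x),
    sq_nonneg (Fa_eta (x 2 - z) * pd 2 g x - deriv Fa_eta (x 2 - z) * g x)]

private theorem Fa_ball {z : ℝ} {x : E3} (h : x ∉ Metric.ball (axp z) 1) : 1 / 2 ≤ rsq x ∨ 1 / 2 ≤ (x 2 - z) ^ 2 := by
  rw [Metric.mem_ball, dist_eq_norm, not_lt] at h
  have h1 : ‖x - axp z‖ ^ 2 = rsq x + (x 2 - z) ^ 2 := by
    rw [EuclideanSpace.norm_sq_eq, Fin.sum_univ_three]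
    have e0 : (x - axp z) 0 = x 0 := by
      show x 0 - 0 = x 0
      ring
    have e1 : (x - axp z) 1 = x 1 := by
      show x 1 - 0 = x 1
      ring
    have e2 : (x - axp z) 2 = x 2 - z := rfl
    rw [e0, e1, e2, Real.norm_eq_abs, Real.norm_eq_abs, Real.norm_eq_abs, sq_abs, sq_abs, sq_abs]
    rfl
  by_contra hc
  push Not at hc
  nlinarith [norm_nonneg (x - axp z)]

private theorem Fa_gsq_cont {g : E3 → ℝ} (hg : ContDiff ℝ 1 g) : Continuous (gsq g) :=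
  continuous_finsetSum _ fun i _ => (pd_cont hg i).pow 2

private theorem Fa_z {K B θ : ℝ} {v : E3 → E3} {g h q : E3 → ℝ} (hv : Continuous v) (hv2 : Integrable (fun x => ‖v x‖ ^ 2))
    (hθ : 0 < θ) (hK : 0 ≤ K) (z : ℝ) (hb : ∫ x in Metric.ball (axp z) 1, ‖v x‖ ^ 2 ≤ K)
    (hg : ContDiff ℝ 1 g) (hgB : DB 1 B g) (hg0 : ∀ x, 1 / 2 ≤ rsq x → g x = 0)
    (hh : Continuous h) (hh2 : Integrable (fun x => h x ^ 2)) (hq : Continuous q)
    (hqe : ∀ x, q x ^ 2 ≤ |g x| ^ 3 * |h x|) :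
    ∫ x, ‖v x‖ * |q x| * Fa_eta (x 2 - z) ^ 2 ≤
      (θ * (2 * ∫ x : E3, gsq g x * Fa_eta (x 2 - z) ^ 2) + θ * (2 * ∫ x : E3, g x ^ 2 * deriv Fa_eta (x 2 - z) ^ 2)) +
        K ^ 2 * SB ^ 3 / θ ^ 3 * (∫ x : E3, h x ^ 2 * Fa_eta (x 2 - z) ^ 2) := by
  have hc := (Fa_ez z).continuous
  have hc' : Continuous (fun x : E3 => deriv Fa_eta (x 2 - z)) := Fa_deta_cont.comp (Fa_c2 z).continuous
  obtain ⟨M, hM⟩ := Fa_deta_bd
  obtain ⟨B', hB'⟩ := Fa_db hg hgB z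
  have hn : ∀ x : E3, 0 ≤ Fa_eta (x 2 - z) := fun x => Fa_eta_nn _
  have h1sq : ∀ x : E3, Fa_eta (x 2 - z) ^ 2 ≤ 1 := fun x => pow_le_one₀ (hn x) (Fa_eta_le _)
  have ih : Integrable (fun x => (Fa_eta (x 2 - z) * h x) ^ 2) := by
    refine Integrable.mono' hh2 ((hc.mul hh).pow 2).aestronglyMeasurable (Eventually.of_forall fun x => ?_)
    rw [Real.norm_eq_abs, abs_of_nonneg (sq_nonneg _), mul_pow]
    exact mul_le_of_le_one_left (sq_nonneg _) (h1sq x)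
  have hmain := Fa_fix (z := z) (g := fun y => Fa_eta (y 2 - z) * g y) (h := fun y => Fa_eta (y 2 - z) * h y)
    (q := fun y => Fa_eta (y 2 - z) ^ 2 * q y) hv hv2 hθ hK hb ((Fa_ez z).mul hg) hB' (hc.mul hh) ih ((hc.pow 2).mul hq)
    (fun x => by
      have h1 : (Fa_eta (x 2 - z) ^ 2 * q x) ^ 2 = Fa_eta (x 2 - z) ^ 4 * q x ^ 2 := by ring
      have h2 : |Fa_eta (x 2 - z) * g x| ^ 3 * |Fa_eta (x 2 - z) * h x| = Fa_eta (x 2 - z) ^ 4 * (|g x| ^ 3 * |h x|) := by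
        rw [abs_mul, abs_mul, abs_of_nonneg (hn x)]
        ring
      rw [h1, h2]
      exact mul_le_mul_of_nonneg_left (hqe x) (pow_nonneg (hn x) 4))
    (fun x hx => by
      rcases Fa_ball hx with h2 | h2
      · have h3 := hqe x
        rw [hg0 x h2, abs_zero] at h3
        have h4 : q x = 0 := by
          have h5 : q x ^ 2 ≤ 0 := by
            refine h3.trans (le_of_eq ?_)
            ring
          exact pow_eq_zero_iff (two_ne_zero) |>.1 (le_antisymm h5 (sq_nonneg _))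
        show Fa_eta (x 2 - z) ^ 2 * q x = 0
        rw [h4, mul_zero]
      · show Fa_eta (x 2 - z) ^ 2 * q x = 0
        rw [Fa_eta_zero h2]
        ring)
  have e1 : ∀ x : E3, ‖v x‖ * |Fa_eta (x 2 - z) ^ 2 * q x| = ‖v x‖ * |q x| * Fa_eta (x 2 - z) ^ 2 := fun x => by
    rw [abs_mul, abs_of_nonneg (sq_nonneg _)]
    ring
  have e2 : ∀ x : E3, (Fa_eta (x 2 - z) * h x) ^ 2 = h x ^ 2 * Fa_eta (x 2 - z) ^ 2 := fun x => by ring
  simp only [e1, e2] at hmain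
  have igs : Integrable (fun x : E3 => gsq g x * Fa_eta (x 2 - z) ^ 2) := by
    refine Integrable.mono' (gsq_int hgB).1 ((Fa_gsq_cont hg).mul (hc.pow 2)).aestronglyMeasurable (Eventually.of_forall fun x => ?_)
    rw [Real.norm_eq_abs, abs_of_nonneg (mul_nonneg (gsq_nonneg g x) (sq_nonneg _))]
    exact mul_le_of_le_one_right (gsq_nonneg g x) (h1sq x)
  have ig2 : Integrable (fun x : E3 => g x ^ 2 * deriv Fa_eta (x 2 - z) ^ 2) := by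
    refine Integrable.mono' (hgB.1.2.1.mul_const (M ^ 2)) ((hg.continuous.pow 2).mul (hc'.pow 2)).aestronglyMeasurable
      (Eventually.of_forall fun x => ?_)
    rw [Real.norm_eq_abs, abs_of_nonneg (by positivity)]
    refine mul_le_mul_of_nonneg_left ?_ (sq_nonneg _)
    rw [← sq_abs]
    exact pow_le_pow_left₀ (abs_nonneg _) (hM _) 2
  have h3 : ∫ x, gsq (fun y => Fa_eta (y 2 - z) * g y) x ≤
      ∫ x, (2 * (gsq g x * Fa_eta (x 2 - z) ^ 2) + 2 * (g x ^ 2 * deriv Fa_eta (x 2 - z) ^ 2)) :=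
    integral_mono (gsq_int hB').1 ((igs.const_mul 2).add (ig2.const_mul 2)) fun x => Fa_gsq hg z x
  rw [integral_add (igs.const_mul 2) (ig2.const_mul 2), integral_const_mul, integral_const_mul] at h3
  have h4 := mul_le_mul_of_nonneg_left h3 hθ.le
  rw [mul_add] at h4
  linarith

theorem cell : ∃ C : ℝ, 1 ≤ C ∧ ∀ (K B δ : ℝ) (v : E3 → E3) (g h q : E3 → ℝ), Continuous v → Integrable (fun x => ‖v x‖ ^ 2) → (∃ M, ∀ x, ‖v x‖ ≤ M) →
    0 ≤ K → 0 < δ → (∀ z, ∫ x in Metric.ball (axp z) 1, ‖v x‖ ^ 2 ≤ K) → ContDiff ℝ 1 g → DB 1 B g → (∀ x, 1 / 2 ≤ rsq x → g x = 0) →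
    Continuous h → Integrable (fun x => h x ^ 2) → Continuous q → (∀ x, q x ^ 2 ≤ |g x| ^ 3 * |h x|) →
    Integrable (fun x => ‖v x‖ * |q x|) ∧
    ∫ x, ‖v x‖ * |q x| ≤ δ * (∫ x, (gsq g x + g x ^ 2)) + C * K ^ 2 / δ ^ 3 * ∫ x, h x ^ 2 := by
  obtain ⟨Ce, hCe⟩ : ∃ Ce : ℝ, Ce = 1 + (∫ t, Fa_eta t ^ 2) + ∫ t, deriv Fa_eta t ^ 2 := ⟨_, rfl⟩
  have hI1 := Fa_one_le
  have hI2 : 0 ≤ ∫ t, deriv Fa_eta t ^ 2 := integral_nonneg fun t => sq_nonneg _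
  have hCe1 : 1 ≤ Ce := by rw [hCe]; linarith
  have hSB := SB_pos
  refine ⟨8 * Ce ^ 4 * SB ^ 3 + 1, by nlinarith [show 0 ≤ 8 * Ce ^ 4 * SB ^ 3 by positivity],
    fun K B δ v g h q hv hv2 ⟨M, hM⟩ hK hδ hb hg hgB hg0 hh hh2 hq hqe => ?_⟩
  have hM0 : 0 ≤ M := (norm_nonneg _).trans (hM 0)
  have hqb : ∀ x, |q x| ≤ g x ^ 2 + h x ^ 2 := fun x => by
    refine abs_le_of_sq_le_sq ((hqe x).trans ?_) (by positivity)
    have h1 := Fa_32 (a := |g x|) (b := |h x|)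
    rw [sq_abs, sq_abs] at h1
    exact h1
  have hi : Integrable (fun x => ‖v x‖ * |q x|) := by
    refine Integrable.mono' ((hgB.1.2.1.add hh2).const_mul M) (hv.norm.mul hq.abs).aestronglyMeasurable
      (Eventually.of_forall fun x => ?_)
    rw [Real.norm_eq_abs, abs_of_nonneg (by positivity)]
    exact mul_le_mul (hM x) (hqb x) (abs_nonneg _) hM0
  refine ⟨hi, ?_⟩
  obtain ⟨θ, hθ⟩ : ∃ θ : ℝ, θ = δ / (2 * Ce) := ⟨_, rfl⟩
  have hθ0 : 0 < θ := by rw [hθ]; positivity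
  have ce2 : Continuous (fun t => Fa_eta t ^ 2) := Fa_eta_smooth.continuous.pow 2
  have cd2 : Continuous (fun t => deriv Fa_eta t ^ 2) := Fa_deta_cont.pow 2
  obtain ⟨t1, t2⟩ := Fa_ton (F := fun x => ‖v x‖ * |q x|) (k := fun t => Fa_eta t ^ 2) (hv.norm.mul hq.abs) hi ce2 Fa_int1
  obtain ⟨a1, a2⟩ := Fa_ton (F := gsq g) (k := fun t => Fa_eta t ^ 2) (Fa_gsq_cont hg) (gsq_int hgB).1 ce2 Fa_int1
  obtain ⟨b1, b2⟩ := Fa_ton (F := fun x => g x ^ 2) (k := fun t => deriv Fa_eta t ^ 2) (hg.continuous.pow 2) hgB.1.2.1 cd2 Fa_int2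
  obtain ⟨d1, d2⟩ := Fa_ton (F := fun x => h x ^ 2) (k := fun t => Fa_eta t ^ 2) (hh.pow 2) hh2 ce2 Fa_int1
  have i1 := (a1.const_mul 2).const_mul θ
  have i2 := (b1.const_mul 2).const_mul θ
  have i3 := d1.const_mul (K ^ 2 * SB ^ 3 / θ ^ 3)
  have hm := integral_mono t1 ((i1.add i2).add i3)
    (fun z => Fa_z hv hv2 hθ0 hK z (hb z) hg hgB hg0 hh hh2 hq hqe)
  have hs : ∫ z : ℝ, (θ * (2 * ∫ x : E3, gsq g x * Fa_eta (x 2 - z) ^ 2) + θ * (2 * ∫ x : E3, g x ^ 2 * deriv Fa_eta (x 2 - z) ^ 2) +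
        K ^ 2 * SB ^ 3 / θ ^ 3 * ∫ x : E3, h x ^ 2 * Fa_eta (x 2 - z) ^ 2) =
      θ * (2 * ((∫ t, Fa_eta t ^ 2) * ∫ x, gsq g x)) + θ * (2 * ((∫ t, deriv Fa_eta t ^ 2) * ∫ x, g x ^ 2)) +
        K ^ 2 * SB ^ 3 / θ ^ 3 * ((∫ t, Fa_eta t ^ 2) * ∫ x, h x ^ 2) := by
    have q1 : ∫ z : ℝ, (θ * (2 * ∫ x : E3, gsq g x * Fa_eta (x 2 - z) ^ 2) + θ * (2 * ∫ x : E3, g x ^ 2 * deriv Fa_eta (x 2 - z) ^ 2)) =
        (∫ z : ℝ, θ * (2 * ∫ x : E3, gsq g x * Fa_eta (x 2 - z) ^ 2)) + ∫ z : ℝ, θ * (2 * ∫ x : E3, g x ^ 2 * deriv Fa_eta (x 2 - z) ^ 2) :=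
      integral_add i1 i2
    have q2 : ∫ z : ℝ, ((θ * (2 * ∫ x : E3, gsq g x * Fa_eta (x 2 - z) ^ 2) + θ * (2 * ∫ x : E3, g x ^ 2 * deriv Fa_eta (x 2 - z) ^ 2)) +
        K ^ 2 * SB ^ 3 / θ ^ 3 * ∫ x : E3, h x ^ 2 * Fa_eta (x 2 - z) ^ 2) =
        (∫ z : ℝ, (θ * (2 * ∫ x : E3, gsq g x * Fa_eta (x 2 - z) ^ 2) + θ * (2 * ∫ x : E3, g x ^ 2 * deriv Fa_eta (x 2 - z) ^ 2))) +
          ∫ z : ℝ, K ^ 2 * SB ^ 3 / θ ^ 3 * ∫ x : E3, h x ^ 2 * Fa_eta (x 2 - z) ^ 2 :=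
      integral_add (i1.add i2) i3
    rw [q2, q1, integral_const_mul, integral_const_mul, integral_const_mul,
      integral_const_mul, integral_const_mul, a2, b2, d2]
  have hm' : (∫ t, Fa_eta t ^ 2) * ∫ x, ‖v x‖ * |q x| ≤
      θ * (2 * ((∫ t, Fa_eta t ^ 2) * ∫ x, gsq g x)) + θ * (2 * ((∫ t, deriv Fa_eta t ^ 2) * ∫ x, g x ^ 2)) +
        K ^ 2 * SB ^ 3 / θ ^ 3 * ((∫ t, Fa_eta t ^ 2) * ∫ x, h x ^ 2) := by
    rw [← hs, ← t2]
    exact hm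
  have hA : 0 ≤ ∫ x, gsq g x := integral_nonneg fun x => gsq_nonneg g x
  have hG : 0 ≤ ∫ x, g x ^ 2 := integral_nonneg fun x => sq_nonneg _
  have hH : 0 ≤ ∫ x, h x ^ 2 := integral_nonneg fun x => sq_nonneg _
  have hT : 0 ≤ ∫ x, ‖v x‖ * |q x| := integral_nonneg fun x => by positivity
  have hle1 : ∫ t, Fa_eta t ^ 2 ≤ Ce := by rw [hCe]; linarith
  have hle2 : ∫ t, deriv Fa_eta t ^ 2 ≤ Ce := by rw [hCe]; linarith
  rw [integral_add (gsq_int hgB).1 hgB.1.2.1]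
  have s1 : ∫ x, ‖v x‖ * |q x| ≤ (∫ t, Fa_eta t ^ 2) * ∫ x, ‖v x‖ * |q x| := le_mul_of_one_le_left hT hI1
  have s2 : θ * (2 * ((∫ t, Fa_eta t ^ 2) * ∫ x, gsq g x)) ≤ θ * (2 * (Ce * ∫ x, gsq g x)) := by gcongr
  have s3 : θ * (2 * ((∫ t, deriv Fa_eta t ^ 2) * ∫ x, g x ^ 2)) ≤ θ * (2 * (Ce * ∫ x, g x ^ 2)) := by gcongr
  have s4 : K ^ 2 * SB ^ 3 / θ ^ 3 * ((∫ t, Fa_eta t ^ 2) * ∫ x, h x ^ 2) ≤ K ^ 2 * SB ^ 3 / θ ^ 3 * (Ce * ∫ x, h x ^ 2) := by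
    gcongr
  have e1 : θ * (2 * (Ce * ∫ x, gsq g x)) = δ * ∫ x, gsq g x := by
    rw [hθ]
    field_simp
  have e2 : θ * (2 * (Ce * ∫ x, g x ^ 2)) = δ * ∫ x, g x ^ 2 := by
    rw [hθ]
    field_simp
  have e3 : K ^ 2 * SB ^ 3 / θ ^ 3 * (Ce * ∫ x, h x ^ 2) = 8 * Ce ^ 4 * SB ^ 3 * K ^ 2 / δ ^ 3 * ∫ x, h x ^ 2 := by
    rw [hθ]
    field_simp
    ring
  have e4 : (8 * Ce ^ 4 * SB ^ 3 + 1) * K ^ 2 / δ ^ 3 * ∫ x, h x ^ 2 =
      8 * Ce ^ 4 * SB ^ 3 * K ^ 2 / δ ^ 3 * (∫ x, h x ^ 2) + K ^ 2 / δ ^ 3 * ∫ x, h x ^ 2 := by ring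
  have e5 : 0 ≤ K ^ 2 / δ ^ 3 * ∫ x, h x ^ 2 := by positivity
  rw [e4, mul_add]
  linarith only [hm', s1, s2, s3, s4, e1, e2, e3, e5]

end Pool.Agent.H90.EP
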