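import Pool.Agent.H90.EP.Sg

/-! Logarithmic Hardy inequality. -/

set_option autoImplicit false

open Set Filter Topology MeasureTheory
open scoped ContDiff

namespace Pool.Agent.H90.EP

open Pool.Agent.H16 Pool.Agent.H72.CC Pool.Agent.H94.EP Pool.Agent.H87.EP
open Pool.Agent.H87.NS hiding c1
open Pool.Agent.H16.TU hiding Sl

theorem Ha_rsq_nn (x : E3) : 0 ≤ rsq x := by
  unfold rsq
  positivity

theorem Ha_rsq_cont : Continuous (fun x : E3 => rsq x) := by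
  unfold rsq
  fun_prop

theorem bk_f {κ : ℝ} (hκ : 1 ≤ κ) : Continuous (bk κ) ∧ (∀ x, 0 < bk κ x ∧ bk κ x ≤ κ ^ 2) ∧ (∀ x, 1 ≤ κ * rad x → 1 / rsq x ≤ 2 * bk κ x) ∧
    (∀ x, (min 1 (κ * rad x)) ^ 2 ≤ 2 * (rsq x * bk κ x)) := by
  have hk : 0 < κ := by linarith
  have hd : ∀ x : E3, 1 ≤ 1 + κ ^ 2 * rsq x := fun x => by
    have := mul_nonneg (sq_nonneg κ) (Ha_rsq_nn x)
    linarith
  have hd0 : ∀ x : E3, 0 < 1 + κ ^ 2 * rsq x := fun x => lt_of_lt_of_le one_pos (hd x)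
  refine ⟨?_, fun x => ⟨?_, ?_⟩, fun x hx => ?_, fun x => ?_⟩
  · unfold bk
    exact continuous_const.div (continuous_const.add (continuous_const.mul Ha_rsq_cont)) fun x => (hd0 x).ne'
  · exact div_pos (by positivity) (hd0 x)
  · exact div_le_self (sq_nonneg κ) (hd x)
  · have h1 : 1 ≤ κ ^ 2 * rsq x := by
      rw [← rad_sq' x, ← mul_pow]
      exact one_le_pow₀ hx
    have h2 : 0 < rsq x := by
      by_contra hc
      have h3 : κ ^ 2 * rsq x ≤ 0 := mul_nonpos_of_nonneg_of_nonpos (sq_nonneg κ) (not_lt.1 hc)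
      linarith
    unfold bk
    rw [← mul_div_assoc, div_le_div_iff₀ h2 (hd0 x)]
    linarith
  · have h1 : (κ * rad x) ^ 2 = κ ^ 2 * rsq x := by
      rw [mul_pow, rad_sq']
    have h2 : 2 * (rsq x * bk κ x) = 2 * (κ ^ 2 * rsq x) / (1 + κ ^ 2 * rsq x) := by
      unfold bk
      ring
    have h0 : 0 ≤ κ ^ 2 * rsq x := mul_nonneg (sq_nonneg κ) (Ha_rsq_nn x)
    have hr : 0 ≤ κ * rad x := mul_nonneg hk.le (Real.sqrt_nonneg _)
    rw [h2, le_div_iff₀ (hd0 x)]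
    rcases le_total 1 (κ * rad x) with h3 | h3
    · rw [min_eq_left h3]
      have h4 : 1 ≤ κ ^ 2 * rsq x := by
        rw [← h1]
        exact one_le_pow₀ h3
      linarith
    · rw [min_eq_right h3, h1]
      have h4 : κ ^ 2 * rsq x ≤ 1 := by
        rw [← h1]
        exact pow_le_one₀ hr h3
      nlinarith

theorem Ha_log {κ t : ℝ} (hκ : 1 ≤ κ) (h0 : 0 ≤ t) (h1 : t ≤ 1 / 2) :
    0 ≤ Real.log (1 + κ ^ 2 * t) / 2 ∧ Real.log (1 + κ ^ 2 * t) / 2 ≤ Sc κ / 4 := by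
  have hk : 0 < κ := by linarith
  have hk2 : 1 ≤ κ ^ 2 := one_le_pow₀ hκ
  have h2 : 0 ≤ κ ^ 2 * t := mul_nonneg (sq_nonneg κ) h0
  have h3 : κ ^ 2 * t ≤ κ ^ 2 * (1 / 2) := mul_le_mul_of_nonneg_left h1 (sq_nonneg κ)
  constructor
  · have := Real.log_nonneg (by linarith : (1 : ℝ) ≤ 1 + κ ^ 2 * t)
    linarith
  · have h4 : Real.log (1 + κ ^ 2 * t) ≤ Real.log (2 * κ ^ 2) :=
      Real.log_le_log (by linarith) (by linarith)
    rw [Real.log_mul (by norm_num) (by positivity), Real.log_pow] at h4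
    have h5 : Real.log 2 ≤ 1 := by
      have := Real.log_two_lt_d9
      linarith
    unfold Sc
    push_cast at h4
    linarith

theorem Ha_Sc {κ : ℝ} (hκ : 1 ≤ κ) : 20 ≤ Sc κ := by
  unfold Sc
  have := Real.log_nonneg hκ
  linarith

theorem lk_sq {κ t : ℝ} (hκ : 1 ≤ κ) (h0 : 0 ≤ t) (h1 : t ≤ 1 / 2) :
    (Real.log (1 + κ ^ 2 * t) / 2) ^ 2 ≤ Sc κ ^ 2 * (t * (κ ^ 2 / (1 + κ ^ 2 * t))) := by
  have h2 : 0 ≤ κ ^ 2 * t := mul_nonneg (sq_nonneg κ) h0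
  have hS := Ha_Sc hκ
  obtain ⟨h3, h4⟩ := Ha_log hκ h0 h1
  have h5 : t * (κ ^ 2 / (1 + κ ^ 2 * t)) = (κ ^ 2 * t) / (1 + κ ^ 2 * t) := by ring
  rw [h5]
  set u := κ ^ 2 * t with hu
  have hd : 0 < 1 + u := by linarith
  rw [← mul_div_assoc, le_div_iff₀ hd]
  have hS2 : 400 ≤ Sc κ ^ 2 := by nlinarith only [hS]
  rcases le_total u 1 with h6 | h6
  · have h7 : Real.log (1 + u) ≤ u := by
      have := Real.log_le_sub_one_of_pos hd
      linarith
    have h8 : (Real.log (1 + u) / 2) ^ 2 ≤ (u / 2) ^ 2 := pow_le_pow_left₀ h3 (by linarith) 2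
    have h9 : (u / 2) ^ 2 * (1 + u) ≤ u := by nlinarith only [h2, h6]
    calc (Real.log (1 + u) / 2) ^ 2 * (1 + u) ≤ (u / 2) ^ 2 * (1 + u) :=
          mul_le_mul_of_nonneg_right h8 hd.le
      _ ≤ u := h9
      _ ≤ Sc κ ^ 2 * u := by nlinarith only [h2, hS2]
  · have h8 : (Real.log (1 + u) / 2) ^ 2 ≤ (Sc κ / 4) ^ 2 := pow_le_pow_left₀ h3 h4 2
    calc (Real.log (1 + u) / 2) ^ 2 * (1 + u) ≤ (Sc κ / 4) ^ 2 * (1 + u) :=
          mul_le_mul_of_nonneg_right h8 hd.le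
      _ ≤ (Sc κ / 4) ^ 2 * (2 * u) := mul_le_mul_of_nonneg_left (by linarith) (sq_nonneg _)
      _ ≤ Sc κ ^ 2 * u := by linarith only [mul_nonneg (sq_nonneg (Sc κ)) h2, h2]

theorem Ha_gsq {f : E3 → ℝ} (h : Ri f) (x : E3) : 0 ≤ gsq f x ∧ rsq x * dh f x ^ 2 ≤ gsq f x := by
  rw [gsq_eq h x]
  have h1 := mul_nonneg (Ha_rsq_nn x) (sq_nonneg (dh f x))
  have h2 := sq_nonneg (pd 2 f x)
  constructor <;> linarith

theorem Ha_int {L : ℝ} (hL : 1 ≤ L) (a : ℝ) {f : E3 → ℝ} (h : Ri f) :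
    Integrable (fun x => A1 L a x * gsq f x) := by
  have h1 := ri_int h
  have hA : Continuous (A1 L a) := (A1_ri hL a).sm.continuous
  refine h1.2.1.mono (hA.mul h1.2.2.2.2.2.1).aestronglyMeasurable (Eventually.of_forall fun x => ?_)
  rw [norm_mul]
  have h2 := A1_nn L a x
  have h3 : ‖A1 L a x‖ ≤ 1 := by
    rw [Real.norm_of_nonneg h2.1]
    exact h2.2.trans (ph_le L a (x 2))
  calc ‖A1 L a x‖ * ‖gsq f x‖ ≤ 1 * ‖gsq f x‖ := mul_le_mul_of_nonneg_right h3 (norm_nonneg _)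
    _ = ‖gsq f x‖ := one_mul _

theorem hardy_log : ∃ C : ℝ, 1 ≤ C ∧ ∀ (L a κ : ℝ) (f : E3 → ℝ), 1 ≤ L → 1 ≤ κ → Ri f → Integrable (fun x => A1 L a x * bk κ x * f x ^ 2) ∧
    ∫ x, A1 L a x * bk κ x * f x ^ 2 ≤ C * (Sc κ ^ 2 * Dn L a f + Sc κ * Gn L a f) := by
  obtain ⟨C, hC, hsig⟩ := sig
  refine ⟨4 * C, by linarith, ?_⟩
  intro L a κ f hL hκ hf
  set s : ℝ → ℝ := fun t => Real.log (1 + κ ^ 2 * t) / 2 with hs
  set s' : ℝ → ℝ := fun t => κ ^ 2 / (2 * (1 + κ ^ 2 * t)) with hs'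
  have hpos : ∀ t : ℝ, 0 ≤ t → 0 < 1 + κ ^ 2 * t := fun t ht => by
    have := mul_nonneg (sq_nonneg κ) ht
    linarith
  have hder : ∀ t, 0 ≤ t → HasDerivAt s (s' t) t := by
    intro t ht
    have h1 : HasDerivAt (fun t : ℝ => 1 + κ ^ 2 * t) (κ ^ 2) t := by
      have h2 := ((hasDerivAt_id t).const_mul (κ ^ 2)).const_add 1
      rw [mul_one] at h2
      exact h2
    have h3 := (h1.log (hpos t ht).ne').div_const 2
    have h4 : s' t = κ ^ 2 / (1 + κ ^ 2 * t) / 2 := by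
      rw [hs', div_div, mul_comm (1 + κ ^ 2 * t) 2]
    rw [h4]
    exact h3
  have hcont : ContinuousOn s' (Ici 0) := by
    refine continuousOn_const.div (by fun_prop) fun t ht => ?_
    have := hpos t ht
    positivity
  have hs0 : ∀ t, 0 ≤ t → 0 ≤ s t := by
    intro t ht
    have h1 := Real.log_nonneg (by
      have := mul_nonneg (sq_nonneg κ) ht
      linarith : (1 : ℝ) ≤ 1 + κ ^ 2 * t)
    rw [hs]
    linarith
  have hS := Ha_Sc hκ
  have hsM : ∀ t ∈ Icc (0 : ℝ) (1 / 2), s t ≤ Sc κ := by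
    intro t ht
    have h1 := (Ha_log hκ ht.1 ht.2).2
    rw [hs]
    linarith
  have h1 := hsig L a (Sc κ) f s s' hL hf hder hcont hs0 hsM
  obtain ⟨i1, i2⟩ := sig_int hL hf hder hcont (a := a)
  have hbk : ∀ x : E3, A1 L a x * bk κ x * f x ^ 2 = 2 * (A1 L a x * s' (rsq x) * f x ^ 2) := by
    intro x
    have h2 : bk κ x = 2 * s' (rsq x) := by
      have h3 := hpos (rsq x) (Ha_rsq_nn x)
      rw [hs']
      unfold bk
      field_simp
    rw [h2]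
    ring
  have hint : Integrable (fun x => A1 L a x * bk κ x * f x ^ 2) := by
    have h2 : (fun x => A1 L a x * bk κ x * f x ^ 2) = fun x => 2 * (A1 L a x * s' (rsq x) * f x ^ 2) := funext hbk
    rw [h2]
    exact i1.const_mul 2
  refine ⟨hint, ?_⟩
  have hI : ∫ x, A1 L a x * s' (rsq x) * f x ^ 2 = (∫ x, A1 L a x * bk κ x * f x ^ 2) / 2 := by
    have h2 : (fun x => A1 L a x * bk κ x * f x ^ 2) = fun x => 2 * (A1 L a x * s' (rsq x) * f x ^ 2) := funext hbk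
    rw [h2, integral_const_mul]
    ring
  have i3 := Ha_int hL a hf
  have hpt : ∀ x : E3, -(A1 L a x * s (rsq x) * (f x * dh f x)) ≤
      (1 / 4) * (A1 L a x * bk κ x * f x ^ 2) + Sc κ ^ 2 * (A1 L a x * gsq f x) := by
    intro x
    have hA := (A1_nn L a x).1
    rcases le_total (1 / 2) (rsq x) with h2 | h2
    · rw [A1_zero L a h2]
      simp
    · have h3 := lk_sq hκ (Ha_rsq_nn x) h2
      have h4 : (s (rsq x)) ^ 2 ≤ Sc κ ^ 2 * (rsq x * bk κ x) := h3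
      have h5 := (bk_f hκ).2.1 x
      have h6 := Ha_gsq hf x
      have h7 : -(s (rsq x) * (f x * dh f x)) ≤ (1 / 4) * (bk κ x * f x ^ 2) + Sc κ ^ 2 * (rsq x * dh f x ^ 2) := by
        have hP : 0 ≤ (1 / 4) * (bk κ x * f x ^ 2) := by
          have := mul_nonneg h5.1.le (sq_nonneg (f x))
          linarith only [this]
        have hQ : 0 ≤ Sc κ ^ 2 * (rsq x * dh f x ^ 2) :=
          mul_nonneg (sq_nonneg _) (mul_nonneg (Ha_rsq_nn x) (sq_nonneg _))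
        have hsq : (s (rsq x) * (f x * dh f x)) ^ 2 ≤
            4 * ((1 / 4) * (bk κ x * f x ^ 2)) * (Sc κ ^ 2 * (rsq x * dh f x ^ 2)) := by
          have h8 : (s (rsq x) * (f x * dh f x)) ^ 2 = (s (rsq x)) ^ 2 * (f x * dh f x) ^ 2 := by ring
          have h9 := mul_le_mul_of_nonneg_right h4 (sq_nonneg (f x * dh f x))
          rw [h8]
          refine h9.trans (le_of_eq ?_)
          ring
        have h10 : |s (rsq x) * (f x * dh f x)| ≤
            (1 / 4) * (bk κ x * f x ^ 2) + Sc κ ^ 2 * (rsq x * dh f x ^ 2) := by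
          refine abs_le_of_sq_le_sq ?_ (add_nonneg hP hQ)
          linarith only [sq_nonneg ((1 / 4) * (bk κ x * f x ^ 2) - Sc κ ^ 2 * (rsq x * dh f x ^ 2)), hsq]
        exact (neg_le_abs _).trans h10
      have h11 : Sc κ ^ 2 * (rsq x * dh f x ^ 2) ≤ Sc κ ^ 2 * gsq f x :=
        mul_le_mul_of_nonneg_left h6.2 (sq_nonneg _)
      have h12 := mul_le_mul_of_nonneg_left (h7.trans (add_le_add_right h11 _)) hA
      calc -(A1 L a x * s (rsq x) * (f x * dh f x)) = A1 L a x * -(s (rsq x) * (f x * dh f x)) := by ring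
        _ ≤ A1 L a x * ((1 / 4) * (bk κ x * f x ^ 2) + Sc κ ^ 2 * gsq f x) := h12
        _ = _ := by ring
  have hle : -(∫ x, A1 L a x * s (rsq x) * (f x * dh f x)) ≤
      (1 / 4) * (∫ x, A1 L a x * bk κ x * f x ^ 2) + Sc κ ^ 2 * Dn L a f := by
    unfold Dn
    rw [← integral_neg, ← integral_const_mul, ← integral_const_mul, ← integral_add (hint.const_mul _) (i3.const_mul _)]
    exact integral_mono i2.neg ((hint.const_mul _).add (i3.const_mul _)) hpt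
  rw [hI] at h1
  have hD : 0 ≤ Dn L a f := integral_nonneg fun x => mul_nonneg (A1_nn L a x).1 (Ha_gsq hf x).1
  have hD2 : 0 ≤ Sc κ ^ 2 * Dn L a f := mul_nonneg (sq_nonneg _) hD
  have hD3 : Sc κ ^ 2 * Dn L a f ≤ C * (Sc κ ^ 2 * Dn L a f) := by nlinarith only [hC, hD2]
  linarith only [h1, hle, hD3]

end Pool.Agent.H90.EP
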