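import Pool.Agent.H90.EP.Ha

/-
ROW On_Hb. Hardy inequality at the scales smaller than `1 / κ`. Aux lemmas prefixed Hb_ .
-/

set_option autoImplicit false

open Set Filter Topology MeasureTheory
open scoped ContDiff

namespace Pool.Agent.H90.EP

open Pool.Agent.H16 Pool.Agent.H72.CC Pool.Agent.H94.EP Pool.Agent.H87.EP
open Pool.Agent.H87.NS hiding c1
open Pool.Agent.H16.TU hiding Sl

theorem Hb_rho {δ t : ℝ} (hδ : 0 < δ) (ht : 0 ≤ t) : δ ≤ √(t + δ ^ 2) ∧ 0 < √(t + δ ^ 2) ∧ √(t + δ ^ 2) - δ ≤ √t := by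
  have h1 : δ ≤ √(t + δ ^ 2) := Real.le_sqrt_of_sq_le (by linarith)
  refine ⟨h1, lt_of_lt_of_le hδ h1, ?_⟩
  have h2 : √(t + δ ^ 2) ≤ √t + δ := by
    rw [Real.sqrt_le_left (by positivity)]
    have h3 := Real.sq_sqrt ht
    have h4 : 0 ≤ √t * δ := mul_nonneg (Real.sqrt_nonneg t) hδ.le
    nlinarith
  linarith

theorem Hb_w {κ δ t : ℝ} (hκ : 1 ≤ κ) (hδ : 0 < δ) (ht : 0 ≤ t) : 1 ≤ 1 + κ * (√(t + δ ^ 2) - δ) := by
  have h1 := (Hb_rho hδ ht).1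
  have h2 : 0 ≤ κ * (√(t + δ ^ 2) - δ) := mul_nonneg (by linarith) (by linarith)
  linarith

theorem ck_f {κ δ : ℝ} (hκ : 1 ≤ κ) (hδ : 0 < δ) : Continuous (ck κ δ) ∧ (∀ x, 0 < ck κ δ x) := by
  have hpos : ∀ x : E3, 0 < rd δ x * (1 + κ * (rd δ x - δ)) ^ 2 := by
    intro x
    have h1 := (Hb_rho hδ (Ha_rsq_nn x)).2.1
    have h2 := Hb_w hκ hδ (Ha_rsq_nn x)
    unfold rd
    have h3 : 0 < 1 + κ * (√(rsq x + δ ^ 2) - δ) := by linarith
    positivity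
  have hrd : Continuous (rd δ) := by
    unfold rd
    exact (Ha_rsq_cont.add continuous_const).sqrt
  refine ⟨?_, fun x => ?_⟩
  · unfold ck
    refine continuous_const.div (hrd.mul ?_) fun x => (hpos x).ne'
    exact (continuous_const.add (continuous_const.mul (hrd.sub continuous_const))).pow 2
  · unfold ck
    exact div_pos (by linarith) (hpos x)

theorem ck_lb {κ δ b : ℝ} (hκ : 1 ≤ κ) (hδ : 0 < δ) (hb : 0 ≤ b) {x : E3} (h1 : κ * rad x ≤ 1) (h2 : b * rad x ≤ κ) (h3 : b * δ ≤ κ) :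
    b ≤ 6 * ck κ δ x := by
  have hk : 0 < κ := by linarith
  obtain ⟨r1, r2, r3⟩ := Hb_rho hδ (Ha_rsq_nn x)
  have hw := Hb_w hκ hδ (Ha_rsq_nn x)
  have hrad : 0 ≤ rad x := Real.sqrt_nonneg _
  have hr3 : √(rsq x + δ ^ 2) - δ ≤ rad x := r3
  unfold ck rd
  set ρ := √(rsq x + δ ^ 2) with hρ
  have hρ2 : ρ ^ 2 = rad x ^ 2 + δ ^ 2 := by
    rw [hρ, Real.sq_sqrt (by have := Ha_rsq_nn x; positivity), rad_sq']
  have hw4 : (1 + κ * (ρ - δ)) ^ 2 ≤ 4 := by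
    have h4 : 1 + κ * (ρ - δ) ≤ 2 := by
      have h5 : κ * (ρ - δ) ≤ κ * rad x := mul_le_mul_of_nonneg_left hr3 hk.le
      linarith
    have h6 : (1 + κ * (ρ - δ)) ^ 2 ≤ 2 ^ 2 := pow_le_pow_left₀ (by linarith) h4 2
    linarith
  have hw1 : 0 < (1 + κ * (ρ - δ)) ^ 2 := by
    have : 0 < 1 + κ * (ρ - δ) := by linarith
    positivity
  have hbr : b * ρ ≤ (3 / 2) * κ := by
    refine abs_le_of_sq_le_sq' ?_ (by positivity) |>.2
    have h4 : (b * rad x) ^ 2 ≤ κ ^ 2 := pow_le_pow_left₀ (mul_nonneg hb hrad) h2 2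
    have h5 : (b * δ) ^ 2 ≤ κ ^ 2 := pow_le_pow_left₀ (mul_nonneg hb hδ.le) h3 2
    have h6 : (b * ρ) ^ 2 = (b * rad x) ^ 2 + (b * δ) ^ 2 := by
      rw [mul_pow, hρ2]
      ring
    rw [h6]
    linarith only [sq_nonneg κ, h4, h5]
  rw [← mul_div_assoc, le_div_iff₀ (mul_pos r2 hw1)]
  calc b * (ρ * (1 + κ * (ρ - δ)) ^ 2) = (b * ρ) * (1 + κ * (ρ - δ)) ^ 2 := by ring
    _ ≤ ((3 / 2) * κ) * 4 := mul_le_mul hbr hw4 hw1.le (by positivity)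
    _ = 6 * κ := by ring

theorem Hb_der {κ δ : ℝ} (hκ : 1 ≤ κ) (hδ : 0 < δ) {t : ℝ} (ht : 0 ≤ t) :
    HasDerivAt (fun t : ℝ => κ * (√(t + δ ^ 2) - δ) / (1 + κ * (√(t + δ ^ 2) - δ)))
      (κ / (2 * (√(t + δ ^ 2) * (1 + κ * (√(t + δ ^ 2) - δ)) ^ 2))) t := by
  obtain ⟨r1, r2, r3⟩ := Hb_rho hδ ht
  have hw := Hb_w hκ hδ ht
  have hw0 : 1 + κ * (√(t + δ ^ 2) - δ) ≠ 0 := by
    have : 0 < 1 + κ * (√(t + δ ^ 2) - δ) := by linarith
    exact this.ne'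
  have h0 : t + δ ^ 2 ≠ 0 := by
    have : 0 < t + δ ^ 2 := by positivity
    exact this.ne'
  have h1 : HasDerivAt (fun t : ℝ => √(t + δ ^ 2)) (1 / (2 * √(t + δ ^ 2))) t := by
    have h2 : HasDerivAt (fun t : ℝ => t + δ ^ 2) 1 t := (hasDerivAt_id t).add_const _
    exact h2.sqrt h0
  have h2 : HasDerivAt (fun t : ℝ => κ * (√(t + δ ^ 2) - δ)) (κ * (1 / (2 * √(t + δ ^ 2)))) t :=
    (h1.sub_const δ).const_mul κ
  have h3 : HasDerivAt (fun t : ℝ => 1 + κ * (√(t + δ ^ 2) - δ)) (κ * (1 / (2 * √(t + δ ^ 2)))) t :=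
    h2.const_add 1
  have h4 := h2.div h3 hw0
  refine h4.congr_deriv ?_
  have hr : √(t + δ ^ 2) ≠ 0 := r2.ne'
  field_simp
  ring

theorem hardy_pt : ∃ C : ℝ, 1 ≤ C ∧ ∀ (L a κ δ : ℝ) (f : E3 → ℝ), 1 ≤ L → 1 ≤ κ → 0 < δ → Ri f →
    Integrable (fun x => A1 L a x * ck κ δ x * f x ^ 2) ∧
    ∫ x, A1 L a x * ck κ δ x * f x ^ 2 ≤ C * (Sc κ * Dn L a f + Gn L a f) := by
  obtain ⟨C, hC, hsig⟩ := sig
  obtain ⟨C1, hC1, hlog⟩ := hardy_log
  refine ⟨2 * C1 + 2 * C + 1, by linarith, ?_⟩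
  intro L a κ δ f hL hκ hδ hf
  have hk : 0 < κ := by linarith
  set s : ℝ → ℝ := fun t : ℝ => κ * (√(t + δ ^ 2) - δ) / (1 + κ * (√(t + δ ^ 2) - δ)) with hs
  set s' : ℝ → ℝ := fun t : ℝ => κ / (2 * (√(t + δ ^ 2) * (1 + κ * (√(t + δ ^ 2) - δ)) ^ 2)) with hs'
  have hder : ∀ t, 0 ≤ t → HasDerivAt s (s' t) t := fun t ht => Hb_der hκ hδ ht
  have hcont : ContinuousOn s' (Ici 0) := by
    refine continuousOn_const.div (by fun_prop) fun t ht => ?_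
    have h1 := (Hb_rho hδ ht).2.1
    have h2 := Hb_w hκ hδ ht
    have h3 : 0 < 1 + κ * (√(t + δ ^ 2) - δ) := by linarith
    positivity
  have hu0 : ∀ t, 0 ≤ t → 0 ≤ κ * (√(t + δ ^ 2) - δ) := fun t ht => by
    have := Hb_w hκ hδ ht
    linarith
  have hs0 : ∀ t, 0 ≤ t → 0 ≤ s t := by
    intro t ht
    exact div_nonneg (hu0 t ht) (by have := hu0 t ht; linarith)
  have hs1 : ∀ t, 0 ≤ t → s t ≤ 1 := by
    intro t ht
    have h1 := hu0 t ht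
    exact (div_le_one (by linarith)).2 (by linarith)
  have hsr : ∀ t, 0 ≤ t → s t ≤ κ * √t := by
    intro t ht
    have h1 := hu0 t ht
    have h2 : s t ≤ κ * (√(t + δ ^ 2) - δ) := div_le_self h1 (by linarith)
    exact h2.trans (mul_le_mul_of_nonneg_left (Hb_rho hδ ht).2.2 hk.le)
  have hS := Ha_Sc hκ
  have h1 := hsig L a 1 f s s' hL hf hder hcont hs0 (fun t ht => hs1 t ht.1)
  obtain ⟨i1, i2⟩ := sig_int hL hf hder hcont (a := a)
  obtain ⟨i4, h2⟩ := hlog L a κ f hL hκ hf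
  have hck : ∀ x : E3, A1 L a x * ck κ δ x * f x ^ 2 = 2 * (A1 L a x * s' (rsq x) * f x ^ 2) := by
    intro x
    have h3 : ck κ δ x = 2 * s' (rsq x) := by
      have h4 := (Hb_rho hδ (Ha_rsq_nn x)).2.1
      have h5 := Hb_w hκ hδ (Ha_rsq_nn x)
      have h6 : 0 < 1 + κ * (√(rsq x + δ ^ 2) - δ) := by linarith
      rw [hs']
      unfold ck rd
      field_simp
    rw [h3]
    ring
  have hint : Integrable (fun x => A1 L a x * ck κ δ x * f x ^ 2) := by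
    have h3 : (fun x => A1 L a x * ck κ δ x * f x ^ 2) = fun x => 2 * (A1 L a x * s' (rsq x) * f x ^ 2) := funext hck
    rw [h3]
    exact i1.const_mul 2
  refine ⟨hint, ?_⟩
  have hI : ∫ x, A1 L a x * s' (rsq x) * f x ^ 2 = (∫ x, A1 L a x * ck κ δ x * f x ^ 2) / 2 := by
    have h3 : (fun x => A1 L a x * ck κ δ x * f x ^ 2) = fun x => 2 * (A1 L a x * s' (rsq x) * f x ^ 2) := funext hck
    rw [h3, integral_const_mul]
    ring
  have i3 := Ha_int hL a hf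
  have hSi : 0 < (Sc κ)⁻¹ := by positivity
  have hpt : ∀ x : E3, -(A1 L a x * s (rsq x) * (f x * dh f x)) ≤
      (Sc κ)⁻¹ * (A1 L a x * bk κ x * f x ^ 2) + (Sc κ / 2) * (A1 L a x * gsq f x) := by
    intro x
    have hA := (A1_nn L a x).1
    have hb := (bk_f hκ).2.1 x
    have h4 : (s (rsq x)) ^ 2 ≤ 2 * (rsq x * bk κ x) := by
      refine le_trans ?_ ((bk_f hκ).2.2.2 x)
      refine pow_le_pow_left₀ (hs0 _ (Ha_rsq_nn x)) (le_min (hs1 _ (Ha_rsq_nn x)) ?_) 2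
      exact hsr _ (Ha_rsq_nn x)
    have h6 := Ha_gsq hf x
    have hP : 0 ≤ (Sc κ)⁻¹ * (bk κ x * f x ^ 2) := mul_nonneg hSi.le (mul_nonneg hb.1.le (sq_nonneg (f x)))
    have hQ : 0 ≤ (Sc κ / 2) * (rsq x * dh f x ^ 2) :=
      mul_nonneg (by linarith) (mul_nonneg (Ha_rsq_nn x) (sq_nonneg _))
    have hsq : (s (rsq x) * (f x * dh f x)) ^ 2 ≤
        4 * ((Sc κ)⁻¹ * (bk κ x * f x ^ 2)) * ((Sc κ / 2) * (rsq x * dh f x ^ 2)) := by
      have h8 : (s (rsq x) * (f x * dh f x)) ^ 2 = (s (rsq x)) ^ 2 * (f x * dh f x) ^ 2 := by ring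
      have h9 := mul_le_mul_of_nonneg_right h4 (sq_nonneg (f x * dh f x))
      rw [h8]
      refine h9.trans (le_of_eq ?_)
      have hS0 : Sc κ ≠ 0 := by linarith
      field_simp
      ring
    have h10 : |s (rsq x) * (f x * dh f x)| ≤
        (Sc κ)⁻¹ * (bk κ x * f x ^ 2) + (Sc κ / 2) * (rsq x * dh f x ^ 2) := by
      refine abs_le_of_sq_le_sq ?_ (add_nonneg hP hQ)
      linarith only [sq_nonneg ((Sc κ)⁻¹ * (bk κ x * f x ^ 2) - (Sc κ / 2) * (rsq x * dh f x ^ 2)), hsq]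
    have h7 : -(s (rsq x) * (f x * dh f x)) ≤
        (Sc κ)⁻¹ * (bk κ x * f x ^ 2) + (Sc κ / 2) * (rsq x * dh f x ^ 2) := (neg_le_abs _).trans h10
    have h11 : (Sc κ / 2) * (rsq x * dh f x ^ 2) ≤ (Sc κ / 2) * gsq f x :=
      mul_le_mul_of_nonneg_left h6.2 (by linarith)
    have h12 := mul_le_mul_of_nonneg_left (h7.trans (add_le_add_right h11 _)) hA
    calc -(A1 L a x * s (rsq x) * (f x * dh f x)) = A1 L a x * -(s (rsq x) * (f x * dh f x)) := by ring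
      _ ≤ A1 L a x * ((Sc κ)⁻¹ * (bk κ x * f x ^ 2) + (Sc κ / 2) * gsq f x) := h12
      _ = _ := by ring
  have hle : -(∫ x, A1 L a x * s (rsq x) * (f x * dh f x)) ≤
      (Sc κ)⁻¹ * (∫ x, A1 L a x * bk κ x * f x ^ 2) + (Sc κ / 2) * Dn L a f := by
    unfold Dn
    rw [← integral_neg, ← integral_const_mul, ← integral_const_mul, ← integral_add (i4.const_mul _) (i3.const_mul _)]
    exact integral_mono i2.neg ((i4.const_mul _).add (i3.const_mul _)) hpt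
  rw [hI] at h1
  have hD : 0 ≤ Dn L a f := integral_nonneg fun x => mul_nonneg (A1_nn L a x).1 (Ha_gsq hf x).1
  have hG : 0 ≤ Gn L a f := by
    refine setIntegral_nonneg meas_Ou fun x _ => ?_
    have := ph_pos L a (x 2)
    positivity
  have hSD : 0 ≤ Sc κ * Dn L a f := mul_nonneg (by linarith) hD
  have h5 : (Sc κ)⁻¹ * (∫ x, A1 L a x * bk κ x * f x ^ 2) ≤ C1 * (Sc κ * Dn L a f + Gn L a f) := by
    calc (Sc κ)⁻¹ * (∫ x, A1 L a x * bk κ x * f x ^ 2)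
        ≤ (Sc κ)⁻¹ * (C1 * (Sc κ ^ 2 * Dn L a f + Sc κ * Gn L a f)) := mul_le_mul_of_nonneg_left h2 hSi.le
      _ = C1 * (Sc κ * Dn L a f + Gn L a f) := by
          have hS0 : Sc κ ≠ 0 := by linarith
          field_simp
  have hC0 : 0 ≤ C * (Sc κ * Dn L a f) := mul_nonneg (by linarith) hSD
  linarith only [h1, hle, hG, h5, hC0]

end Pool.Agent.H90.EP
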