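import Pool.Agent.H90.EP.Dv
import Pool.Agent.H90.EP.Wt

/-
ROW On_Sg. Hardy inequality with a general radial profile. Aux lemmas prefixed Sg_ .
-/

set_option autoImplicit false

open Set Filter Topology MeasureTheory
open scoped ContDiff

namespace Pool.Agent.H90.EP

open Pool.Agent.H16 Pool.Agent.H72.CC Pool.Agent.H94.EP Pool.Agent.H87.EP
open Pool.Agent.H87.NS hiding c1
open Pool.Agent.H16.TU hiding Sl

/-- a radial profile, continuous on `[0, ∞)`, is continuous as a function on the space -/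
theorem Sg_cont {φ : ℝ → ℝ} (hφ : ContinuousOn φ (Ici 0)) : Continuous (fun x : E3 => φ (rsq x)) :=
  hφ.comp_continuous Dv_rsq_cont fun x => Dv_rsq_nonneg x

theorem Sg_scont {s s' : ℝ → ℝ} (h : ∀ t, 0 ≤ t → HasDerivAt s (s' t) t) : ContinuousOn s (Ici 0) :=
  fun t ht => (h t ht).continuousAt.continuousWithinAt

/-- multiplication by a compactly supported (in `rsq`) bounded function times a profile -/
theorem Sg_int {W : E3 → ℝ} {C : ℝ} (hW : Continuous W) (h1 : ∀ x, |W x| ≤ C) (h0 : ∀ x, 1 / 2 < rsq x → W x = 0)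
    {φ : ℝ → ℝ} (hφ : ContinuousOn φ (Ici 0)) {g : E3 → ℝ} (hg : Integrable g) :
    Integrable (fun x => W x * φ (rsq x) * g x) := by
  obtain ⟨K, hK⟩ := (isCompact_Icc (a := (0 : ℝ)) (b := 1 / 2)).exists_bound_of_continuousOn
    (hφ.mono (Icc_subset_Ici_self))
  have hC : 0 ≤ C := (abs_nonneg _).trans (h1 0)
  have hK0 : 0 ≤ K := (norm_nonneg _).trans (hK 0 ⟨le_rfl, by norm_num⟩)
  refine Dv_bdd (C := C * K) (hW.mul (Sg_cont hφ)) (fun x => ?_) hg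
  by_cases hx : 1 / 2 < rsq x
  · rw [h0 x hx, zero_mul, abs_zero]
    positivity
  · rw [abs_mul]
    refine mul_le_mul (h1 x) ?_ (abs_nonneg _) hC
    exact hK (rsq x) ⟨Dv_rsq_nonneg x, not_lt.1 hx⟩

theorem Sg_A1 {L : ℝ} (hL : 1 ≤ L) (a : ℝ) {φ : ℝ → ℝ} (hφ : ContinuousOn φ (Ici 0)) {g : E3 → ℝ} (hg : Integrable g) :
    Integrable (fun x => A1 L a x * φ (rsq x) * g x) :=
  Sg_int (A1_ri hL a).sm.continuous (fun x => D_Ale (L := L) a x) (fun _ hx => A1_zero L a hx.le) hφ hg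

theorem Sg_dh0 {L : ℝ} (hL : 1 ≤ L) (a : ℝ) {x : E3} (hx : 1 / 2 ≤ rsq x ∨ rsq x < 1 / 4) : dh (A1 L a) x = 0 := by
  rw [A1_dh' hL a x]
  rcases hx with hx | hx
  · rw [dc_f.2.2.2.2 x hx]
    ring
  · rw [dc_f.2.2.2.1 x hx]
    ring

theorem Sg_dA1 {L : ℝ} (hL : 1 ≤ L) (a : ℝ) {φ : ℝ → ℝ} (hφ : ContinuousOn φ (Ici 0)) {g : E3 → ℝ} (hg : Integrable g) :
    Integrable (fun x => dh (A1 L a) x * φ (rsq x) * g x) := by
  obtain ⟨-, -, -, -, -, -, -, hc, B, -, hB⟩ := ri_int (A1_ri hL a)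
  exact Sg_int hc (fun x => (hB x).2.2) (fun x hx => Sg_dh0 hL a (Or.inl hx.le)) hφ hg

theorem Sg_fdh {f : E3 → ℝ} (hf : Ri f) : Integrable (fun x => f x * dh f x) := by
  obtain ⟨h1, -, -, h2, h3, -, -, h4, -⟩ := ri_int hf
  refine Integrable.mono' (h1.add h2) (h3.mul h4).aestronglyMeasurable (Eventually.of_forall fun x => ?_)
  rw [Real.norm_eq_abs, abs_mul]
  have h5 := two_mul_le_add_sq |f x| |dh f x|
  rw [sq_abs, sq_abs] at h5
  have h6 : 0 ≤ |f x| * |dh f x| := by positivity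
  simp only [Pi.add_apply]
  nlinarith

theorem sig_int {L a : ℝ} (hL : 1 ≤ L) {f : E3 → ℝ} (hf : Ri f) {s s' : ℝ → ℝ} (h : ∀ t, 0 ≤ t → HasDerivAt s (s' t) t)
    (h' : ContinuousOn s' (Ici 0)) : Integrable (fun x => A1 L a x * s' (rsq x) * f x ^ 2) ∧
    Integrable (fun x => A1 L a x * s (rsq x) * (f x * dh f x)) :=
  ⟨Sg_A1 hL a h' (ri_int hf).1, Sg_A1 hL a (Sg_scont h) (Sg_fdh hf)⟩

/-- the derivative of the profile -/
theorem Sg_s {s s' : ℝ → ℝ} (h : ∀ t, 0 ≤ t → HasDerivAt s (s' t) t) (x : E3) :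
    DifferentiableAt ℝ (fun y : E3 => s (rsq y)) x ∧ pd 0 (fun y : E3 => s (rsq y)) x = x 0 * (2 * s' (rsq x)) ∧
      pd 1 (fun y : E3 => s (rsq y)) x = x 1 * (2 * s' (rsq x)) := by
  have h1 := (h (rsq x) (Dv_rsq_nonneg x)).comp_hasFDerivAt x (Dv_rsq_has x)
  refine ⟨h1.differentiableAt, ?_, ?_⟩
  · have h5 : pd 0 (fun y : E3 => s (rsq y)) x = _ := congrArg (fun A : E3 →L[ℝ] ℝ => A (e 0)) h1.fderiv
    rw [h5]
    simp [e]
    ring
  · have h5 : pd 1 (fun y : E3 => s (rsq y)) x = _ := congrArg (fun A : E3 →L[ℝ] ℝ => A (e 1)) h1.fderiv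
    rw [h5]
    simp [e]
    ring

/-- the function `H` -/
noncomputable def Sg_H (L a : ℝ) (f : E3 → ℝ) (s s' : ℝ → ℝ) (x : E3) : ℝ :=
  dh (A1 L a) x * s (rsq x) * f x ^ 2 + (2 * (A1 L a x * s' (rsq x) * f x ^ 2) + 2 * (A1 L a x * s (rsq x) * (f x * dh f x)))

theorem Sg_F {L : ℝ} (hL : 1 ≤ L) (a : ℝ) {f : E3 → ℝ} (hf : Ri f) {s s' : ℝ → ℝ} (h : ∀ t, 0 ≤ t → HasDerivAt s (s' t) t) (x : E3) :
    DifferentiableAt ℝ (fun y => A1 L a y * s (rsq y) * f y ^ 2) x ∧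
      pd 0 (fun y => A1 L a y * s (rsq y) * f y ^ 2) x = x 0 * Sg_H L a f s s' x ∧
      pd 1 (fun y => A1 L a y * s (rsq y) * f y ^ 2) x = x 1 * Sg_H L a f s s' x := by
  obtain ⟨d1, p0, p1⟩ := Sg_s h x
  have hA := A1_ri hL a
  have d0 : DifferentiableAt ℝ (A1 L a) x := A_dd hA.sm x
  have d2 : DifferentiableAt ℝ f x := A_dd hf.sm x
  obtain ⟨a0, a1⟩ := A_pdi hA.sm hA.rot x
  obtain ⟨f0, f1⟩ := A_pdi hf.sm hf.rot x
  have d3 : DifferentiableAt ℝ (fun y => A1 L a y * s (rsq y)) x := d0.mul d1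
  have d4 : DifferentiableAt ℝ (fun y => f y * f y) x := d2.mul d2
  have e0 : (fun y => A1 L a y * s (rsq y) * f y ^ 2) = fun y => (fun z => A1 L a z * s (rsq z)) y * (fun z => f z * f z) y := by
    funext y
    simp only
    ring
  rw [e0]
  refine ⟨d3.mul d4, ?_, ?_⟩
  · rw [Dv_pd_mul d3 d4 0, Dv_pd_mul d0 d1 0, Dv_pd_mul d2 d2 0, a0, f0, p0]
    unfold Sg_H
    ring
  · rw [Dv_pd_mul d3 d4 1, Dv_pd_mul d0 d1 1, Dv_pd_mul d2 d2 1, a1, f1, p1]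
    unfold Sg_H
    ring

theorem Sg_H0 {L : ℝ} (hL : 1 ≤ L) (a : ℝ) {f : E3 → ℝ} {s s' : ℝ → ℝ} {x : E3} (hx : 1 / 2 < rsq x) :
    Sg_H L a f s s' x = 0 := by
  unfold Sg_H
  rw [A1_zero L a hx.le, Sg_dh0 hL a (Or.inl hx.le)]
  ring

/-- `x_i H` is integrable -/
theorem Sg_xH {L : ℝ} (hL : 1 ≤ L) (a : ℝ) {f : E3 → ℝ} {s s' : ℝ → ℝ} (hH : Integrable (Sg_H L a f s s')) (i : Fin 3) (hi : i ≠ 2) :
    Integrable (fun x => x i * Sg_H L a f s s' x) := by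
  refine Integrable.mono' hH.abs ((Dv_coord i).continuous.aestronglyMeasurable.mul hH.aestronglyMeasurable)
    (Eventually.of_forall fun x => ?_)
  rw [Real.norm_eq_abs, abs_mul]
  by_cases hx : 1 / 2 < rsq x
  · rw [Sg_H0 hL a hx]
    simp
  · have h1 := D_xabs i hi (x := x) (by linarith [not_lt.1 hx])
    calc |x i| * |Sg_H L a f s s' x| ≤ 1 * |Sg_H L a f s s' x| := mul_le_mul_of_nonneg_right h1 (abs_nonneg _)
      _ = |Sg_H L a f s s' x| := one_mul _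

/-- the zone term -/
theorem Sg_zone {C₀ : ℝ} (hC : ∀ x, dc x ≤ C₀) {L : ℝ} (hL : 1 ≤ L) (a M : ℝ) {f : E3 → ℝ} (hf : Ri f) {s : ℝ → ℝ}
    (hs : ContinuousOn s (Ici 0)) (h0 : ∀ t, 0 ≤ t → 0 ≤ s t) (hM : ∀ t ∈ Icc (0:ℝ) (1/2), s t ≤ M) :
    - (4 * C₀ * M * Gn L a f) ≤ ∫ x, dh (A1 L a) x * s (rsq x) * f x ^ 2 := by
  have hdc := dc_f
  have hC0 : 0 ≤ C₀ := (hdc.2.1 0).trans (hC 0)
  have hM0 : 0 ≤ M := (h0 0 le_rfl).trans (hM 0 ⟨le_rfl, by norm_num⟩)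
  have i1 : Integrable (fun x : E3 => ph L a (x 2) * f x ^ 2) := by
    refine Dv_bdd (C := 1) (C_H_smooth L a).continuous (fun x => ?_) (ri_int hf).1
    rw [abs_of_pos (ph_pos L a _)]
    exact ph_le L a _
  have i2 : Integrable (Ou.indicator (fun x : E3 => 4 * C₀ * M * (ph L a (x 2) * f x ^ 2))) :=
    (i1.const_mul _).indicator meas_Ou
  have i3 := Sg_dA1 hL a hs (ri_int hf).1
  have e1 : ∫ x, Ou.indicator (fun x : E3 => 4 * C₀ * M * (ph L a (x 2) * f x ^ 2)) x = 4 * C₀ * M * Gn L a f := by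
    rw [integral_indicator meas_Ou, integral_const_mul]
    rfl
  rw [← e1, ← integral_neg]
  refine integral_mono i2.neg i3 fun x => ?_
  show -(Ou.indicator (fun x : E3 => 4 * C₀ * M * (ph L a (x 2) * f x ^ 2)) x) ≤ dh (A1 L a) x * s (rsq x) * f x ^ 2
  by_cases hx : x ∈ Ou
  · rw [indicator_of_mem hx, A1_dh' hL a x]
    have hx' : 1 / 4 ≤ rsq x ∧ rsq x < 1 / 2 := hx
    obtain ⟨c0, c1', -, -⟩ := c1_facts x
    have hp := ph_pos L a (x 2)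
    have k1 : c1 x ^ 3 ≤ 1 := pow_le_one₀ c0 c1'
    have k2 := hC x
    have k3 := hdc.2.1 x
    have k4 := hM (rsq x) ⟨Dv_rsq_nonneg x, hx'.2.le⟩
    have k5 := h0 (rsq x) (Dv_rsq_nonneg x)
    have k6 : c1 x ^ 3 * dc x ≤ 1 * C₀ := mul_le_mul k1 k2 k3 zero_le_one
    have k7 : (c1 x ^ 3 * dc x) * s (rsq x) ≤ (1 * C₀) * M := mul_le_mul k6 k4 k5 (by linarith)
    have k8 : 0 ≤ ph L a (x 2) * f x ^ 2 := by positivity
    have k9 := mul_le_mul_of_nonneg_right k7 k8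
    calc -(4 * C₀ * M * (ph L a (x 2) * f x ^ 2)) = - (4 * ((1 * C₀) * M * (ph L a (x 2) * f x ^ 2))) := by ring
      _ ≤ - (4 * ((c1 x ^ 3 * dc x) * s (rsq x) * (ph L a (x 2) * f x ^ 2))) := by linarith
      _ = _ := by ring
  · rw [indicator_of_notMem hx]
    have hx' : 1 / 2 ≤ rsq x ∨ rsq x < 1 / 4 := by
      by_contra h1
      push Not at h1
      exact hx ⟨h1.2, h1.1⟩
    rw [Sg_dh0 hL a hx']
    simp

theorem sig : ∃ C : ℝ, 1 ≤ C ∧ ∀ (L a M : ℝ) (f : E3 → ℝ) (s s' : ℝ → ℝ), 1 ≤ L → Ri f → (∀ t, 0 ≤ t → HasDerivAt s (s' t) t) →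
    ContinuousOn s' (Ici 0) → (∀ t, 0 ≤ t → 0 ≤ s t) → (∀ t ∈ Icc (0:ℝ) (1/2), s t ≤ M) →
    ∫ x, A1 L a x * s' (rsq x) * f x ^ 2 ≤ - (∫ x, A1 L a x * s (rsq x) * (f x * dh f x)) + C * M * Gn L a f := by
  obtain ⟨-, -, ⟨C₀, hC⟩, -, -⟩ := dc_f
  refine ⟨max 1 (2 * C₀), le_max_left _ _, fun L a M f s s' hL hf h h' h0 hM => ?_⟩
  have hs := Sg_scont h
  obtain ⟨j1, j2⟩ := sig_int (a := a) hL hf h h'
  have j0 := Sg_dA1 hL a hs (ri_int hf).1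
  have hH : Integrable (Sg_H L a f s s') := j0.add ((j1.const_mul 2).add (j2.const_mul 2))
  have hF : Differentiable ℝ (fun y => A1 L a y * s (rsq y) * f y ^ 2) := fun x => (Sg_F hL a hf h x).1
  have e0 : pd 0 (fun y => A1 L a y * s (rsq y) * f y ^ 2) = fun x => x 0 * Sg_H L a f s s' x :=
    funext fun x => (Sg_F hL a hf h x).2.1
  have e1 : pd 1 (fun y => A1 L a y * s (rsq y) * f y ^ 2) = fun x => x 1 * Sg_H L a f s s' x :=
    funext fun x => (Sg_F hL a hf h x).2.2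
  have k := div_le hF (Sg_A1 hL a hs (ri_int hf).1) (by rw [e0]; exact Sg_xH hL a hH 0 (by decide))
    (by rw [e1]; exact Sg_xH hL a hH 1 (by decide))
    (fun x => by
      unfold rdr
      rw [e0, e1]
      unfold rsq
      ring) hH
    (fun x => mul_nonneg (mul_nonneg (A1_nn L a x).1 (h0 _ (Dv_rsq_nonneg x))) (sq_nonneg _))
  have k1 : ∫ x, Sg_H L a f s s' x = (∫ x, dh (A1 L a) x * s (rsq x) * f x ^ 2) +
      (2 * (∫ x, A1 L a x * s' (rsq x) * f x ^ 2) + 2 * (∫ x, A1 L a x * s (rsq x) * (f x * dh f x))) := by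
    have m1 : Integrable (fun x => 2 * (A1 L a x * s' (rsq x) * f x ^ 2) + 2 * (A1 L a x * s (rsq x) * (f x * dh f x))) :=
      (j1.const_mul 2).add (j2.const_mul 2)
    unfold Sg_H
    rw [integral_add j0 m1, integral_add (j1.const_mul 2) (j2.const_mul 2), integral_const_mul, integral_const_mul]
  rw [k1] at k
  have k2 := Sg_zone hC hL a M hf hs h0 hM
  have hM0 : 0 ≤ M := (h0 0 le_rfl).trans (hM 0 ⟨le_rfl, by norm_num⟩)
  have hG : 0 ≤ Gn L a f := by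
    refine setIntegral_nonneg meas_Ou fun x _ => ?_
    have := ph_pos L a (x 2)
    positivity
  have k3 : 2 * C₀ * (M * Gn L a f) ≤ max 1 (2 * C₀) * (M * Gn L a f) :=
    mul_le_mul_of_nonneg_right (le_max_right _ _) (mul_nonneg hM0 hG)
  have k4 : max 1 (2 * C₀) * M * Gn L a f = max 1 (2 * C₀) * (M * Gn L a f) := by ring
  rw [k4]
  nlinarith

end Pool.Agent.H90.EP
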