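import Pool.Agent.H90.EP.Hb

/-! The source term of the vorticity equation. -/

set_option autoImplicit false

open Set Filter Topology MeasureTheory
open scoped ContDiff

namespace Pool.Agent.H90.EP

open Pool.Agent.H16 Pool.Agent.H72.CC Pool.Agent.H94.EP Pool.Agent.H87.EP
open Pool.Agent.H87.NS hiding c1
open Pool.Agent.H16.TU hiding Sl

theorem TA_amgm {η : ℝ} (hη : 0 < η) (e z o : ℝ) :
    2 * e * (|z| * |o|) ≤ η * z ^ 2 + e ^ 2 / η * o ^ 2 := by
  have h1 : η * z ^ 2 + e ^ 2 / η * o ^ 2 - 2 * e * (|z| * |o|) = (η * |z| - e * |o|) ^ 2 / η := by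
    rw [← sq_abs z, ← sq_abs o]
    field_simp
    ring
  have h2 : 0 ≤ (η * |z| - e * |o|) ^ 2 / η := by positivity
  linarith

/-- The zone of the functional `YY`. -/
def TA_Md (κ : ℝ) : Set E3 := {x : E3 | 1 ≤ κ * rad x ∧ rsq x ≤ 1 / 16}

theorem TA_rsq_nn (x : E3) : 0 ≤ rsq x := by unfold rsq; positivity

theorem TA_rsq_cont : Continuous (rsq : E3 → ℝ) := by
  unfold rsq
  fun_prop

theorem TA_meas (κ : ℝ) : MeasurableSet (TA_Md κ) := by
  have h1 : IsClosed (TA_Md κ) := by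
    have e1 : TA_Md κ = {x : E3 | 1 ≤ κ * rad x} ∩ {x : E3 | rsq x ≤ 1 / 16} := rfl
    rw [e1]
    exact (isClosed_le continuous_const (continuous_const.mul continuous_rad)).inter
      (isClosed_le TA_rsq_cont continuous_const)
  exact h1.measurableSet

theorem TA_meas' : MeasurableSet {x : E3 | rsq x < 1 / 2} :=
  (isOpen_lt TA_rsq_cont continuous_const).measurableSet

/-- The pointwise bound. -/
theorem TA_pt {ε K κ L a η μ B : ℝ} {v : E3 → E3} (h : Pool.Agent.H94.EP.Sl ε K κ v) (hη : 0 < η) (hμ : 0 < μ)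
    (hB : 0 < B) (hV : ∀ x, |sV v x| ≤ B) (x : E3) :
    |A1 L a x * (sO v x * GO v x)| ≤
      6 * η * (A1 L a x * ck κ (ε * κ / B) x * Zz v x ^ 2)
      + 6 * ε ^ 2 / η * (A1 L a x * ck κ (ε * κ / B) x * sO v x ^ 2)
      + μ * (TA_Md κ).indicator (fun x => ph L a (x 2) * Zz v x ^ 2 / rsq x) x
      + 2 * ε ^ 2 / μ * (A1 L a x * bk κ x * sO v x ^ 2)
      + 1280 * ({x : E3 | rsq x < 1 / 2}).indicator (fun x => ph L a (x 2) * gv v x) x := by
  have he := h.e0
  have he1 := h.e1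
  have hk := h.k1
  have hk0 : 0 < κ := by linarith
  have hδ : 0 < ε * κ / B := by positivity
  obtain ⟨hA0, hA1⟩ := A1_nn L a x
  have hp := ph_pos L a (x 2)
  have hr := TA_rsq_nn x
  have hck := (ck_f hk hδ).2 x
  have hbk := ((bk_f hk).2.1 x).1
  have hgv := gv_nn v x
  have t1 : 0 ≤ 6 * η * (A1 L a x * ck κ (ε * κ / B) x * Zz v x ^ 2) := by positivity
  have t2 : 0 ≤ 6 * ε ^ 2 / η * (A1 L a x * ck κ (ε * κ / B) x * sO v x ^ 2) := by positivity
  have t3 : 0 ≤ μ * (TA_Md κ).indicator (fun x => ph L a (x 2) * Zz v x ^ 2 / rsq x) x := by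
    apply mul_nonneg hμ.le
    apply indicator_nonneg
    intro y _
    have h1 := ph_pos L a (y 2)
    have h2 := TA_rsq_nn y
    positivity
  have t4 : 0 ≤ 2 * ε ^ 2 / μ * (A1 L a x * bk κ x * sO v x ^ 2) := by positivity
  have t5 : 0 ≤ 1280 * ({x : E3 | rsq x < 1 / 2}).indicator (fun x => ph L a (x 2) * gv v x) x := by
    apply mul_nonneg (by norm_num)
    apply indicator_nonneg
    intro y _
    exact mul_nonneg (ph_pos L a (y 2)).le (gv_nn v y)
  have e0 : |A1 L a x * (sO v x * GO v x)| = A1 L a x * (2 * |sV v x| * (|Zz v x| * |sO v x|)) := by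
    unfold GO
    rw [abs_mul, abs_mul, abs_mul, abs_mul, abs_of_nonneg hA0, abs_of_pos (by norm_num : (0:ℝ) < 2)]
    ring
  rw [e0]
  have hZO : 0 ≤ |Zz v x| * |sO v x| := mul_nonneg (abs_nonneg _) (abs_nonneg _)
  rcases le_or_gt (1 / 2) (rsq x) with h12 | h12
  · rw [A1_zero L a h12] at *
    linarith
  have hrad : rad x < 1 := by
    have h1 := rad_sq' x
    nlinarith only [h1, h12]
  have hg := h.gam x hrad
  rw [circ_eq h.vs.ax x, abs_mul, abs_of_nonneg hr] at hg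
  rcases le_or_gt (κ * rad x) 1 with hc | hc
  · have hb : |sV v x| / ε ≤ 6 * ck κ (ε * κ / B) x := by
      refine ck_lb hk hδ (by positivity) hc ?_ ?_
      · rcases (rad_nonneg x).eq_or_lt with h0 | h0
        · rw [← h0, mul_zero]
          exact hk0.le
        · have h1 : rsq x * |sV v x| ≤ ε * (κ * rad x) :=
            hg.trans (mul_le_mul_of_nonneg_left (min_le_right _ _) he.le)
          rw [← rad_sq' x] at h1
          have h2 : rad x * |sV v x| ≤ ε * κ := by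
            by_contra h3
            rw [not_le] at h3
            have h4 := mul_lt_mul_of_pos_left h3 h0
            linarith only [h4, h1]
          rw [div_mul_eq_mul_div, div_le_iff₀ he]
          linarith
      · have h1 : |sV v x| / ε * (ε * κ / B) = |sV v x| / B * κ := by
          field_simp
        rw [h1]
        have h2 : |sV v x| / B ≤ 1 := by
          rw [div_le_one hB]
          exact hV x
        calc |sV v x| / B * κ ≤ 1 * κ := mul_le_mul_of_nonneg_right h2 hk0.le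
          _ = κ := one_mul κ
    rw [div_le_iff₀ he] at hb
    have h3 : 2 * |sV v x| * (|Zz v x| * |sO v x|) ≤
        6 * ck κ (ε * κ / B) x * (2 * ε * (|Zz v x| * |sO v x|)) := by
      have h4 := mul_le_mul_of_nonneg_right hb hZO
      linarith
    have h5 : 6 * ck κ (ε * κ / B) x * (2 * ε * (|Zz v x| * |sO v x|)) ≤
        6 * ck κ (ε * κ / B) x * (η * Zz v x ^ 2 + ε ^ 2 / η * sO v x ^ 2) :=
      mul_le_mul_of_nonneg_left (TA_amgm hη ε (Zz v x) (sO v x)) (by positivity)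
    have h6 := mul_le_mul_of_nonneg_left (h3.trans h5) hA0
    have h7 : A1 L a x * (6 * ck κ (ε * κ / B) x * (η * Zz v x ^ 2 + ε ^ 2 / η * sO v x ^ 2)) =
        6 * η * (A1 L a x * ck κ (ε * κ / B) x * Zz v x ^ 2)
        + 6 * ε ^ 2 / η * (A1 L a x * ck κ (ε * κ / B) x * sO v x ^ 2) := by ring
    linarith
  have hgv1 : rsq x * |sV v x| ≤ ε := by
    refine hg.trans ?_
    calc ε * min 1 (κ * rad x) ≤ ε * 1 := mul_le_mul_of_nonneg_left (min_le_left _ _) he.le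
      _ = ε := mul_one ε
  have hrad0 : 0 < rad x := by
    by_contra h1
    have h2 : rad x = 0 := le_antisymm (not_lt.1 h1) (rad_nonneg x)
    rw [h2, mul_zero] at hc
    linarith
  have hr0 : 0 < rsq x := by
    rw [← rad_sq' x]
    positivity
  rcases le_or_gt (rsq x) (1 / 16) with h16 | h16
  · have hm : x ∈ TA_Md κ := ⟨hc.le, h16⟩
    have hAp : A1 L a x = ph L a (x 2) := A1_one L a (by linarith)
    have hbk2 := (bk_f hk).2.2.1 x hc.le
    rw [indicator_of_mem hm] at t3 ⊢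
    have h1 : |sV v x| ≤ ε / rsq x := by
      rw [le_div_iff₀ hr0]
      linarith
    have h2 : 2 * |sV v x| * (|Zz v x| * |sO v x|) ≤ 1 / rsq x * (2 * ε * (|Zz v x| * |sO v x|)) := by
      have h4 := mul_le_mul_of_nonneg_right h1 hZO
      have h5 : 1 / rsq x * (2 * ε * (|Zz v x| * |sO v x|)) = 2 * (ε / rsq x * (|Zz v x| * |sO v x|)) := by
        ring
      rw [h5]
      linarith
    have h3 : 1 / rsq x * (2 * ε * (|Zz v x| * |sO v x|)) ≤
        1 / rsq x * (μ * Zz v x ^ 2 + ε ^ 2 / μ * sO v x ^ 2) :=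
      mul_le_mul_of_nonneg_left (TA_amgm hμ ε (Zz v x) (sO v x)) (by positivity)
    have h4 : 1 / rsq x * (ε ^ 2 / μ * sO v x ^ 2) ≤ 2 * bk κ x * (ε ^ 2 / μ * sO v x ^ 2) :=
      mul_le_mul_of_nonneg_right hbk2 (by positivity)
    have h5 : 2 * |sV v x| * (|Zz v x| * |sO v x|) ≤
        1 / rsq x * (μ * Zz v x ^ 2) + 2 * bk κ x * (ε ^ 2 / μ * sO v x ^ 2) := by
      rw [mul_add] at h3
      linarith
    have h6 := mul_le_mul_of_nonneg_left h5 hA0
    have h7 : A1 L a x * (1 / rsq x * (μ * Zz v x ^ 2) + 2 * bk κ x * (ε ^ 2 / μ * sO v x ^ 2)) =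
        μ * (ph L a (x 2) * Zz v x ^ 2 / rsq x) + 2 * ε ^ 2 / μ * (A1 L a x * bk κ x * sO v x ^ 2) := by
      rw [hAp]
      ring
    linarith only [t1, t2, t5, h6, h7]
  · have hm : x ∈ {x : E3 | rsq x < 1 / 2} := h12
    rw [indicator_of_mem hm] at t5 ⊢
    have h1 : |sV v x| ≤ 16 := by
      by_contra h2
      rw [not_le] at h2
      have h3 : 1 < rsq x * |sV v x| := by nlinarith only [h16, h2]
      linarith
    have hz := gv_Z h.vs x
    have ho := gv_O h.vs x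
    have hz2 : Zz v x ^ 2 ≤ 16 * gv v x := by
      linarith only [mul_le_mul_of_nonneg_right h16.le (sq_nonneg (Zz v x)), hz]
    have ho2 : sO v x ^ 2 ≤ 64 * gv v x := by
      linarith only [mul_le_mul_of_nonneg_right h16.le (sq_nonneg (sO v x)), ho]
    have h2 : 2 * (|Zz v x| * |sO v x|) ≤ Zz v x ^ 2 + sO v x ^ 2 := by
      rw [← sq_abs (Zz v x), ← sq_abs (sO v x)]
      linarith only [sq_nonneg (|Zz v x| - |sO v x|)]
    have h3 : 2 * |sV v x| * (|Zz v x| * |sO v x|) ≤ 1280 * gv v x := by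
      have h4 := mul_le_mul_of_nonneg_right h1 hZO
      linarith
    have h5 : A1 L a x * (2 * |sV v x| * (|Zz v x| * |sO v x|)) ≤ ph L a (x 2) * (1280 * gv v x) :=
      mul_le_mul hA1 h3 (mul_nonneg (by positivity) hZO) hp.le
    have h6 : ph L a (x 2) * (1280 * gv v x) = 1280 * (ph L a (x 2) * gv v x) := by ring
    linarith

theorem TA_YYi {κ L a : ℝ} (hκ : 1 ≤ κ) {v : E3 → E3} (hv : Vs v) :
    Integrable ((TA_Md κ).indicator (fun x => ph L a (x 2) * Zz v x ^ 2 / rsq x)) := by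
  have hZ := ri_int (vs_ri hv).2.2.2.1
  have hcZ : Continuous (Zz v) := hZ.2.2.2.2.1
  have hcp : Continuous (fun x : E3 => ph L a (x 2)) := by
    have h1 := (ph_smooth L a).continuous
    exact h1.comp (by fun_prop)
  have hm : Measurable (fun x : E3 => ph L a (x 2) * Zz v x ^ 2 / rsq x) :=
    (hcp.mul (hcZ.pow 2)).measurable.div TA_rsq_cont.measurable
  refine Integrable.mono' (g := fun x => κ ^ 2 * Zz v x ^ 2) (hZ.1.const_mul _)
    (hm.indicator (TA_meas κ)).aestronglyMeasurable (ae_of_all _ fun x => ?_)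
  by_cases hx : x ∈ TA_Md κ
  · rw [indicator_of_mem hx]
    have hp := ph_pos L a (x 2)
    have hp1 := ph_le L a (x 2)
    have hr := TA_rsq_nn x
    have h1 : 1 ≤ κ ^ 2 * rsq x := by
      have h2 := hx.1
      rw [← rad_sq' x]
      nlinarith only [h2]
    have hr0 : 0 < rsq x := by
      by_contra h2
      have h3 : rsq x = 0 := le_antisymm (not_lt.1 h2) hr
      rw [h3] at h1
      norm_num at h1
    rw [Real.norm_of_nonneg (by positivity), div_le_iff₀ hr0]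
    have h4 : ph L a (x 2) * Zz v x ^ 2 ≤ 1 * Zz v x ^ 2 :=
      mul_le_mul_of_nonneg_right hp1 (sq_nonneg _)
    have h5 : 1 * Zz v x ^ 2 ≤ κ ^ 2 * rsq x * Zz v x ^ 2 :=
      mul_le_mul_of_nonneg_right h1 (sq_nonneg _)
    linarith
  · rw [indicator_of_notMem hx, norm_zero]
    positivity

theorem TA_int {L a : ℝ} (hL : 1 ≤ L) {v : E3 → E3} (hv : Vs v) :
    Integrable (fun x => A1 L a x * (sO v x * GO v x)) := by
  obtain ⟨rV, rW, rO, rZ, r2⟩ := vs_ri hv
  have hZ := ri_int rZ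
  have hO := ri_int rO
  have hV := ri_int rV
  have hA := ri_int (A1_ri hL a)
  obtain ⟨B, hB, hVB⟩ := hV.2.2.2.2.2.2.2.2
  have hcZ : Continuous (Zz v) := hZ.2.2.2.2.1
  have hcO : Continuous (sO v) := hO.2.2.2.2.1
  have hcV : Continuous (sV v) := hV.2.2.2.2.1
  have hcA : Continuous (A1 L a) := hA.2.2.2.2.1
  refine Integrable.mono' (g := fun x => B * (Zz v x ^ 2 + sO v x ^ 2)) ((hZ.1.add hO.1).const_mul _) ?_
    (ae_of_all _ fun x => ?_)
  · unfold GO
    exact (hcA.mul (hcO.mul ((continuous_const.mul hcV).mul hcZ))).aestronglyMeasurable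
  · obtain ⟨hA0, hA1⟩ := A1_nn L a x
    have hp1 := ph_le L a (x 2)
    have e0 : |A1 L a x * (sO v x * GO v x)| = A1 L a x * (2 * |sV v x| * (|Zz v x| * |sO v x|)) := by
      unfold GO
      rw [abs_mul, abs_mul, abs_mul, abs_mul, abs_of_nonneg hA0, abs_of_pos (by norm_num : (0:ℝ) < 2)]
      ring
    rw [Real.norm_eq_abs, e0]
    have hZO : 0 ≤ |Zz v x| * |sO v x| := mul_nonneg (abs_nonneg _) (abs_nonneg _)
    have h1 := (hVB x).1
    have h2 : 2 * (|Zz v x| * |sO v x|) ≤ Zz v x ^ 2 + sO v x ^ 2 := by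
      rw [← sq_abs (Zz v x), ← sq_abs (sO v x)]
      linarith only [sq_nonneg (|Zz v x| - |sO v x|)]
    calc A1 L a x * (2 * |sV v x| * (|Zz v x| * |sO v x|))
        ≤ 1 * (2 * |sV v x| * (|Zz v x| * |sO v x|)) :=
          mul_le_mul_of_nonneg_right (hA1.trans hp1) (mul_nonneg (by positivity) hZO)
      _ = |sV v x| * (2 * (|Zz v x| * |sO v x|)) := by ring
      _ ≤ B * (Zz v x ^ 2 + sO v x ^ 2) := mul_le_mul h1 h2 (by positivity) hB.le

theorem TA_add5 {f1 f2 f3 f4 f5 : E3 → ℝ} (i1 : Integrable f1) (i2 : Integrable f2) (i3 : Integrable f3)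
    (i4 : Integrable f4) (i5 : Integrable f5) :
    ∫ x, (f1 x + f2 x + f3 x + f4 x + f5 x) =
      (∫ x, f1 x) + (∫ x, f2 x) + (∫ x, f3 x) + (∫ x, f4 x) + ∫ x, f5 x := by
  have j2 : Integrable (fun x => f1 x + f2 x) := i1.add i2
  have j3 : Integrable (fun x => f1 x + f2 x + f3 x) := j2.add i3
  have j4 : Integrable (fun x => f1 x + f2 x + f3 x + f4 x) := j3.add i4
  rw [integral_add j4 i5, integral_add j3 i4, integral_add j2 i3, integral_add i1 i2]

theorem t1 : ∃ C : ℝ, 1 ≤ C ∧ ∀ (ε K κ L a μ : ℝ) (v : E3 → E3), Pool.Agent.H94.EP.Sl ε K κ v → 1 ≤ L → 0 < μ →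
    Integrable (fun x => A1 L a x * (sO v x * GO v x)) ∧
    |∫ x, A1 L a x * (sO v x * GO v x)| ≤ μ * (YY κ L a v + DJ L a v + GG L a v) +
      C * ε ^ 2 / μ * (Sc κ ^ 2 * DO L a v + Sc κ * GG L a v) + C * GG L a v := by
  obtain ⟨C1, hC1, H1⟩ := hardy_pt
  obtain ⟨C2, hC2, H2⟩ := hardy_log
  refine ⟨2304 * C1 ^ 2 + 32 * C2 + 1280, by linarith only [sq_nonneg C1, hC2], ?_⟩
  intro ε K κ L a μ v h hL hμ
  have hv := h.vs
  obtain ⟨rV, rW, rO, rZ, r2⟩ := vs_ri hv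
  obtain ⟨B, hB, hVB⟩ := (ri_int rV).2.2.2.2.2.2.2.2
  refine ⟨TA_int hL hv, ?_⟩
  have he := h.e0
  have hk := h.k1
  have hk0 : 0 < κ := by linarith
  have hS : 20 ≤ Sc κ := by
    unfold Sc
    have := Real.log_nonneg hk
    linarith
  have hS0 : 0 < Sc κ := by linarith
  have hC10 : 0 < C1 := by linarith
  obtain ⟨δ, hδe⟩ : ∃ δ, δ = ε * κ / B := ⟨_, rfl⟩
  have hδ : 0 < δ := by rw [hδe]; positivity
  obtain ⟨η, hηe⟩ : ∃ η, η = μ / (24 * C1 * Sc κ) := ⟨_, rfl⟩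
  have hη : 0 < η := by rw [hηe]; positivity
  have hpt := TA_pt (L := L) (a := a) h hη hμ hB (fun x => (hVB x).1)
  rw [← hδe] at hpt
  obtain ⟨i1, b1⟩ := H1 L a κ δ (Zz v) hL hk hδ rZ
  obtain ⟨i2, b2⟩ := H1 L a κ δ (sO v) hL hk hδ rO
  obtain ⟨i4, b4⟩ := H2 L a κ (sO v) hL hk rO
  have i3 := TA_YYi (κ := κ) (L := L) (a := a) hk hv
  have i5 : Integrable (({x : E3 | rsq x < 1 / 2}).indicator (fun x => ph L a (x 2) * gv v x)) :=
    (gv_int hv hL a).indicator TA_meas'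
  have hint := TA_int (a := a) hL hv
  have iF : Integrable (fun x => 6 * η * (A1 L a x * ck κ δ x * Zz v x ^ 2)
      + 6 * ε ^ 2 / η * (A1 L a x * ck κ δ x * sO v x ^ 2)
      + μ * (TA_Md κ).indicator (fun x => ph L a (x 2) * Zz v x ^ 2 / rsq x) x
      + 2 * ε ^ 2 / μ * (A1 L a x * bk κ x * sO v x ^ 2)
      + 1280 * ({x : E3 | rsq x < 1 / 2}).indicator (fun x => ph L a (x 2) * gv v x) x) :=
    ((((i1.const_mul _).add (i2.const_mul _)).add (i3.const_mul _)).add (i4.const_mul _)).add (i5.const_mul _)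
  have s1 : |∫ x, A1 L a x * (sO v x * GO v x)| ≤ ∫ x, |A1 L a x * (sO v x * GO v x)| :=
    abs_integral_le_integral_abs
  have s2 : ∫ x, |A1 L a x * (sO v x * GO v x)| ≤ _ := integral_mono hint.abs iF hpt
  have s3 : ∫ x, (6 * η * (A1 L a x * ck κ δ x * Zz v x ^ 2)
      + 6 * ε ^ 2 / η * (A1 L a x * ck κ δ x * sO v x ^ 2)
      + μ * (TA_Md κ).indicator (fun x => ph L a (x 2) * Zz v x ^ 2 / rsq x) x
      + 2 * ε ^ 2 / μ * (A1 L a x * bk κ x * sO v x ^ 2)
      + 1280 * ({x : E3 | rsq x < 1 / 2}).indicator (fun x => ph L a (x 2) * gv v x) x) =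
      6 * η * (∫ x, A1 L a x * ck κ δ x * Zz v x ^ 2)
      + 6 * ε ^ 2 / η * (∫ x, A1 L a x * ck κ δ x * sO v x ^ 2)
      + μ * YY κ L a v
      + 2 * ε ^ 2 / μ * (∫ x, A1 L a x * bk κ x * sO v x ^ 2)
      + 1280 * GG L a v := by
    rw [TA_add5 (i1.const_mul _) (i2.const_mul _) (i3.const_mul _) (i4.const_mul _) (i5.const_mul _)]
    rw [integral_const_mul, integral_const_mul, integral_const_mul, integral_const_mul, integral_const_mul,
      integral_indicator (TA_meas κ), integral_indicator TA_meas']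
    rfl
  have hb := s1.trans (s2.trans s3.le)
  have g1 := gn_Z hL a hv
  have g2 := gn_O hL a hv
  have hGG : 0 ≤ GG L a v := by
    apply integral_nonneg
    intro x
    exact mul_nonneg (ph_pos L a (x 2)).le (gv_nn v x)
  have hDJ : 0 ≤ Dn L a (Zz v) := by
    apply integral_nonneg
    intro x
    refine mul_nonneg (A1_nn L a x).1 ?_
    exact Finset.sum_nonneg fun i _ => sq_nonneg _
  have hDO : 0 ≤ Dn L a (sO v) := by
    apply integral_nonneg
    intro x
    refine mul_nonneg (A1_nn L a x).1 ?_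
    exact Finset.sum_nonneg fun i _ => sq_nonneg _
  have k1 : 6 * η * (∫ x, A1 L a x * ck κ δ x * Zz v x ^ 2) ≤ μ * (Dn L a (Zz v) + GG L a v) := by
    have q1 : ∫ x, A1 L a x * ck κ δ x * Zz v x ^ 2 ≤ C1 * (Sc κ * Dn L a (Zz v) + 4 * GG L a v) :=
      b1.trans (mul_le_mul_of_nonneg_left (by linarith) hC10.le)
    have q2 : C1 * (Sc κ * Dn L a (Zz v) + 4 * GG L a v) ≤ C1 * Sc κ * (4 * (Dn L a (Zz v) + GG L a v)) := by
      have q3 : Sc κ * Dn L a (Zz v) + 4 * GG L a v ≤ Sc κ * (4 * (Dn L a (Zz v) + GG L a v)) := by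
        linarith only [mul_nonneg hS0.le hDJ, mul_le_mul_of_nonneg_right ((by norm_num : (1 : ℝ) ≤ 20).trans hS) hGG]
      have q4 := mul_le_mul_of_nonneg_left q3 hC10.le
      linarith
    have q5 := mul_le_mul_of_nonneg_left (q1.trans q2) (by positivity : (0:ℝ) ≤ 6 * η)
    have q6 : 6 * η * (C1 * Sc κ * (4 * (Dn L a (Zz v) + GG L a v))) = μ * (Dn L a (Zz v) + GG L a v) := by
      rw [hηe]
      field_simp
      ring
    linarith
  have k2 : 6 * ε ^ 2 / η * (∫ x, A1 L a x * ck κ δ x * sO v x ^ 2) ≤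
      2304 * C1 ^ 2 * ε ^ 2 / μ * (Sc κ ^ 2 * Dn L a (sO v) + Sc κ * GG L a v) := by
    have q1 : ∫ x, A1 L a x * ck κ δ x * sO v x ^ 2 ≤ C1 * (16 * (Sc κ * Dn L a (sO v) + GG L a v)) := by
      refine b2.trans (mul_le_mul_of_nonneg_left ?_ hC10.le)
      linarith only [mul_nonneg hS0.le hDO, g2, hGG]
    have q5 := mul_le_mul_of_nonneg_left q1 (by positivity : (0:ℝ) ≤ 6 * ε ^ 2 / η)
    have q6 : 6 * ε ^ 2 / η * (C1 * (16 * (Sc κ * Dn L a (sO v) + GG L a v))) =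
        2304 * C1 ^ 2 * ε ^ 2 / μ * (Sc κ ^ 2 * Dn L a (sO v) + Sc κ * GG L a v) := by
      rw [hηe]
      field_simp
      ring
    linarith only [q5, q6]
  have k4 : 2 * ε ^ 2 / μ * (∫ x, A1 L a x * bk κ x * sO v x ^ 2) ≤
      32 * C2 * ε ^ 2 / μ * (Sc κ ^ 2 * Dn L a (sO v) + Sc κ * GG L a v) := by
    have q1 : ∫ x, A1 L a x * bk κ x * sO v x ^ 2 ≤
        C2 * (16 * (Sc κ ^ 2 * Dn L a (sO v) + Sc κ * GG L a v)) := by
      refine b4.trans (mul_le_mul_of_nonneg_left ?_ (by linarith only [hC2]))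
      linarith only [mul_nonneg (sq_nonneg (Sc κ)) hDO, mul_le_mul_of_nonneg_left g2 hS0.le]
    have q5 := mul_le_mul_of_nonneg_left q1 (by positivity : (0:ℝ) ≤ 2 * ε ^ 2 / μ)
    have q6 : 2 * ε ^ 2 / μ * (C2 * (16 * (Sc κ ^ 2 * Dn L a (sO v) + Sc κ * GG L a v))) =
        32 * C2 * ε ^ 2 / μ * (Sc κ ^ 2 * Dn L a (sO v) + Sc κ * GG L a v) := by
      ring
    linarith
  have hDJe : DJ L a v = Dn L a (Zz v) := rfl
  have hDOe : DO L a v = Dn L a (sO v) := rfl
  rw [hDJe, hDOe]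
  have hT : 0 ≤ ε ^ 2 / μ * (Sc κ ^ 2 * Dn L a (sO v) + Sc κ * GG L a v) := by positivity
  have hfin : (2304 * C1 ^ 2 + 32 * C2 + 1280) * ε ^ 2 / μ * (Sc κ ^ 2 * Dn L a (sO v) + Sc κ * GG L a v) =
      2304 * C1 ^ 2 * ε ^ 2 / μ * (Sc κ ^ 2 * Dn L a (sO v) + Sc κ * GG L a v) +
      32 * C2 * ε ^ 2 / μ * (Sc κ ^ 2 * Dn L a (sO v) + Sc κ * GG L a v) +
      1280 * (ε ^ 2 / μ * (Sc κ ^ 2 * Dn L a (sO v) + Sc κ * GG L a v)) := by ring
  rw [hfin]
  have hGC : 1280 * GG L a v ≤ (2304 * C1 ^ 2 + 32 * C2 + 1280) * GG L a v :=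
    mul_le_mul_of_nonneg_right (by linarith only [sq_nonneg C1, hC2]) hGG
  linarith only [s1, s2, s3, k1, k2, k4, hT, hGC]

end Pool.Agent.H90.EP
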