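import Pool.Agent.H90.EP.Dv
import Pool.Agent.H90.EP.Wt

/-
ROW On_Tz. The source term of the equation of `Z`: all derivatives moved off the circulation. Aux lemmas prefixed Tz_ .
-/

set_option autoImplicit false

open Set Filter Topology MeasureTheory
open scoped ContDiff

namespace Pool.Agent.H90.EP

open Pool.Agent.H16 Pool.Agent.H72.CC Pool.Agent.H94.EP Pool.Agent.H87.EP
open Pool.Agent.H87.NS hiding c1
open Pool.Agent.H16.TU hiding Sl

theorem Tz_bl {f g : E3 → ℝ} (hf : Continuous f) (hg : Continuous g) {B B' : ℝ} (h : BL B f) (h' : BL B' g) :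
    Integrable (fun x => f x * g x) := by
  refine (h.2.1.add h'.2.1).mono' (hf.mul hg).aestronglyMeasurable (Eventually.of_forall fun x => ?_)
  rw [Real.norm_eq_abs, abs_mul]
  have h1 := sq_nonneg (|f x| - |g x|)
  have h2 := sq_abs (f x)
  have h3 := sq_abs (g x)
  have h4 := mul_nonneg (abs_nonneg (f x)) (abs_nonneg (g x))
  simp only [Pi.add_apply]
  nlinarith

theorem Tz_b0 {f : E3 → ℝ} (h : Ri f) : ∃ B : ℝ, BL B f := by
  obtain ⟨B, hB⟩ := h.db 0
  exact ⟨B, hB⟩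

theorem Tz_b1 {f : E3 → ℝ} (h : Ri f) (i : Fin 3) : ∃ B : ℝ, BL B (pd i f) := by
  obtain ⟨B, hB⟩ := h.db 1
  exact ⟨B, hB.2 i⟩

theorem Tz_int {f g : E3 → ℝ} (h : Ri f) (h' : Ri g) : Integrable (fun x => f x * g x) := by
  obtain ⟨B, hB⟩ := Tz_b0 h
  obtain ⟨B', hB'⟩ := Tz_b0 h'
  exact Tz_bl h.sm.continuous h'.sm.continuous hB hB'

theorem Tz_intpd {f g : E3 → ℝ} (h : Ri f) (h' : Ri g) (i : Fin 3) : Integrable (pd i (fun x => f x * g x)) := by
  have h1 : pd i (fun x => f x * g x) = fun x => f x * pd i g x + pd i f x * g x := by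
    funext x
    rw [Psi_mul (A_dd h.sm x) (A_dd h'.sm x)]
    ring
  rw [h1]
  obtain ⟨B, hB⟩ := Tz_b0 h
  obtain ⟨B', hB'⟩ := Tz_b0 h'
  obtain ⟨C, hC⟩ := Tz_b1 h i
  obtain ⟨C', hC'⟩ := Tz_b1 h' i
  exact (Tz_bl h.sm.continuous (pd_smooth h'.sm i).continuous hB hC').add
    (Tz_bl (pd_smooth h.sm i).continuous h'.sm.continuous hC hB')

theorem Tz_sum {f1 f2 f3 f4 : E3 → ℝ} (h1 : Integrable f1) (h2 : Integrable f2) (h3 : Integrable f3)
    (h4 : Integrable f4) : Integrable (fun x => f1 x - f2 x + (f3 x + f4 x)) ∧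
    ∫ x, (f1 x - f2 x + (f3 x + f4 x)) = (∫ x, f1 x) - (∫ x, f2 x) + ((∫ x, f3 x) + ∫ x, f4 x) := by
  have h12 : Integrable (fun x => f1 x - f2 x) := h1.sub h2
  have h34 : Integrable (fun x => f3 x + f4 x) := h3.add h4
  refine ⟨h12.add h34, ?_⟩
  rw [integral_add h12 h34, integral_sub h1 h2, integral_add h3 h4]

theorem tz_eq {L : ℝ} (hL : 1 ≤ L) (a : ℝ) {v : E3 → E3} (hv : Vs v) :
    Integrable (fun x => A1 L a x * (Zz v x * GZ v x)) ∧
    ∫ x, A1 L a x * (Zz v x * GZ v x) =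
      ∫ x, rsq x * sV v x * (A1 L a x * (dh (Zz v) x * pd 2 (sW v) x - pd 2 (Zz v) x * dh (sW v) x) +
        Zz v x * (dh (A1 L a) x * pd 2 (sW v) x - pd 2 (A1 L a) x * dh (sW v) x)) := by
  obtain ⟨hV, hW, -, hZ, -⟩ := vs_ri hv
  have hA := A1_ri hL a
  have hG := hW.pd2
  have hD := hW.dh
  have hdZ := hZ.dh
  have hpZ := hZ.pd2
  have hdV := hV.dh
  -- the function `P = rsq A`
  have hPF : Ri (fun x => (fun s => s * Real.smoothTransition (2 - 4 * s) ^ 4) (rsq x) * ph L a (x 2)) := by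
    refine F_ri hL a (R := 1 / 2) (contDiff_id.mul C_F1_smooth) ?_
    intro s hs
    show s * Real.smoothTransition (2 - 4 * s) ^ 4 = 0
    rw [C_F1_zero s hs, mul_zero]
  obtain ⟨P, hPd⟩ : ∃ P : E3 → ℝ, P = fun x => rsq x * A1 L a x := ⟨_, rfl⟩
  have hP : Ri P := by
    have e1 : P = (fun x => (fun s => s * Real.smoothTransition (2 - 4 * s) ^ 4) (rsq x) * ph L a (x 2)) := by
      rw [hPd]
      funext x
      rw [C_A1_eq]
      simp only
      ring
    rw [e1]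
    exact hPF
  have hPx : ∀ x, P x = rsq x * A1 L a x := fun x => by rw [hPd]
  have hdP : ∀ x, dh P x = 2 * A1 L a x + rsq x * dh (A1 L a) x := by
    have h1 : dh P = fun x => 2 * A1 L a x + rsq x * dh (A1 L a) x := by
      refine dh_uniq hP ?_ ?_
      · exact (continuous_const.mul hA.sm.continuous).add (A_rsq_cont.mul hA.dh.sm.continuous)
      · intro x _
        rw [hPd, rdr_rsq hA.sm, rdr_eq hA]
        ring
    intro x
    rw [h1]
  have hpP : ∀ x, pd 2 P x = rsq x * pd 2 (A1 L a) x := by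
    intro x
    rw [hPd, Psi_mul (A_dd LevX_rsq_cd x) (A_dd hA.sm x), LevX_pd_rsq]
    simp
  -- part 1
  have hp : Ri (fun x => P x * Zz v x * dh (sW v) x) := (hP.mul hZ).mul hD
  have hpp := hp.pd2
  have I1 : Integrable (fun x => (P x * Zz v x * dh (sW v) x) * pd 2 (sV v) x) := Tz_int hp hZ
  have I2 : Integrable (fun x => pd 2 (fun x => P x * Zz v x * dh (sW v) x) x * sV v x) := Tz_int hpp hV
  have E1 := ibz (p := fun x => P x * Zz v x * dh (sW v) x) (q := sV v)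
    (hp.sm.differentiable (by simp)) (hV.sm.differentiable (by simp)) 2 I1 I2 (Tz_int hp hV)
  have hpx : ∀ x, pd 2 (fun x => P x * Zz v x * dh (sW v) x) x =
      rsq x * pd 2 (A1 L a) x * Zz v x * dh (sW v) x + P x * pd 2 (Zz v) x * dh (sW v) x +
        P x * Zz v x * pd 2 (dh (sW v)) x := by
    intro x
    rw [Psi_mul (A_dd (hP.mul hZ).sm x) (A_dd hD.sm x), Psi_mul (A_dd hP.sm x) (A_dd hZ.sm x), hpP]
    ring
  -- part 2
  have hPZ := hP.mul hZ
  have hGV := hG.mul hV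
  have hAZ := hA.mul hZ
  have hF := hPZ.mul hGV
  have hdF : ∀ x, dh (fun x => P x * Zz v x * (pd 2 (sW v) x * sV v x)) x =
      P x * Zz v x * (pd 2 (sW v) x * dh (sV v) x + dh (pd 2 (sW v)) x * sV v x) +
        (P x * dh (Zz v) x + dh P x * Zz v x) * (pd 2 (sW v) x * sV v x) := by
    intro x
    rw [dh_mul hPZ hGV, dh_mul hG hV, dh_mul hP hZ]
  have IH : Integrable (dh (fun x => P x * Zz v x * (pd 2 (sW v) x * sV v x))) := by
    have e1 : dh (fun x => P x * Zz v x * (pd 2 (sW v) x * sV v x)) = fun x =>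
        P x * Zz v x * dh (fun x => pd 2 (sW v) x * sV v x) x +
          dh (fun x => P x * Zz v x) x * (pd 2 (sW v) x * sV v x) := by
      funext x
      rw [dh_mul hPZ hGV]
    rw [e1]
    exact (Tz_int hPZ hGV.dh).add (Tz_int hPZ.dh hGV)
  have E2 := div_eq (F := fun x => P x * Zz v x * (pd 2 (sW v) x * sV v x))
    (G := fun x => A1 L a x * Zz v x * (pd 2 (sW v) x * sV v x))
    (H := dh (fun x => P x * Zz v x * (pd 2 (sW v) x * sV v x)))
    (hF.sm.differentiable (by simp)) (Tz_int hPZ hGV) (Tz_intpd hPZ hGV 0) (Tz_intpd hPZ hGV 1)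
    (fun x => rdr_eq hF x) IH (fun x => by simp only [hPx]; ring) (Tz_int hAZ hGV)
  -- the right side
  have hT : ∀ x, rsq x * sV v x * (A1 L a x * (dh (Zz v) x * pd 2 (sW v) x - pd 2 (Zz v) x * dh (sW v) x) +
        Zz v x * (dh (A1 L a) x * pd 2 (sW v) x - pd 2 (A1 L a) x * dh (sW v) x)) =
      P x * dh (Zz v) x * (pd 2 (sW v) x * sV v x) - P x * pd 2 (Zz v) x * (dh (sW v) x * sV v x) +
        (dh P x * Zz v x * (pd 2 (sW v) x * sV v x) - 2 * (A1 L a x * Zz v x * (pd 2 (sW v) x * sV v x)) -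
          pd 2 P x * Zz v x * (dh (sW v) x * sV v x)) := by
    intro x
    rw [hdP, hpP, hPx]
    ring
  have hDV := hD.mul hV
  have IT : Integrable (fun x => rsq x * sV v x * (A1 L a x * (dh (Zz v) x * pd 2 (sW v) x -
      pd 2 (Zz v) x * dh (sW v) x) + Zz v x * (dh (A1 L a) x * pd 2 (sW v) x -
      pd 2 (A1 L a) x * dh (sW v) x))) := by
    have e1 := funext hT
    rw [e1]
    exact ((Tz_int (hP.mul hdZ) hGV).sub (Tz_int (hP.mul hpZ) hDV)).add
      (((Tz_int (hP.dh.mul hZ) hGV).sub ((Tz_int hAZ hGV).const_mul 2)).sub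
        (Tz_int (hP.pd2.mul hZ) hDV))
  -- the left side
  have hS : ∀ x, A1 L a x * (Zz v x * GZ v x) =
      (P x * Zz v x * dh (sW v) x) * pd 2 (sV v) x -
        dh (fun x => P x * Zz v x * (pd 2 (sW v) x * sV v x)) x +
        (rsq x * sV v x * (A1 L a x * (dh (Zz v) x * pd 2 (sW v) x - pd 2 (Zz v) x * dh (sW v) x) +
        Zz v x * (dh (A1 L a) x * pd 2 (sW v) x - pd 2 (A1 L a) x * dh (sW v) x)) +
        pd 2 (fun x => P x * Zz v x * dh (sW v) x) x * sV v x) := by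
    intro x
    rw [hdF, hpx, hdP, hPx]
    unfold GZ
    rw [rdr_eq hW, rdr_eq hV, dh_pd2 hW]
    have e1 : pd 2 (sV v) x = Zz v x := rfl
    rw [e1]
    ring
  have e2 := funext hS
  rw [e2]
  obtain ⟨k1, k2⟩ := Tz_sum I1 IH IT I2
  refine ⟨k1, ?_⟩
  rw [k2, E1, E2]
  ring

end Pool.Agent.H90.EP
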